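import Pool.Agent.H99.SG.RelAll

/-!
# Chains of separations
-/

set_option autoImplicit false

namespace Pool.Agent.H99.SG

open SimpleGraph Pool.Agent.Results.MP_790549_co.CommonNegativeCircles

variable {V : Type} {G : SimpleGraph V}

/-- a separation with `e` on the first side and `f` on the second side -/
def Cut (H : SimpleGraph V) (e f : Sym2 V) (p : Set V × Set V) : Prop :=
  (∀ v, v ∈ p.1 ∨ v ∈ p.2) ∧ (∀ v ∈ e, v ∈ p.1) ∧ (∀ v ∈ f, v ∈ p.2) ∧
    ∀ x y, H.Adj x y → (x ∈ p.1 ∧ y ∈ p.1) ∨ (x ∈ p.2 ∧ y ∈ p.2)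

/-- a separation of order at most two -/
def Cut2 (H : SimpleGraph V) (e f : Sym2 V) (p : Set V × Set V) : Prop :=
  Cut H e f p ∧ (p.1 ∩ p.2).ncard ≤ 2

theorem Cut2.sep {H : SimpleGraph V} {e f : Sym2 V} {p : Set V × Set V} (h : Cut2 H e f p) :
    Sep H e f p.1 p.2 := ⟨h.1.1, h.2, h.1.2.1, h.1.2.2.1, h.1.2.2.2⟩

/-- the pair `x`, `y` lies between two separations -/
def Between (p q : Set V × Set V) (x y : V) : Prop :=
  (x ∈ q.1 ∧ x ∈ p.2) ∧ (y ∈ q.1 ∧ y ∈ p.2) ∧ ¬ (x ∈ p.1 ∧ y ∈ p.1) ∧ ¬ (x ∈ q.2 ∧ y ∈ q.2) ∧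
    ¬ (x ∈ p.1 ∧ x ∈ q.2) ∧ ¬ (y ∈ p.1 ∧ y ∈ q.2)

theorem Between.symm {p q : Set V × Set V} {x y : V} (h : Between p q x y) : Between p q y x := by
  unfold Between at *
  tauto

/-- the part between two separations is balanced -/
def BalSeg (H : SimpleGraph V) (σ : Sym2 V → ZMod 2) (p q : Set V × Set V) : Prop :=
  ∀ (u : V) (w : H.Walk u u), w.IsCycle → (∀ x y, s(x, y) ∈ w.edges → Between p q x y) →
    sgn σ w = 0

theorem balSeg_iff (H : SimpleGraph V) (σ : Sym2 V → ZMod 2) (p q : Set V × Set V) :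
    BalSeg H σ p q ↔ ∃ s : V → ZMod 2, ∀ x y, H.Adj x y → Between p q x y →
      σ s(x, y) = s x + s y := by
  have hF : ∀ x y, s(x, y) ∉ {g : Sym2 V | ∃ x y, g = s(x, y) ∧ ¬ Between p q x y} ↔
      Between p q x y := by
    intro x y
    constructor
    · intro h
      by_contra hn
      exact h ⟨x, y, rfl, hn⟩
    · rintro h ⟨x', y', h1, h2⟩
      rw [Sym2.eq_iff] at h1
      rcases h1 with ⟨rfl, rfl⟩ | ⟨rfl, rfl⟩
      · exact h2 h
      · exact h2 h.symm
  constructor
  · intro h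
    obtain ⟨s, hs⟩ := exists_potential (G := H) σ
      {g : Sym2 V | ∃ x y, g = s(x, y) ∧ ¬ Between p q x y} (by
        intro u w hw hwF
        exact h u w hw (fun x y hxy => (hF x y).1 (hwF _ hxy)))
    refine ⟨s, fun x y hxy hb => ?_⟩
    have := hs x y hxy ((hF x y).2 hb)
    rwa [cob_mk] at this
  · rintro ⟨s, hs⟩
    have hb : BalancedOff H σ {g : Sym2 V | ∃ x y, g = s(x, y) ∧ ¬ Between p q x y} := by
      apply balancedOff_of_potential σ _ s
      intro x y hxy h
      rw [cob_mk]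
      exact hs x y hxy ((hF x y).1 h)
    intro u w hw hwB
    apply hb u w hw
    intro g hg
    induction g using Sym2.ind with
    | _ x y => exact (hF x y).2 (hwB x y hg)

/-- a step of a chain -/
def Step (H : SimpleGraph V) (σ : Sym2 V → ZMod 2) (e f : Sym2 V) (p q : Set V × Set V) : Prop :=
  Cut2 H e f p ∧ Cut2 H e f q ∧ p.1 ⊆ q.1 ∧ q.2 ⊆ p.2 ∧ BalSeg H σ p q

theorem cert_of_chain (σ : Sym2 V → ZMod 2) {H : SimpleGraph V} {e f : Sym2 V}
    (h : Relation.ReflTransGen (Step H σ e f) ({v | v ∈ e}, Set.univ) (Set.univ, {v | v ∈ f}))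
    (hfin : {v | v ∈ f}.ncard ≤ 2) :
    ∃ π ρ, Cert H σ e f π ρ := by
  classical
  have key : ∀ q, Relation.ReflTransGen (Step H σ e f) ({v | v ∈ e}, Set.univ) q →
      ∃ π ρ : V → ZMod 2, (∀ v, v ∉ q.2 → Free H e f v v → π v = ρ v) ∧
        ∀ x y, H.Adj x y → Free H e f x y → x ∉ q.2 → σ s(x, y) = π x + ρ y := by
    intro q hq
    induction hq with
    | refl =>
      exact ⟨fun _ => 0, fun _ => 0, fun v hv => absurd (Set.mem_univ v) hv,
        fun x y _ _ hx => absurd (Set.mem_univ x) hx⟩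
    | @tail p q _ hpq ih =>
      obtain ⟨π, ρ, h1, h2⟩ := ih
      obtain ⟨cp, cq, hle1, hle2, hbal⟩ := hpq
      obtain ⟨s, hs⟩ := (balSeg_iff H σ p q).1 hbal
      refine ⟨fun v => if v ∈ p.2 then s v else π v, fun v => if v ∈ p.1 then ρ v else s v,
        ?_, ?_⟩
      · intro v hvq hF
        have hFp := hF _ _ cp.sep
        by_cases hv2 : v ∈ p.2
        · have hv1 : v ∉ p.1 := fun h => hFp ⟨hv2, h⟩
          simp only [hv2, hv1, if_true, if_false]
        · have hv1 : v ∈ p.1 := (cp.1.1 v).resolve_right hv2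
          simp only [hv2, hv1, if_true, if_false]
          exact h1 v hv2 hF
      · intro x y hxy hF hxq
        have hFp := hF _ _ cp.sep
        by_cases hx2 : x ∈ p.2
        · have hy1 : y ∉ p.1 := fun h => hFp ⟨hx2, h⟩
          have hy2 : y ∈ p.2 := (cp.1.1 y).resolve_left hy1
          simp only [hx2, hy1, if_true, if_false]
          have hq1 : x ∈ q.1 ∧ y ∈ q.1 := by
            rcases cq.1.2.2.2 x y hxy with h | h
            · exact h
            · exact absurd h.1 hxq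
          apply hs x y hxy
          exact ⟨⟨hq1.1, hx2⟩, ⟨hq1.2, hy2⟩, fun h => hy1 h.2, fun h => hxq h.1, fun h => hxq h.2,
            fun h => hy1 h.1⟩
        · have hy1 : y ∈ p.1 := by
            rcases cp.1.2.2.2 x y hxy with h | h
            · exact h.2
            · exact absurd h.1 hx2
          simp only [hx2, hy1, if_true, if_false]
          exact h2 x y hxy hF hx2
  obtain ⟨π, ρ, h1, h2⟩ := key _ h
  have hsep : Sep H e f Set.univ {v | v ∈ f} := by
    refine ⟨fun v => Or.inl trivial, ?_, fun v _ => trivial, fun v hv => hv,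
      fun x y _ => Or.inl ⟨trivial, trivial⟩⟩
    rw [Set.univ_inter]; exact hfin
  refine ⟨π, ρ, fun v hF => h1 v (fun h => hF _ _ hsep ⟨h, trivial⟩) hF, fun x y hxy hF =>
    h2 x y hxy hF (fun h => hF _ _ hsep ⟨h, trivial⟩)⟩

/-! ### Uncrossing -/

theorem Cut.sup {H : SimpleGraph V} {e f : Sym2 V} {p q : Set V × Set V} (hp : Cut H e f p)
    (hq : Cut H e f q) : Cut H e f (p.1 ∪ q.1, p.2 ∩ q.2) := by
  obtain ⟨p1, p2, p3, p4⟩ := hp
  obtain ⟨q1, q2, q3, q4⟩ := hq
  refine ⟨?_, fun v hv => Or.inl (p2 v hv), fun v hv => ⟨p3 v hv, q3 v hv⟩, ?_⟩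
  · intro v
    have h1 := p1 v
    have h2 := q1 v
    simp only [Set.mem_union, Set.mem_inter_iff]
    tauto
  · intro x y hxy
    have h1 := p4 x y hxy
    have h2 := q4 x y hxy
    simp only [Set.mem_union, Set.mem_inter_iff]
    tauto

theorem Cut.inf {H : SimpleGraph V} {e f : Sym2 V} {p q : Set V × Set V} (hp : Cut H e f p)
    (hq : Cut H e f q) : Cut H e f (p.1 ∩ q.1, p.2 ∪ q.2) := by
  obtain ⟨p1, p2, p3, p4⟩ := hp
  obtain ⟨q1, q2, q3, q4⟩ := hq
  refine ⟨?_, fun v hv => ⟨p2 v hv, q2 v hv⟩, fun v hv => Or.inl (p3 v hv), ?_⟩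
  · intro v
    have h1 := p1 v
    have h2 := q1 v
    simp only [Set.mem_union, Set.mem_inter_iff]
    tauto
  · intro x y hxy
    have h1 := p4 x y hxy
    have h2 := q4 x y hxy
    simp only [Set.mem_union, Set.mem_inter_iff]
    tauto

theorem submod [Finite V] (p q : Set V × Set V) :
    ((p.1 ∪ q.1) ∩ (p.2 ∩ q.2)).ncard + ((p.1 ∩ q.1) ∩ (p.2 ∪ q.2)).ncard ≤
      (p.1 ∩ p.2).ncard + (q.1 ∩ q.2).ncard := by
  have e1 := Set.ncard_union_add_ncard_inter ((p.1 ∪ q.1) ∩ (p.2 ∩ q.2))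
    ((p.1 ∩ q.1) ∩ (p.2 ∪ q.2)) (Set.toFinite _) (Set.toFinite _)
  have e2 := Set.ncard_union_add_ncard_inter (p.1 ∩ p.2) (q.1 ∩ q.2) (Set.toFinite _)
    (Set.toFinite _)
  have e3 : (((p.1 ∪ q.1) ∩ (p.2 ∩ q.2)) ∪ ((p.1 ∩ q.1) ∩ (p.2 ∪ q.2))).ncard ≤
      ((p.1 ∩ p.2) ∪ (q.1 ∩ q.2)).ncard := by
    apply Set.ncard_le_ncard _ (Set.toFinite _)
    intro v
    simp only [Set.mem_union, Set.mem_inter_iff]
    tauto
  have e4 : (((p.1 ∪ q.1) ∩ (p.2 ∩ q.2)) ∩ ((p.1 ∩ q.1) ∩ (p.2 ∪ q.2))).ncard ≤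
      ((p.1 ∩ p.2) ∩ (q.1 ∩ q.2)).ncard := by
    apply Set.ncard_le_ncard _ (Set.toFinite _)
    intro v
    simp only [Set.mem_union, Set.mem_inter_iff]
    tauto
  omega

theorem min_order [Finite V] {a b c d : V} (hab : a ≠ b) {M : Equiv.Perm V}
    (hM : Val G a b c d M) {p : Set V × Set V} (hp : Cut G s(a, b) s(c, d) p) :
    2 ≤ (p.1 ∩ p.2).ncard := by
  obtain ⟨h1, h3, h4, h5⟩ := hp
  have haX : a ∈ p.1 := h3 a (by simp)
  have hbX : b ∈ p.1 := h3 b (by simp)
  have hcY : c ∈ p.2 := h4 c (by simp)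
  have hdY : d ∈ p.2 := h4 d (by simp)
  have himg : M '' p.2ᶜ ⊆ p.1 \ {a, b} := by
    rintro _ ⟨r, hr, rfl⟩
    obtain ⟨k1, k2, k3⟩ := hM.step r (fun h => hr (h ▸ hcY)) (fun h => hr (h ▸ hdY))
    refine ⟨?_, ?_⟩
    · rcases k3 with k3 | k3
      · rw [k3]; exact (h1 r).resolve_right hr
      · rcases h5 r (M r) k3 with h | h
        · exact h.2
        · exact absurd h.1 hr
    · simp only [Set.mem_insert_iff, Set.mem_singleton_iff, not_or]
      exact ⟨k1, k2⟩
  have hXU : p.1 ⊆ p.2ᶜ ∪ (p.1 ∩ p.2) := by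
    intro v hv
    by_cases hvY : v ∈ p.2
    · exact Or.inr ⟨hv, hvY⟩
    · exact Or.inl hvY
  have hsub : ({a, b} : Set V) ⊆ p.1 := by
    intro v hv
    simp only [Set.mem_insert_iff, Set.mem_singleton_iff] at hv
    rcases hv with rfl | rfl
    · exact haX
    · exact hbX
  have hc0 := Set.ncard_le_ncard hsub (Set.toFinite _)
  rw [Set.ncard_pair hab] at hc0
  have hc2 : (p.1 \ {a, b}).ncard = p.1.ncard - 2 := by
    rw [Set.ncard_sdiff hsub (Set.toFinite _), Set.ncard_pair hab]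
  have e1 := Set.ncard_le_ncard hXU (Set.toFinite _)
  have e2 := Set.ncard_union_le p.2ᶜ (p.1 ∩ p.2)
  have e3 := Set.ncard_le_ncard himg (Set.toFinite _)
  rw [Set.ncard_image_of_injective _ M.injective, hc2] at e3
  omega

theorem chain_of_cert [Finite V] (σ : Sym2 V → ZMod 2) {a b c d : V} (hab : a ≠ b)
    {M : Equiv.Perm V} (hM : Val G a b c d M)
    (hdir : ∀ x y, G.Adj x y → s(x, y) ≠ s(a, b) → s(x, y) ≠ s(c, d) →
      Free G s(a, b) s(c, d) x y ∨ Free G s(a, b) s(c, d) y x)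
    {π ρ : V → ZMod 2} (hc : Cert G σ s(a, b) s(c, d) π ρ) (n : ℕ) :
    ∀ p q : Set V × Set V, (q.1 \ p.1).ncard + (p.2 \ q.2).ncard ≤ n →
      Cut2 G s(a, b) s(c, d) p → Cut2 G s(a, b) s(c, d) q → p.1 ⊆ q.1 → q.2 ⊆ p.2 →
      Relation.ReflTransGen (Step G σ s(a, b) s(c, d)) p q := by
  induction n with
  | zero =>
    intro p q hn hp hq h1 h2
    have e1 : (q.1 \ p.1).ncard = 0 := by omega
    have e2 : (p.2 \ q.2).ncard = 0 := by omega
    rw [Set.ncard_eq_zero (Set.toFinite _), Set.sdiff_eq_empty] at e1 e2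
    have : p = q := Prod.ext (h1.antisymm e1) (e2.antisymm h2)
    rw [this]
  | succ n ih =>
    intro p q hn hp hq h1 h2
    by_cases hex : ∃ r : Set V × Set V, Cut2 G s(a, b) s(c, d) r ∧ p.1 ⊆ r.1 ∧ r.2 ⊆ p.2 ∧
        r.1 ⊆ q.1 ∧ q.2 ⊆ r.2 ∧ r ≠ p ∧ r ≠ q
    · obtain ⟨r, hr, r1, r2, r3, r4, r5, r6⟩ := hex
      have lt1 : (r.1 \ p.1).ncard + (p.2 \ r.2).ncard ≤ n := by
        have f1 : (r.1 \ p.1).ncard ≤ (q.1 \ p.1).ncard :=
          Set.ncard_le_ncard (Set.sdiff_subset_sdiff_left r3) (Set.toFinite _)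
        have f2 : (p.2 \ r.2).ncard ≤ (p.2 \ q.2).ncard :=
          Set.ncard_le_ncard (Set.sdiff_subset_sdiff_right r4) (Set.toFinite _)
        by_contra hcon
        have g1 : (r.1 \ p.1).ncard = (q.1 \ p.1).ncard := by omega
        have g2 : (p.2 \ r.2).ncard = (p.2 \ q.2).ncard := by omega
        have k1 := Set.eq_of_subset_of_ncard_le (Set.sdiff_subset_sdiff_left r3) g1.ge
          (Set.toFinite _)
        have k2 := Set.eq_of_subset_of_ncard_le (Set.sdiff_subset_sdiff_right r4) g2.ge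
          (Set.toFinite _)
        apply r6
        apply Prod.ext
        · apply r3.antisymm
          intro v hv
          by_cases hvp : v ∈ p.1
          · exact r1 hvp
          · have : v ∈ r.1 \ p.1 := by rw [k1]; exact ⟨hv, hvp⟩
            exact this.1
        · apply Set.Subset.antisymm _ r4
          intro v hv
          by_contra hvq
          have : v ∈ p.2 \ r.2 := by rw [k2]; exact ⟨r2 hv, hvq⟩
          exact this.2 hv
      have lt2 : (q.1 \ r.1).ncard + (r.2 \ q.2).ncard ≤ n := by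
        have f1 : (q.1 \ r.1).ncard ≤ (q.1 \ p.1).ncard :=
          Set.ncard_le_ncard (Set.sdiff_subset_sdiff_right r1) (Set.toFinite _)
        have f2 : (r.2 \ q.2).ncard ≤ (p.2 \ q.2).ncard :=
          Set.ncard_le_ncard (Set.sdiff_subset_sdiff_left r2) (Set.toFinite _)
        by_contra hcon
        have g1 : (q.1 \ r.1).ncard = (q.1 \ p.1).ncard := by omega
        have g2 : (r.2 \ q.2).ncard = (p.2 \ q.2).ncard := by omega
        have k1 := Set.eq_of_subset_of_ncard_le (Set.sdiff_subset_sdiff_right r1) g1.ge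
          (Set.toFinite _)
        have k2 := Set.eq_of_subset_of_ncard_le (Set.sdiff_subset_sdiff_left r2) g2.ge
          (Set.toFinite _)
        apply r5
        apply Prod.ext
        · apply Set.Subset.antisymm _ r1
          intro v hv
          by_contra hvp
          have : v ∈ q.1 \ r.1 := by rw [k1]; exact ⟨r3 hv, hvp⟩
          exact this.2 hv
        · apply r2.antisymm
          intro v hv
          by_cases hvq : v ∈ q.2
          · exact r4 hvq
          · have : v ∈ r.2 \ q.2 := by rw [k2]; exact ⟨hv, hvq⟩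
            exact this.1
      exact (ih p r lt1 hp hr r1 r2).trans (ih r q lt2 hr hq r3 r4)
    · push Not at hex
      -- inner vertices are free
      have inner : ∀ v, v ∈ q.1 → v ∈ p.2 → v ∉ p.1 → v ∉ q.2 →
          Free G s(a, b) s(c, d) v v := by
        intro v hvq hvp hvp' hvq' X Y hXY hv
        have hr0 : Cut G s(a, b) s(c, d) (X, Y) := ⟨hXY.1, hXY.2.2.1, hXY.2.2.2.1, hXY.2.2.2.2⟩
        have hr0c : (X ∩ Y).ncard ≤ 2 := hXY.2.1
        have hj := hr0.sup hp.1
        have hm := hr0.inf hp.1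
        have hjc : ((X ∪ p.1) ∩ (Y ∩ p.2)).ncard ≤ 2 := by
          have e1 := submod (X, Y) p
          have e2 := min_order hab hM hm
          have e3 := hp.2
          simp only at e1 e2 ⊢
          omega
        have hj2 := hj.inf hq.1
        have hj3 := hj.sup hq.1
        have hrc : (((X ∪ p.1) ∩ q.1) ∩ ((Y ∩ p.2) ∪ q.2)).ncard ≤ 2 := by
          have e1 := submod (X ∪ p.1, Y ∩ p.2) q
          have e2 := min_order hab hM hj3
          have e3 := hq.2
          simp only at e1 e2 hjc ⊢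
          omega
        have hr : Cut2 G s(a, b) s(c, d) ((X ∪ p.1) ∩ q.1, (Y ∩ p.2) ∪ q.2) := ⟨hj2, hrc⟩
        have hv1 : v ∈ (X ∪ p.1) ∩ q.1 := ⟨Or.inl hv.2, hvq⟩
        have hv2 : v ∈ (Y ∩ p.2) ∪ q.2 := Or.inl ⟨hv.1, hvp⟩
        have := hex _ hr (fun t ht => ⟨Or.inr ht, h1 ht⟩)
          (by
            rintro t (ht | ht)
            · exact ht.2
            · exact h2 ht) (fun t ht => ht.2) (fun t ht => Or.inr ht)
          (by
            intro h
            apply hvp'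
            rw [← h]
            exact hv1)
        apply hvq'
        rw [← this]
        exact hv2
      refine Relation.ReflTransGen.single ⟨hp, hq, h1, h2, ?_⟩
      classical
      rw [balSeg_iff]
      refine ⟨fun v => if v ∈ p.1 then π v else ρ v, ?_⟩
      have dircase : ∀ x y, G.Adj x y → Between p q x y → Free G s(a, b) s(c, d) x y →
          σ s(x, y) = (if x ∈ p.1 then π x else ρ x) + (if y ∈ p.1 then π y else ρ y) := by
        intro x y hxy hb hF
        obtain ⟨b1, b2, b3, b4, b5, b6⟩ := hb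
        have hFp := hF _ _ hp.sep
        have hFq := hF _ _ hq.sep
        have hy1 : y ∉ p.1 := fun h => hFp ⟨b1.2, h⟩
        have hx2 : x ∉ q.2 := fun h => hFq ⟨h, b2.1⟩
        rw [hc.2 x y hxy hF, if_neg hy1]
        by_cases hx1 : x ∈ p.1
        · rw [if_pos hx1]
        · rw [if_neg hx1, hc.1 x (inner x b1.1 b1.2 hx1 hx2)]
      intro x y hxy hb
      have hne : s(x, y) ≠ s(a, b) := by
        intro h
        have hx : x ∈ s(a, b) := by rw [← h]; simp
        have hy : y ∈ s(a, b) := by rw [← h]; simp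
        exact hb.2.2.1 ⟨hp.1.2.1 x hx, hp.1.2.1 y hy⟩
      have hne' : s(x, y) ≠ s(c, d) := by
        intro h
        have hx : x ∈ s(c, d) := by rw [← h]; simp
        have hy : y ∈ s(c, d) := by rw [← h]; simp
        exact hb.2.2.2.1 ⟨hq.1.2.2.1 x hx, hq.1.2.2.1 y hy⟩
      rcases hdir x y hxy hne hne' with h | h
      · exact dircase x y hxy hb h
      · have := dircase y x hxy.symm hb.symm h
        rw [Sym2.eq_swap, this, add_comm]

end Pool.Agent.H99.SG
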