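import Pool.Agent.H99.SG.RelAll

/-!
# Every edge between `e` and `f` has a free direction
-/

set_option autoImplicit false

namespace Pool.Agent.H99.SG

open SimpleGraph Pool.Agent.Results.MP_790549_co.CommonNegativeCircles

variable {V : Type} {G : SimpleGraph V}

theorem path_perm2 [DecidableEq V] {u v : V} (P : G.Walk u v)
    (hP : P.IsPath) :
    ∃ τ : Equiv.Perm V, (∀ x, x ∉ P.support → τ x = x) ∧ τ v = u ∧
      (∀ x, x ∈ P.support → x ≠ v → G.Adj x (τ x) ∧ τ x ∈ P.support ∧ τ x ≠ u) ∧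
      ∀ x y, s(x, y) ∈ P.edges → (τ x = y ∧ x ≠ v) ∨ (τ y = x ∧ y ≠ v) := by
  induction P with
  | nil =>
    refine ⟨1, fun x _ => rfl, rfl, ?_, ?_⟩
    · intro x hx hxv
      rw [Walk.support_nil, List.mem_singleton] at hx
      exact absurd hx hxv
    · intro x y h; simp at h
  | @cons u v' v h P' ih =>
    rw [Walk.cons_isPath_iff] at hP
    obtain ⟨τ, h1, h2, h3, h4⟩ := ih hP.1
    have hu : u ∉ P'.support := hP.2
    have hv : v ∈ P'.support := P'.end_mem_support
    have huv : u ≠ v := by rintro rfl; exact hu hv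
    have hoth : ∀ x, x ≠ u → x ≠ v → (τ * Equiv.swap u v) x = τ x := by
      intro x hxu hxv
      rw [Equiv.Perm.mul_apply, Equiv.swap_apply_of_ne_of_ne hxu hxv]
    have hτu : (τ * Equiv.swap u v) u = v' := by
      rw [Equiv.Perm.mul_apply, Equiv.swap_apply_left, h2]
    have hτv : (τ * Equiv.swap u v) v = u := by
      rw [Equiv.Perm.mul_apply, Equiv.swap_apply_right, h1 u hu]
    refine ⟨τ * Equiv.swap u v, ?_, hτv, ?_, ?_⟩
    · intro x hx
      rw [Walk.support_cons, List.mem_cons, not_or] at hx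
      rw [hoth x hx.1 (fun h => hx.2 (h ▸ hv))]
      exact h1 x hx.2
    · intro x hx hxv
      rw [Walk.support_cons, List.mem_cons] at hx
      by_cases hxu : x = u
      · rw [hxu, hτu]
        refine ⟨h, ?_, h.ne.symm⟩
        rw [Walk.support_cons]
        exact List.mem_cons_of_mem _ P'.start_mem_support
      · have hx' := hx.resolve_left hxu
        obtain ⟨k1, k2, k3⟩ := h3 x hx' hxv
        rw [hoth x hxu hxv]
        refine ⟨k1, ?_, ?_⟩
        · rw [Walk.support_cons]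
          exact List.mem_cons_of_mem _ k2
        · rintro h'
          rw [h'] at k2
          exact hu k2
    · intro x y hxy
      rw [Walk.edges_cons, List.mem_cons] at hxy
      rcases hxy with hxy | hxy
      · rw [Sym2.eq_iff] at hxy
        rcases hxy with ⟨rfl, rfl⟩ | ⟨rfl, rfl⟩
        · exact Or.inl ⟨hτu, huv⟩
        · exact Or.inr ⟨hτu, huv⟩
      · have hxs := P'.fst_mem_support_of_mem_edges hxy
        have hys := P'.snd_mem_support_of_mem_edges hxy
        rcases h4 x y hxy with ⟨k1, k2⟩ | ⟨k1, k2⟩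
        · left
          rw [hoth x (fun h' => hu (h' ▸ hxs)) k2]
          exact ⟨k1, k2⟩
        · right
          rw [hoth y (fun h' => hu (h' ▸ hys)) k2]
          exact ⟨k1, k2⟩

theorem linkage_dir [Finite V] {a b c d c' d' : V}
    (P : G.Walk a c') (Q : G.Walk b d') (hP : P.IsPath) (hQ : Q.IsPath)
    (hd : List.Disjoint P.support Q.support) (hcd : (c' = c ∧ d' = d) ∨ (c' = d ∧ d' = c)) :
    ∃ M : Equiv.Perm V, Val G a b c d M ∧ ∀ x y, (s(x, y) ∈ P.edges ∨ s(x, y) ∈ Q.edges) →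
      (M x = y ∧ x ≠ c ∧ x ≠ d) ∨ (M y = x ∧ y ≠ c ∧ y ≠ d) := by
  classical
  obtain ⟨τ, p1, p2, p3, p4⟩ := path_perm2 P hP
  obtain ⟨τ', q1, q2, q3, q4⟩ := path_perm2 Q hQ
  have hor : ∀ x, (x = c ∨ x = d) ↔ (x = c' ∨ x = d') := by
    intro x
    rcases hcd with ⟨rfl, rfl⟩ | ⟨rfl, rfl⟩
    · exact Iff.rfl
    · exact or_comm
  have hMP : ∀ x, x ∈ P.support → (τ * τ') x = τ x := by
    intro x hx
    rw [Equiv.Perm.mul_apply, q1 x (fun h => hd hx h)]
  have hMn : ∀ x, x ∉ P.support → x ∉ Q.support → (τ * τ') x = x := by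
    intro x hx hx'
    rw [Equiv.Perm.mul_apply, q1 x hx', p1 x hx]
  have hMQ : ∀ x, x ∈ Q.support → (τ * τ') x = τ' x := by
    intro x hx
    rw [Equiv.Perm.mul_apply]
    apply p1
    intro h
    by_cases hxd : x = d'
    · rw [hxd, q2] at h
      exact hd h Q.start_mem_support
    · exact hd h (q3 x hx hxd).2.1
  have haQ : a ∉ Q.support := fun h => hd P.start_mem_support h
  have hbP : b ∉ P.support := fun h => hd h Q.start_mem_support
  refine ⟨τ * τ', ⟨?_, ?_⟩, ?_⟩
  · intro x hx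
    rw [hor] at hx
    rcases hx with rfl | rfl
    · left; rw [hMP _ P.end_mem_support, p2]
    · right; rw [hMQ _ Q.end_mem_support, q2]
  · intro x hc hdd
    have hx : x ≠ c' ∧ x ≠ d' := by
      have := (hor x).not.1 (by rw [not_or]; exact ⟨hc, hdd⟩)
      rwa [not_or] at this
    by_cases hxP : x ∈ P.support
    · obtain ⟨k1, k2, k3⟩ := p3 x hxP hx.1
      rw [hMP x hxP]
      exact ⟨k3, fun h => hbP (h ▸ k2), Or.inr k1⟩
    · by_cases hxQ : x ∈ Q.support
      · obtain ⟨k1, k2, k3⟩ := q3 x hxQ hx.2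
        rw [hMQ x hxQ]
        exact ⟨fun h => haQ (h ▸ k2), k3, Or.inr k1⟩
      · rw [hMn x hxP hxQ]
        exact ⟨fun h => hxP (h ▸ P.start_mem_support), fun h => hxQ (h ▸ Q.start_mem_support),
          Or.inl rfl⟩
  · have hne : ∀ t, t ≠ c' → t ≠ d' → t ≠ c ∧ t ≠ d := by
      intro t h1 h2
      have := (hor t).not.2 (by rw [not_or]; exact ⟨h1, h2⟩)
      rwa [not_or] at this
    intro x y hxy
    rcases hxy with hxy | hxy
    · have hxs := P.fst_mem_support_of_mem_edges hxy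
      have hys := P.snd_mem_support_of_mem_edges hxy
      rcases p4 x y hxy with ⟨k1, k2⟩ | ⟨k1, k2⟩
      · left
        rw [hMP x hxs]
        exact ⟨k1, hne x k2 (fun h' => hd hxs (h' ▸ Q.end_mem_support))⟩
      · right
        rw [hMP y hys]
        exact ⟨k1, hne y k2 (fun h' => hd hys (h' ▸ Q.end_mem_support))⟩
    · have hxs := Q.fst_mem_support_of_mem_edges hxy
      have hys := Q.snd_mem_support_of_mem_edges hxy
      rcases q4 x y hxy with ⟨k1, k2⟩ | ⟨k1, k2⟩
      · left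
        rw [hMQ x hxs]
        exact ⟨k1, hne x (fun h' => hd P.end_mem_support (h' ▸ hxs)) k2⟩
      · right
        rw [hMQ y hys]
        exact ⟨k1, hne y (fun h' => hd P.end_mem_support (h' ▸ hys)) k2⟩

theorem cycle_split2 {a b c d : V} (hab : a ≠ b) (hef : s(a, b) ≠ s(c, d))
    {u : V} (w : G.Walk u u) (hw : w.IsCycle) (he : s(a, b) ∈ w.edges) (hf : s(c, d) ∈ w.edges) :
    ∃ (c' d' : V) (P : G.Walk a c') (Q : G.Walk b d'), P.IsPath ∧ Q.IsPath ∧
      List.Disjoint P.support Q.support ∧ ((c' = c ∧ d' = d) ∨ (c' = d ∧ d' = c)) ∧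
      ∀ g ∈ w.edges, g = s(a, b) ∨ g = s(c, d) ∨ g ∈ P.edges ∨ g ∈ Q.edges := by
  obtain ⟨A1, A2, hA1, hA2, hed, hsg⟩ := arcs3 (fun _ => 0) w hw (w.fst_mem_support_of_mem_edges he)
    (w.snd_mem_support_of_mem_edges he) hab
  have key : ∀ A B : G.Walk a b, A.IsPath → B.IsPath → s(a, b) ∈ B.edges →
      s(c, d) ∈ A.edges ∨ s(c, d) ∈ B.edges → (∀ g ∈ w.edges, g ∈ A.edges ∨ g ∈ B.edges) →
      ∃ (c' d' : V) (P : G.Walk a c') (Q : G.Walk b d'), P.IsPath ∧ Q.IsPath ∧
      List.Disjoint P.support Q.support ∧ ((c' = c ∧ d' = d) ∨ (c' = d ∧ d' = c)) ∧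
      ∀ g ∈ w.edges, g = s(a, b) ∨ g = s(c, d) ∨ g ∈ P.edges ∨ g ∈ Q.edges := by
    intro A B hA hB hBe hAB hs
    have hB1 := hB.eq_adj_toWalk_of_mem_edges hBe
    have hBs : ∀ g ∈ B.edges, g = s(a, b) := by
      rw [hB1]
      intro g hg
      simpa [Adj.toWalk] using hg
    have hAf : s(c, d) ∈ A.edges := by
      rcases hAB with h | h
      · exact h
      · exfalso
        rw [hB1] at h
        simp only [Adj.toWalk, Walk.edges_cons, Walk.edges_nil, List.mem_singleton] at h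
        exact hef h.symm
    obtain ⟨x, y, h, p1, p2, h1, h2⟩ := edge_split A hAf
    rw [h2] at hA
    have hc2 := hA.of_append_right
    rw [Walk.cons_isPath_iff] at hc2
    refine ⟨x, y, p1, p2.reverse, hA.of_append_left, hc2.1.reverse, ?_, ?_, ?_⟩
    · intro t ht ht'
      rw [Walk.support_reverse, List.mem_reverse] at ht'
      have := append_inter hA ht (by
        rw [Walk.support_cons]; exact List.mem_cons_of_mem _ ht')
      rw [this] at ht'
      exact hc2.2 ht'
    · rw [Sym2.eq_iff] at h1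
      exact h1
    · intro g hg
      rcases hs g hg with h' | h'
      · rw [h2, Walk.edges_append, List.mem_append, Walk.edges_cons, List.mem_cons] at h'
        rcases h' with h' | h' | h'
        · exact Or.inr (Or.inr (Or.inl h'))
        · exact Or.inr (Or.inl (h'.trans h1))
        · exact Or.inr (Or.inr (Or.inr (by rw [Walk.edges_reverse, List.mem_reverse]; exact h')))
      · exact Or.inl (hBs g h')
  rcases hed _ he with h | h
  · exact key A2 A1 hA2 hA1 h (hed _ hf).symm (fun g hg => (hed g hg).symm)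
  · exact key A1 A2 hA1 hA2 h (hed _ hf) hed

theorem free_dir [Finite V] {a b c d : V} (hab : a ≠ b) (hef : s(a, b) ≠ s(c, d)) {u : V}
    (w : G.Walk u u) (hw : w.IsCycle) (he : s(a, b) ∈ w.edges) (hf : s(c, d) ∈ w.edges) {x y : V}
    (hxy : s(x, y) ∈ w.edges) (h1 : s(x, y) ≠ s(a, b)) (h2 : s(x, y) ≠ s(c, d)) :
    Free G s(a, b) s(c, d) x y ∨ Free G s(a, b) s(c, d) y x := by
  obtain ⟨c', d', P, Q, hP, hQ, hd, hor, hE⟩ := cycle_split2 hab hef w hw he hf
  obtain ⟨M, hM, hdir⟩ := linkage_dir P Q hP hQ hd hor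
  have h3 : s(x, y) ∈ P.edges ∨ s(x, y) ∈ Q.edges := by
    rcases hE _ hxy with h | h | h
    · exact absurd h h1
    · exact absurd h h2
    · exact h
  rcases hdir x y h3 with ⟨k1, k2, k3⟩ | ⟨k1, k2, k3⟩
  · left
    have := free_of_val hab hM k2 k3
    rwa [k1] at this
  · right
    have := free_of_val hab hM k2 k3
    rwa [k1] at this

end Pool.Agent.H99.SG
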