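import Pool.Agent.H99.SG.Chain
import Pool.Agent.H99.SG.Dir

/-!
# Chains of separations of the whole graph
-/

set_option autoImplicit false

namespace Pool.Agent.H99.SG

open SimpleGraph Pool.Agent.Results.MP_790549_co.CommonNegativeCircles

variable {V : Type} {G : SimpleGraph V}

theorem Cut.mono {H : SimpleGraph V} {e f : Sym2 V} {p : Set V × Set V} (hp : Cut G e f p)
    (hle : H ≤ G) : Cut H e f p :=
  ⟨hp.1, hp.2.1, hp.2.2.1, fun x y h => hp.2.2.2 x y (hle h)⟩

theorem Cut2.mono {H : SimpleGraph V} {e f : Sym2 V} {p : Set V × Set V} (hp : Cut2 G e f p)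
    (hle : H ≤ G) : Cut2 H e f p := ⟨hp.1.mono hle, hp.2⟩

/-- a step of a chain of separations of `G`; the circles of `H` in between are positive -/
def Step2 (G H : SimpleGraph V) (σ : Sym2 V → ZMod 2) (e f : Sym2 V) (p q : Set V × Set V) :
    Prop :=
  Cut2 G e f p ∧ Cut2 G e f q ∧ p.1 ⊆ q.1 ∧ q.2 ⊆ p.2 ∧ BalSeg H σ p q

theorem chain_of_cert2 [Finite V] (σ : Sym2 V → ZMod 2) {H : SimpleGraph V} (hle : H ≤ G)
    {a b c d : V} (hab : a ≠ b)
    {M : Equiv.Perm V} (hM : Val H a b c d M)
    (hdir : ∀ x y, H.Adj x y → s(x, y) ≠ s(a, b) → s(x, y) ≠ s(c, d) →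
      Free H s(a, b) s(c, d) x y ∨ Free H s(a, b) s(c, d) y x)
    (hin : ∀ v, Free G s(a, b) s(c, d) v v → Free H s(a, b) s(c, d) v v)
    {π ρ : V → ZMod 2} (hc : Cert H σ s(a, b) s(c, d) π ρ) (n : ℕ) :
    ∀ p q : Set V × Set V, (q.1 \ p.1).ncard + (p.2 \ q.2).ncard ≤ n →
      Cut2 G s(a, b) s(c, d) p → Cut2 G s(a, b) s(c, d) q → p.1 ⊆ q.1 → q.2 ⊆ p.2 →
      Relation.ReflTransGen (Step2 G H σ s(a, b) s(c, d)) p q := by
  induction n with
  | zero =>
    intro p q hn hp hq h1 h2
    have e1 : (q.1 \ p.1).ncard = 0 := by omega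
    have e2 : (p.2 \ q.2).ncard = 0 := by omega
    rw [Set.ncard_eq_zero (Set.toFinite _), Set.sdiff_eq_empty] at e1 e2
    have : p = q := Prod.ext (h1.antisymm e1) (e2.antisymm h2)
    rw [this]
  | succ n ih =>
    intro p q hn hp hq h1 h2
    by_cases hex : ∃ r : Set V × Set V, Cut2 G s(a, b) s(c, d) r ∧ p.1 ⊆ r.1 ∧ r.2 ⊆ p.2 ∧
        r.1 ⊆ q.1 ∧ q.2 ⊆ r.2 ∧ r ≠ p ∧ r ≠ q
    · obtain ⟨r, hr, r1, r2, r3, r4, r5, r6⟩ := hex
      have lt1 : (r.1 \ p.1).ncard + (p.2 \ r.2).ncard ≤ n := by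
        have f1 : (r.1 \ p.1).ncard ≤ (q.1 \ p.1).ncard :=
          Set.ncard_le_ncard (Set.sdiff_subset_sdiff_left r3) (Set.toFinite _)
        have f2 : (p.2 \ r.2).ncard ≤ (p.2 \ q.2).ncard :=
          Set.ncard_le_ncard (Set.sdiff_subset_sdiff_right r4) (Set.toFinite _)
        by_contra hcon
        have g1 : (r.1 \ p.1).ncard = (q.1 \ p.1).ncard := by omega
        have g2 : (p.2 \ r.2).ncard = (p.2 \ q.2).ncard := by omega
        have k1 := Set.eq_of_subset_of_ncard_le (Set.sdiff_subset_sdiff_left r3) g1.ge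
          (Set.toFinite _)
        have k2 := Set.eq_of_subset_of_ncard_le (Set.sdiff_subset_sdiff_right r4) g2.ge
          (Set.toFinite _)
        apply r6
        apply Prod.ext
        · apply r3.antisymm
          intro v hv
          by_cases hvp : v ∈ p.1
          · exact r1 hvp
          · have : v ∈ r.1 \ p.1 := by rw [k1]; exact ⟨hv, hvp⟩
            exact this.1
        · apply Set.Subset.antisymm _ r4
          intro v hv
          by_contra hvq
          have : v ∈ p.2 \ r.2 := by rw [k2]; exact ⟨r2 hv, hvq⟩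
          exact this.2 hv
      have lt2 : (q.1 \ r.1).ncard + (r.2 \ q.2).ncard ≤ n := by
        have f1 : (q.1 \ r.1).ncard ≤ (q.1 \ p.1).ncard :=
          Set.ncard_le_ncard (Set.sdiff_subset_sdiff_right r1) (Set.toFinite _)
        have f2 : (r.2 \ q.2).ncard ≤ (p.2 \ q.2).ncard :=
          Set.ncard_le_ncard (Set.sdiff_subset_sdiff_left r2) (Set.toFinite _)
        by_contra hcon
        have g1 : (q.1 \ r.1).ncard = (q.1 \ p.1).ncard := by omega
        have g2 : (r.2 \ q.2).ncard = (p.2 \ q.2).ncard := by omega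
        have k1 := Set.eq_of_subset_of_ncard_le (Set.sdiff_subset_sdiff_right r1) g1.ge
          (Set.toFinite _)
        have k2 := Set.eq_of_subset_of_ncard_le (Set.sdiff_subset_sdiff_left r2) g2.ge
          (Set.toFinite _)
        apply r5
        apply Prod.ext
        · apply Set.Subset.antisymm _ r1
          intro v hv
          by_contra hvp
          have : v ∈ q.1 \ r.1 := by rw [k1]; exact ⟨r3 hv, hvp⟩
          exact this.2 hv
        · apply r2.antisymm
          intro v hv
          by_cases hvq : v ∈ q.2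
          · exact r4 hvq
          · have : v ∈ r.2 \ q.2 := by rw [k2]; exact ⟨hv, hvq⟩
            exact this.1
      exact (ih p r lt1 hp hr r1 r2).trans (ih r q lt2 hr hq r3 r4)
    · push Not at hex
      -- inner vertices are free
      have inner : ∀ v, v ∈ q.1 → v ∈ p.2 → v ∉ p.1 → v ∉ q.2 →
          Free G s(a, b) s(c, d) v v := by
        intro v hvq hvp hvp' hvq' X Y hXY hv
        have hr0 : Cut G s(a, b) s(c, d) (X, Y) := ⟨hXY.1, hXY.2.2.1, hXY.2.2.2.1, hXY.2.2.2.2⟩
        have hr0c : (X ∩ Y).ncard ≤ 2 := hXY.2.1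
        have hj := hr0.sup hp.1
        have hm := hr0.inf hp.1
        have hjc : ((X ∪ p.1) ∩ (Y ∩ p.2)).ncard ≤ 2 := by
          have e1 := submod (X, Y) p
          have e2 := min_order hab hM (hm.mono hle)
          have e3 := hp.2
          simp only at e1 e2 ⊢
          omega
        have hj2 := hj.inf hq.1
        have hj3 := hj.sup hq.1
        have hrc : (((X ∪ p.1) ∩ q.1) ∩ ((Y ∩ p.2) ∪ q.2)).ncard ≤ 2 := by
          have e1 := submod (X ∪ p.1, Y ∩ p.2) q
          have e2 := min_order hab hM (hj3.mono hle)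
          have e3 := hq.2
          simp only at e1 e2 hjc ⊢
          omega
        have hr : Cut2 G s(a, b) s(c, d) ((X ∪ p.1) ∩ q.1, (Y ∩ p.2) ∪ q.2) := ⟨hj2, hrc⟩
        have hv1 : v ∈ (X ∪ p.1) ∩ q.1 := ⟨Or.inl hv.2, hvq⟩
        have hv2 : v ∈ (Y ∩ p.2) ∪ q.2 := Or.inl ⟨hv.1, hvp⟩
        have := hex _ hr (fun t ht => ⟨Or.inr ht, h1 ht⟩)
          (by
            rintro t (ht | ht)
            · exact ht.2
            · exact h2 ht) (fun t ht => ht.2) (fun t ht => Or.inr ht)
          (by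
            intro h
            apply hvp'
            rw [← h]
            exact hv1)
        apply hvq'
        rw [← this]
        exact hv2
      refine Relation.ReflTransGen.single ⟨hp, hq, h1, h2, ?_⟩
      classical
      rw [balSeg_iff]
      refine ⟨fun v => if v ∈ p.1 then π v else ρ v, ?_⟩
      have dircase : ∀ x y, H.Adj x y → Between p q x y → Free H s(a, b) s(c, d) x y →
          σ s(x, y) = (if x ∈ p.1 then π x else ρ x) + (if y ∈ p.1 then π y else ρ y) := by
        intro x y hxy hb hF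
        obtain ⟨b1, b2, b3, b4, b5, b6⟩ := hb
        have hFp := hF _ _ (hp.mono hle).sep
        have hFq := hF _ _ (hq.mono hle).sep
        have hy1 : y ∉ p.1 := fun h => hFp ⟨b1.2, h⟩
        have hx2 : x ∉ q.2 := fun h => hFq ⟨h, b2.1⟩
        rw [hc.2 x y hxy hF, if_neg hy1]
        by_cases hx1 : x ∈ p.1
        · rw [if_pos hx1]
        · rw [if_neg hx1, hc.1 x (hin x (inner x b1.1 b1.2 hx1 hx2))]
      intro x y hxy hb
      have hne : s(x, y) ≠ s(a, b) := by
        intro h
        have hx : x ∈ s(a, b) := by rw [← h]; simp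
        have hy : y ∈ s(a, b) := by rw [← h]; simp
        exact hb.2.2.1 ⟨hp.1.2.1 x hx, hp.1.2.1 y hy⟩
      have hne' : s(x, y) ≠ s(c, d) := by
        intro h
        have hx : x ∈ s(c, d) := by rw [← h]; simp
        have hy : y ∈ s(c, d) := by rw [← h]; simp
        exact hb.2.2.2.1 ⟨hq.1.2.2.1 x hx, hq.1.2.2.1 y hy⟩
      rcases hdir x y hxy hne hne' with h | h
      · exact dircase x y hxy hb h
      · have := dircase y x hxy.symm hb.symm h
        rw [Sym2.eq_swap, this, add_comm]

/-! ### Missed vertices are free -/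

theorem arcs4 {z : V} (D : G.Walk z z) (hD : D.IsCycle) {x1 x2 : V}
    (h1 : x1 ∈ D.support) (h2 : x2 ∈ D.support) (h12 : x1 ≠ x2) :
    ∃ A1 A2 : G.Walk x1 x2, A1.IsPath ∧ A2.IsPath ∧
      (∀ g, g ∈ D.edges → g ∈ A1.edges ∨ g ∈ A2.edges) ∧
      (∀ x, x ∈ A1.support ∨ x ∈ A2.support → x ∈ D.support) := by
  classical
  have hD' := hD.rotate h1
  have h2' : x2 ∈ (D.rotate x1 h1).support := by rwa [Walk.mem_support_rotate_iff]
  obtain ⟨q, r, hqr⟩ := Walk.mem_support_iff_exists_append.1 h2'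
  have hc : (q.append r).IsCycle := hqr ▸ hD'
  have hq : ¬ q.Nil := Walk.not_nil_of_ne h12
  have hr : ¬ r.Nil := Walk.not_nil_of_ne h12.symm
  refine ⟨q, r.reverse, hc.isPath_of_append_left hr, (hc.isPath_of_append_right hq).reverse,
    ?_, ?_⟩
  · intro g hg
    have : g ∈ (D.rotate x1 h1).edges := (D.rotate_edges x1 h1).perm.mem_iff.2 hg
    rw [hqr, Walk.edges_append, List.mem_append] at this
    rw [Walk.edges_reverse, List.mem_reverse]
    exact this
  · intro x hx
    rw [Walk.support_reverse, List.mem_reverse, ← Walk.mem_support_append_iff, ← hqr,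
      Walk.mem_support_rotate_iff] at hx
    exact hx

theorem cycle_split3 {a b c d : V} (hab : a ≠ b) (hef : s(a, b) ≠ s(c, d))
    {u : V} (w : G.Walk u u) (hw : w.IsCycle) (he : s(a, b) ∈ w.edges) (hf : s(c, d) ∈ w.edges) :
    ∃ (c' d' : V) (P : G.Walk a c') (Q : G.Walk b d'), P.IsPath ∧ Q.IsPath ∧
      List.Disjoint P.support Q.support ∧ ((c' = c ∧ d' = d) ∨ (c' = d ∧ d' = c)) ∧
      ∀ x, x ∈ P.support ∨ x ∈ Q.support → x ∈ w.support := by
  obtain ⟨A1, A2, hA1, hA2, hed, hsg⟩ := arcs4 w hw (w.fst_mem_support_of_mem_edges he)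
    (w.snd_mem_support_of_mem_edges he) hab
  have key : ∀ A B : G.Walk a b, A.IsPath → B.IsPath → s(a, b) ∈ B.edges →
      s(c, d) ∈ A.edges ∨ s(c, d) ∈ B.edges → (∀ x, x ∈ A.support → x ∈ w.support) →
      ∃ (c' d' : V) (P : G.Walk a c') (Q : G.Walk b d'), P.IsPath ∧ Q.IsPath ∧
      List.Disjoint P.support Q.support ∧ ((c' = c ∧ d' = d) ∨ (c' = d ∧ d' = c)) ∧
      ∀ x, x ∈ P.support ∨ x ∈ Q.support → x ∈ w.support := by
    intro A B hA hB hBe hAB hs
    have hB1 := hB.eq_adj_toWalk_of_mem_edges hBe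
    have hAf : s(c, d) ∈ A.edges := by
      rcases hAB with h | h
      · exact h
      · exfalso
        rw [hB1] at h
        simp only [Adj.toWalk, Walk.edges_cons, Walk.edges_nil, List.mem_singleton] at h
        exact hef h.symm
    obtain ⟨x, y, h, p1, p2, h1, h2⟩ := edge_split A hAf
    rw [h2] at hA
    have hc2 := hA.of_append_right
    rw [Walk.cons_isPath_iff] at hc2
    refine ⟨x, y, p1, p2.reverse, hA.of_append_left, hc2.1.reverse, ?_, ?_, ?_⟩
    · intro t ht ht'
      rw [Walk.support_reverse, List.mem_reverse] at ht'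
      have := append_inter hA ht (by
        rw [Walk.support_cons]; exact List.mem_cons_of_mem _ ht')
      rw [this] at ht'
      exact hc2.2 ht'
    · rw [Sym2.eq_iff] at h1
      exact h1
    · intro t ht
      apply hs
      rw [h2, Walk.mem_support_append_iff, Walk.support_cons]
      rw [Walk.support_reverse, List.mem_reverse] at ht
      rcases ht with ht | ht
      · exact Or.inl ht
      · exact Or.inr (List.mem_cons_of_mem _ ht)
  rcases hed _ he with h | h
  · exact key A2 A1 hA2 hA1 h (hed _ hf).symm (fun x hx => hsg x (Or.inr hx))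
  · exact key A1 A2 hA1 hA2 h (hed _ hf) (fun x hx => hsg x (Or.inl hx))

theorem linkage_fix [Finite V] {a b c d c' d' : V}
    (P : G.Walk a c') (Q : G.Walk b d') (hP : P.IsPath) (hQ : Q.IsPath)
    (hd : List.Disjoint P.support Q.support) (hcd : (c' = c ∧ d' = d) ∨ (c' = d ∧ d' = c)) :
    ∃ M : Equiv.Perm V, Val G a b c d M ∧ ∀ x, x ∉ P.support → x ∉ Q.support → M x = x := by
  classical
  obtain ⟨τ, p1, p2, p3, p4⟩ := path_perm2 P hP
  obtain ⟨τ', q1, q2, q3, q4⟩ := path_perm2 Q hQ
  have hor : ∀ x, (x = c ∨ x = d) ↔ (x = c' ∨ x = d') := by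
    intro x
    rcases hcd with ⟨rfl, rfl⟩ | ⟨rfl, rfl⟩
    · exact Iff.rfl
    · exact or_comm
  have hMP : ∀ x, x ∈ P.support → (τ * τ') x = τ x := by
    intro x hx
    rw [Equiv.Perm.mul_apply, q1 x (fun h => hd hx h)]
  have hMn : ∀ x, x ∉ P.support → x ∉ Q.support → (τ * τ') x = x := by
    intro x hx hx'
    rw [Equiv.Perm.mul_apply, q1 x hx', p1 x hx]
  have hMQ : ∀ x, x ∈ Q.support → (τ * τ') x = τ' x := by
    intro x hx
    rw [Equiv.Perm.mul_apply]
    apply p1
    intro h
    by_cases hxd : x = d'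
    · rw [hxd, q2] at h
      exact hd h Q.start_mem_support
    · exact hd h (q3 x hx hxd).2.1
  have haQ : a ∉ Q.support := fun h => hd P.start_mem_support h
  have hbP : b ∉ P.support := fun h => hd h Q.start_mem_support
  refine ⟨τ * τ', ⟨?_, ?_⟩, ?_⟩
  · intro x hx
    rw [hor] at hx
    rcases hx with rfl | rfl
    · left; rw [hMP _ P.end_mem_support, p2]
    · right; rw [hMQ _ Q.end_mem_support, q2]
  · intro x hc hdd
    have hx : x ≠ c' ∧ x ≠ d' := by
      have := (hor x).not.1 (by rw [not_or]; exact ⟨hc, hdd⟩)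
      rwa [not_or] at this
    by_cases hxP : x ∈ P.support
    · obtain ⟨k1, k2, k3⟩ := p3 x hxP hx.1
      rw [hMP x hxP]
      exact ⟨k3, fun h => hbP (h ▸ k2), Or.inr k1⟩
    · by_cases hxQ : x ∈ Q.support
      · obtain ⟨k1, k2, k3⟩ := q3 x hxQ hx.2
        rw [hMQ x hxQ]
        exact ⟨fun h => haQ (h ▸ k2), k3, Or.inr k1⟩
      · rw [hMn x hxP hxQ]
        exact ⟨fun h => hxP (h ▸ P.start_mem_support), fun h => hxQ (h ▸ Q.start_mem_support),
          Or.inl rfl⟩
  · exact hMn

theorem rel_le (e f : Sym2 V) : Rel G e f ≤ G := by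
  intro x y h
  have : s(x, y) ∈ (Rel G e f).edgeSet := h
  rw [mem_rel] at this
  obtain ⟨_, w, _, _, _, hg⟩ := this
  exact w.edges_subset_edgeSet hg

theorem ends_le (f : Sym2 V) : {v | v ∈ f}.ncard ≤ 2 := by
  induction f using Sym2.ind with
  | _ c d =>
    have : {v | v ∈ s(c, d)} = {c, d} := by
      ext v
      simp
    rw [this]
    exact pair_le c d

/-- a vertex missed by a circle through `e` and `f` is free -/
theorem free_of_missed [Finite V] {e f : Sym2 V} (hef : e ≠ f) {u : V} (w : G.Walk u u)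
    (hw : w.IsCycle) (he : e ∈ w.edges) (hf : f ∈ w.edges) {v : V} (hv : v ∉ w.support) :
    Free (Rel G e f) e f v v := by
  obtain ⟨w', hw', hE⟩ := to_rel w hw he hf
  have hv' : ∀ x, s(v, x) ∉ w'.edges := by
    intro x h
    rw [hE] at h
    exact hv (w.fst_mem_support_of_mem_edges h)
  have he' : e ∈ w'.edges := by rw [hE]; exact he
  have hf' : f ∈ w'.edges := by rw [hE]; exact hf
  have hvs : v ∉ w'.support := by
    intro h
    obtain ⟨y, hy⟩ := cycle_edge w' hw' h
    exact hv' y hy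
  have heE := w'.edges_subset_edgeSet he'
  clear hE he hf hw hv hv' w
  induction e using Sym2.ind with
  | _ a b =>
    induction f using Sym2.ind with
    | _ c d =>
      have hab : a ≠ b := by
        rw [mem_edgeSet] at heE
        exact heE.ne
      obtain ⟨c', d', P, Q, hP, hQ, hd, hor, hsub⟩ := cycle_split3 hab hef w' hw' he' hf'
      have hvP : v ∉ P.support := fun h => hvs (hsub v (Or.inl h))
      have hvQ : v ∉ Q.support := fun h => hvs (hsub v (Or.inr h))
      obtain ⟨M, hM, hfix⟩ := linkage_fix P Q hP hQ hd hor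
      have hvc : v ≠ c := by
        rintro rfl
        exact hvs (w'.fst_mem_support_of_mem_edges hf')
      have hvd : v ≠ d := by
        rintro rfl
        exact hvs (w'.snd_mem_support_of_mem_edges hf')
      have := free_of_val hab hM hvc hvd
      rwa [hfix v hvP hvQ] at this

end Pool.Agent.H99.SG
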