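import Pool.Agent.H99.SG.Chain2

/-!
# The chain theorem
-/

set_option autoImplicit false

namespace Pool.Agent.H99.SG

open SimpleGraph Pool.Agent.Results.MP_790549_co.CommonNegativeCircles

variable {V : Type} {G : SimpleGraph V}

theorem circle_of_conn [Fintype V] [DecidableEq V] {a b c d : V} (he : G.Adj a b)
    (hf : G.Adj c d) (hef : s(a, b) ≠ s(c, d))
    (hconn : Pool.Agent.Helper944_HC.Conn G.Adj (Finset.univ : Finset V)
      {x | x = a ∨ x = b} {x | x = c ∨ x = d} 2) :
    ∃ (u : V) (w : G.Walk u u), w.IsCycle ∧ s(a, b) ∈ w.edges ∧ s(c, d) ∈ w.edges := by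
  obtain ⟨L, hL, hLd⟩ := Pool.Agent.Helper944_HC.menger hconn
  have hR : ∀ i, ∃ (x y : V) (r : G.Walk x y), r.IsPath ∧ x ∈ {x | x = a ∨ x = b} ∧
      y ∈ {x | x = c ∨ x = d} ∧ (∀ v ∈ r.support, v ∈ {v | v ∈ L i}) := by
    intro i
    obtain ⟨x, hx1, hx2⟩ := (hL i).head
    obtain ⟨y, hy1, hy2⟩ := (hL i).last
    obtain ⟨p, hp⟩ := walk_of_list (L i) (hL i).chain x y hx1 hy1
    refine ⟨x, y, p, ?_, hx2, hy2, ?_⟩
    · rw [Walk.isPath_def, hp]; exact (hL i).nodup
    · intro v hv
      rw [hp] at hv
      exact hv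
  obtain ⟨x0, y0, R0, hR0, hx0, hy0, hs0⟩ := hR 0
  obtain ⟨x1, y1, R1, hR1, hx1, hy1, hs1⟩ := hR 1
  have hdis : List.Disjoint R0.support R1.support := by
    intro v hv hv'
    exact hLd 0 1 (by decide) v (hs0 v hv) (hs1 v hv')
  have hxn : x1 ≠ x0 := by
    rintro rfl
    exact hdis R0.start_mem_support R1.start_mem_support
  have hyn : y0 ≠ y1 := by
    rintro rfl
    exact hdis R0.end_mem_support R1.end_mem_support
  have e1 : s(x1, x0) = s(a, b) := by
    rw [Sym2.eq_iff]
    rcases hx0 with rfl | rfl <;> rcases hx1 with rfl | rfl <;> simp_all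
  have e2 : s(y0, y1) = s(c, d) := by
    rw [Sym2.eq_iff]
    rcases hy0 with rfl | rfl <;> rcases hy1 with rfl | rfl <;> simp_all
  have a1 : G.Adj x1 x0 := by
    rw [← mem_edgeSet, e1]; exact he
  have a2 : G.Adj y0 y1 := by
    rw [← mem_edgeSet, e2]; exact hf
  obtain ⟨w, hw, hew, hfw, _⟩ := circ (fun _ => (0 : ZMod 2)) a1 a2 (by rw [e1, e2]; exact hef)
    R0 R1.reverse hR0 hR1.reverse (by
      intro v hv hv'
      rw [Walk.support_reverse, List.mem_reverse] at hv'
      exact hdis hv hv')
  rw [e1] at hew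
  rw [e2] at hfw
  exact ⟨_, w, hw, hew, hfw⟩

/-- a free vertex is missed by a circle through `e` and `f` -/
theorem missed_of_free [Finite V] {e f : Sym2 V} (he : e ∈ G.edgeSet) (hf : f ∈ G.edgeSet)
    (hef : e ≠ f) {v : V} (hv : Free G e f v v) :
    ∃ (u : V) (w : G.Walk u u), w.IsCycle ∧ e ∈ w.edges ∧ f ∈ w.edges ∧ v ∉ w.support := by
  classical
  have := Fintype.ofFinite V
  induction e using Sym2.ind with
  | _ a b =>
    induction f using Sym2.ind with
    | _ c d =>
      rw [mem_edgeSet] at he hf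
      have hva : v ≠ a ∧ v ≠ b := by
        have := hv _ _ (sep_left G a b s(c, d))
        constructor
        · rintro rfl
          exact this ⟨trivial, by simp⟩
        · rintro rfl
          exact this ⟨trivial, by simp⟩
      have hvc : v ≠ c ∧ v ≠ d := by
        have := hv _ _ (sep_right G c d s(a, b))
        constructor
        · rintro rfl
          exact this ⟨by simp, trivial⟩
        · rintro rfl
          exact this ⟨by simp, trivial⟩
      let G' : SimpleGraph V :=
        { Adj := fun x y => G.Adj x y ∧ x ≠ v ∧ y ≠ v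
          symm := ⟨fun x y h => ⟨h.1.symm, h.2.2, h.2.1⟩⟩
          loopless := ⟨fun x h => h.1.ne rfl⟩ }
      have hG' : ∀ x y, G'.Adj x y ↔ G.Adj x y ∧ x ≠ v ∧ y ≠ v := fun x y => Iff.rfl
      have hab' : G'.Adj a b := (hG' a b).2 ⟨he, hva.1.symm, hva.2.symm⟩
      have hcd' : G'.Adj c d := (hG' c d).2 ⟨hf, hvc.1.symm, hvc.2.symm⟩
      have hconn : Pool.Agent.Helper944_HC.Conn G'.Adj (Finset.univ : Finset V)
          {x | x = a ∨ x = b} {x | x = c ∨ x = d} 2 := by
        intro S _ hS U hU hXU hCl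
        by_contra hno
        push Not at hno
        have hcl : ∀ x ∈ U, ∀ y, G'.Adj x y → y ∈ U ∨ y ∈ S := by
          intro x hx y hxy
          by_cases hy : y ∈ S
          · exact Or.inr hy
          · exact Or.inl (hCl x hx y (by simp [hy]) hxy)
        have hXU' : ∀ x, (x = a ∨ x = b) → x ∈ U ∨ x ∈ S := by
          intro x hx
          by_cases hxS : x ∈ S
          · exact Or.inr hxS
          · exact Or.inl (hXU x (by simp [hxS]) hx)
        refine hv {x | (x ∈ U ∨ x ∈ S) ∨ x = v} {x | x ∉ U ∨ x = v} ⟨?_, ?_, ?_, ?_, ?_⟩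
          ⟨Or.inr rfl, Or.inr rfl⟩
        · intro x
          by_cases hx : x ∈ U
          · exact Or.inl (Or.inl (Or.inl hx))
          · exact Or.inr (Or.inl hx)
        · have hsub : ({x | (x ∈ U ∨ x ∈ S) ∨ x = v} ∩ {x | x ∉ U ∨ x = v} : Set V) ⊆
              ((insert v S : Finset V) : Set V) := by
            rintro x ⟨hx1, hx2⟩
            rw [Finset.mem_coe, Finset.mem_insert]
            rcases hx1 with (h1 | h1) | h1
            · rcases hx2 with h2 | h2
              · exact absurd h1 h2
              · exact Or.inl h2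
            · exact Or.inr h1
            · exact Or.inl h1
          have e1 := Set.ncard_le_ncard hsub (Set.toFinite _)
          rw [Set.ncard_coe_finset] at e1
          have e2 := Finset.card_insert_le v S
          omega
        · intro x hx
          rw [Sym2.mem_iff] at hx
          exact Or.inl (hXU' x hx)
        · intro x hx
          rw [Sym2.mem_iff] at hx
          exact Or.inl (fun h => hno x h hx)
        · intro x y hxy
          by_cases hxv : x = v
          · by_cases hy : y ∈ U
            · exact Or.inl ⟨Or.inr hxv, Or.inl (Or.inl hy)⟩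
            · exact Or.inr ⟨Or.inr hxv, Or.inl hy⟩
          · by_cases hyv : y = v
            · by_cases hx : x ∈ U
              · exact Or.inl ⟨Or.inl (Or.inl hx), Or.inr hyv⟩
              · exact Or.inr ⟨Or.inl hx, Or.inr hyv⟩
            · have h' : G'.Adj x y := (hG' x y).2 ⟨hxy, hxv, hyv⟩
              by_cases hx : x ∈ U
              · exact Or.inl ⟨Or.inl (Or.inl hx), Or.inl (hcl x hx y h')⟩
              · by_cases hy : y ∈ U
                · exact Or.inl ⟨Or.inl (hcl y hy x h'.symm), Or.inl (Or.inl hy)⟩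
                · exact Or.inr ⟨Or.inl hx, Or.inl hy⟩
      obtain ⟨u, w, hw, hew, hfw⟩ := circle_of_conn hab' hcd' hef hconn
      have hle : ∀ g ∈ w.edges, g ∈ G.edgeSet := by
        intro g hg
        have := w.edges_subset_edgeSet hg
        induction g using Sym2.ind with
        | _ x y => exact ((hG' x y).1 this).1
      refine ⟨u, w.transfer G hle, hw.transfer hle, ?_, ?_, ?_⟩
      · rw [Walk.edges_transfer]; exact hew
      · rw [Walk.edges_transfer]; exact hfw
      · rw [Walk.support_transfer]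
        intro h
        obtain ⟨y, hy⟩ := cycle_edge w hw h
        exact ((hG' v y).1 (w.edges_subset_edgeSet hy)).2.1 rfl

/-- **The chain theorem.** -/
theorem chain_iff [Finite V] (σ : Sym2 V → ZMod 2) {e f : Sym2 V} (he : e ∈ G.edgeSet)
    (hf : f ∈ G.edgeSet) (hef : e ≠ f) :
    (∃ ε, Mono' G σ e f ε) ↔ Relation.ReflTransGen (Step2 G (Rel G e f) σ e f)
      ({v | v ∈ e}, Set.univ) (Set.univ, {v | v ∈ f}) := by
  classical
  have := Fintype.ofFinite V
  have hp : Cut2 G e f ({v | v ∈ e}, Set.univ) := by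
    refine ⟨⟨fun v => Or.inr trivial, fun v hv => hv, fun v _ => trivial,
      fun x y _ => Or.inr ⟨trivial, trivial⟩⟩, ?_⟩
    show ({v | v ∈ e} ∩ Set.univ).ncard ≤ 2
    rw [Set.inter_univ]; exact ends_le e
  have hq : Cut2 G e f (Set.univ, {v | v ∈ f}) := by
    refine ⟨⟨fun v => Or.inl trivial, fun v _ => trivial, fun v hv => hv,
      fun x y _ => Or.inl ⟨trivial, trivial⟩⟩, ?_⟩
    show (Set.univ ∩ {v | v ∈ f}).ncard ≤ 2
    rw [Set.univ_inter]; exact ends_le f
  constructor
  · intro h
    by_cases hex : ∃ (u : V) (w : G.Walk u u), w.IsCycle ∧ e ∈ w.edges ∧ f ∈ w.edges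
    · obtain ⟨π, ρ, hc⟩ := (cert_iff σ hef).1 h
      obtain ⟨u, w, hw, hew, hfw⟩ := hex
      have hin : ∀ v, Free G e f v v → Free (Rel G e f) e f v v := by
        intro v hv
        obtain ⟨u, w, hw, hew, hfw, hvw⟩ := missed_of_free he hf hef hv
        exact free_of_missed hef w hw hew hfw hvw
      obtain ⟨w', hw', hE⟩ := to_rel w hw hew hfw
      have he' : e ∈ w'.edges := by rw [hE]; exact hew
      have hf' : f ∈ w'.edges := by rw [hE]; exact hfw
      clear hE hew hfw hw w
      induction e using Sym2.ind with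
      | _ a b =>
        induction f using Sym2.ind with
        | _ c d =>
          have hab : a ≠ b := by
            rw [mem_edgeSet] at he
            exact he.ne
          obtain ⟨c', d', P, Q, hP, hQ, hd, hor, _⟩ := cycle_split σ hab hef w' hw' he' hf'
          obtain ⟨M, hM, _⟩ := linkage_perm σ P Q hP hQ hd hor
          refine chain_of_cert2 σ (rel_le _ _) hab hM ?_ hin hc _ _ _ le_rfl hp hq
            (Set.subset_univ _) (Set.subset_univ _)
          intro x y hxy h1 h2
          obtain ⟨u'', w'', hw'', he'', hf'', hg''⟩ := rel_rel _ _ s(x, y)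
            ((mem_edgeSet (Rel G s(a, b) s(c, d))).2 hxy)
          exact free_dir hab hef w'' hw'' he'' hf'' hg'' h1 h2
    · refine Relation.ReflTransGen.single ⟨hp, hq, Set.subset_univ _, Set.subset_univ _, ?_⟩
      rw [balSeg_iff]
      refine ⟨fun _ => 0, ?_⟩
      intro x y hxy _
      exfalso
      apply hex
      have : s(x, y) ∈ (Rel G e f).edgeSet := hxy
      rw [mem_rel] at this
      obtain ⟨u, w, hw, he, hf, _⟩ := this
      exact ⟨u, w, hw, he, hf⟩
  · intro h
    rw [cert_iff σ hef]
    refine cert_of_chain σ ?_ (ends_le f)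
    refine Relation.ReflTransGen.mono ?_ _ _ h
    rintro p q ⟨h1, h2, h3, h4, h5⟩
    exact ⟨h1.mono (rel_le _ _), h2.mono (rel_le _ _), h3, h4, h5⟩

end Pool.Agent.H99.SG
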