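import Mathlib

/-!
# Potentials for arc weights whose sum over every permutation vanishes
-/

set_option autoImplicit false

namespace Pool.Agent.H99.SG

open Finset

section

variable {α : Type} (E : α → α → Prop) (D : α → α → ZMod 2)

/-- there is a walk from `x` to `y` with `n` arcs and weight `s` -/
def Wk (n : ℕ) (x y : α) (s : ZMod 2) : Prop :=
  ∃ f : ℕ → α, f 0 = x ∧ f n = y ∧ (∀ i < n, E (f i) (f (i + 1))) ∧
    ∑ i ∈ range n, D (f i) (f (i + 1)) = s

variable {E D}

theorem Wk.refl (x : α) : Wk E D 0 x x 0 := ⟨fun _ => x, rfl, rfl, by simp, by simp⟩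

theorem Wk.single {x y : α} (h : E x y) : Wk E D 1 x y (D x y) :=
  ⟨fun i => if i = 0 then x else y, by simp, by simp, by simpa using h, by simp⟩

theorem Wk.append {n m : ℕ} {x y z : α} {s t : ZMod 2} (h1 : Wk E D n x y s)
    (h2 : Wk E D m y z t) : Wk E D (n + m) x z (s + t) := by
  obtain ⟨f, f0, fn, fE, fs⟩ := h1
  obtain ⟨g, g0, gm, gE, gs⟩ := h2
  have hk1 : ∀ i ≤ n, (fun i => if i ≤ n then f i else g (i - n)) i = f i := by
    intro i hi; simp [hi]
  have hk2 : ∀ i, (fun i => if i ≤ n then f i else g (i - n)) (n + i) = g i := by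
    intro i
    by_cases h : i = 0
    · subst h; simp [fn, g0]
    · have : ¬ n + i ≤ n := by omega
      simp [this]
  generalize hk : (fun i => if i ≤ n then f i else g (i - n)) = k at hk1 hk2
  refine ⟨k, (hk1 0 (Nat.zero_le _)).trans f0, (hk2 m).trans gm, ?_, ?_⟩
  · intro i hi
    rcases Nat.lt_or_ge i n with h | h
    · rw [hk1 i h.le, hk1 (i + 1) h]; exact fE i h
    · obtain ⟨j, rfl⟩ := Nat.exists_eq_add_of_le h
      rw [add_assoc, hk2, hk2]
      exact gE j (by omega)
  · rw [Finset.sum_range_add]
    congr 1
    · rw [← fs]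
      apply Finset.sum_congr rfl
      intro i hi
      rw [Finset.mem_range] at hi
      rw [hk1 i hi.le, hk1 (i + 1) hi]
    · rw [← gs]
      apply Finset.sum_congr rfl
      intro i _
      rw [add_assoc, hk2, hk2]

/-- a closed walk whose vertices are distinct has weight zero -/
theorem closed_inj [Fintype α] [DecidableEq α] (hE : ∀ x, E x x) (hD : ∀ x, D x x = 0)
    (H : ∀ τ : Equiv.Perm α, (∀ x, E x (τ x)) → ∑ x, D x (τ x) = 0) (n : ℕ) (f : ℕ → α)
    (hf : ∀ i < n, E (f i) (f (i + 1))) (hc : f n = f 0)
    (hinj : ∀ i < n, ∀ j < n, f i = f j → i = j) :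
    ∑ i ∈ range n, D (f i) (f (i + 1)) = 0 := by
  set l : List α := (List.range n).map f with hl
  have hlen : l.length = n := by simp [hl]
  have hnd : l.Nodup := by
    apply List.Nodup.map_on _ List.nodup_range
    intro i hi j hj hij
    exact hinj i (List.mem_range.1 hi) j (List.mem_range.1 hj) hij
  have hmod : ∀ i < n, f ((i + 1) % n) = f (i + 1) := by
    intro i hi
    rcases Nat.lt_or_ge (i + 1) n with h | h
    · rw [Nat.mod_eq_of_lt h]
    · have : i + 1 = n := by omega
      rw [this, Nat.mod_self, hc]
  have hget : ∀ i (hi : i < n), l.formPerm (f i) = f (i + 1) := by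
    intro i hi
    have h1 := List.formPerm_apply_getElem l hnd i (by rw [hlen]; exact hi)
    simp only [hl, List.getElem_map, List.getElem_range, List.length_map, List.length_range] at h1
    rw [← hl] at h1
    rw [h1, hmod i hi]
  have hnot : ∀ x, x ∉ l → l.formPerm x = x := fun x hx => List.formPerm_apply_of_notMem hx
  have hmem : ∀ x, x ∈ l ↔ ∃ i < n, f i = x := by
    intro x; simp [hl]
  have h0 := H l.formPerm (by
    intro x
    by_cases hx : x ∈ l
    · obtain ⟨i, hi, rfl⟩ := (hmem x).1 hx
      rw [hget i hi]; exact hf i hi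
    · rw [hnot x hx]; exact hE x)
  have h1 : ∑ x, D x (l.formPerm x) = ∑ x ∈ l.toFinset, D x (l.formPerm x) := by
    symm
    apply Finset.sum_subset (Finset.subset_univ _)
    intro x _ hx
    rw [List.mem_toFinset] at hx
    rw [hnot x hx, hD]
  have h2 : l.toFinset = (range n).image f := by
    ext x; simp [hmem]
  rw [h1, h2, Finset.sum_image (by
    intro i hi j hj hij
    exact hinj i (by simpa using hi) j (by simpa using hj) hij)] at h0
  rw [← h0]
  apply Finset.sum_congr rfl
  intro i hi
  rw [hget i (Finset.mem_range.1 hi)]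

theorem closed [Fintype α] [DecidableEq α] (hE : ∀ x, E x x) (hD : ∀ x, D x x = 0)
    (H : ∀ τ : Equiv.Perm α, (∀ x, E x (τ x)) → ∑ x, D x (τ x) = 0) (n : ℕ) :
    ∀ f : ℕ → α, (∀ i < n, E (f i) (f (i + 1))) → f n = f 0 →
      ∑ i ∈ range n, D (f i) (f (i + 1)) = 0 := by
  induction n using Nat.strong_induction_on with
  | _ n ih =>
    intro f hf hc
    by_cases hinj : ∀ i < n, ∀ j < n, f i = f j → i = j
    · exact closed_inj hE hD H n f hf hc hinj
    · push Not at hinj
      obtain ⟨i, hi, j, hj, hij, hne⟩ := hinj
      -- wlog i < j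
      obtain ⟨i, j, hij', hj, hij⟩ : ∃ i j, i < j ∧ j < n ∧ f i = f j := by
        rcases Nat.lt_or_gt_of_ne hne with h | h
        · exact ⟨i, j, h, hj, hij⟩
        · exact ⟨j, i, h, hi, hij.symm⟩
      obtain ⟨d, rfl⟩ := Nat.exists_eq_add_of_lt hij'
      obtain ⟨m, rfl⟩ := Nat.exists_eq_add_of_le hj.le
      have hm : 0 < m := by omega
      have a1 := ih (d + 1) (by omega) (fun k => f (i + k))
        (fun k hk => by have := hf (i + k) (by omega); simpa [add_assoc] using this)
        (by simp only [add_zero]; rw [hij]; rfl)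
      have a2 := ih (i + m) (by omega) (fun k => if k ≤ i then f k else f (k + (d + 1)))
        (by
          intro k hk
          rcases Nat.lt_trichotomy k i with h | h | h
          · rw [if_pos h.le, if_pos (by omega)]; exact hf k (by omega)
          · subst h
            rw [if_pos le_rfl, if_neg (by omega), hij]
            have := hf (k + d + 1) (by omega)
            convert this using 2
            ring
          · rw [if_neg (by omega), if_neg (by omega)]
            have := hf (k + (d + 1)) (by omega)
            convert this using 2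
            ring)
        (by
          rw [if_neg (by omega), if_pos (Nat.zero_le _), ← hc]
          congr 1
          ring)
      have e1 : ∑ k ∈ range (i + m), D ((fun k => if k ≤ i then f k else f (k + (d + 1))) k)
          ((fun k => if k ≤ i then f k else f (k + (d + 1))) (k + 1)) =
          ∑ k ∈ range i, D (f k) (f (k + 1)) +
          ∑ k ∈ range m, D (f (i + d + 1 + k)) (f (i + d + 1 + k + 1)) := by
        rw [Finset.sum_range_add]
        congr 1
        · apply Finset.sum_congr rfl
          intro k hk
          rw [Finset.mem_range] at hk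
          simp only
          rw [if_pos hk.le, if_pos (by omega)]
        · apply Finset.sum_congr rfl
          intro k hk
          simp only
          by_cases h : k = 0
          · subst h
            rw [if_pos (by omega), if_neg (by omega)]
            have z1 : f (i + 0) = f (i + d + 1 + 0) := hij
            rw [z1, show i + 0 + 1 + (d + 1) = i + d + 1 + 0 + 1 by ring]
          · rw [if_neg (by omega), if_neg (by omega)]
            congr 1
            · congr 1; ring
            · congr 1; ring
      have e2 : ∑ k ∈ range (i + d + 1 + m), D (f k) (f (k + 1)) =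
          ∑ k ∈ range i, D (f k) (f (k + 1)) +
          ∑ k ∈ range (d + 1), D (f (i + k)) (f (i + (k + 1))) +
          ∑ k ∈ range m, D (f (i + d + 1 + k)) (f (i + d + 1 + k + 1)) := by
        rw [Finset.sum_range_add, add_assoc i d 1, Finset.sum_range_add]
        rfl
      rw [e2]
      rw [e1] at a2
      have a1' : ∑ k ∈ range (d + 1), D (f (i + k)) (f (i + (k + 1))) = 0 := a1
      rw [a1', add_zero]
      exact a2

/-- **Potentials.** -/
theorem potential [Fintype α] [DecidableEq α] (hE : ∀ x, E x x) (hD : ∀ x, D x x = 0)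
    (H : ∀ τ : Equiv.Perm α, (∀ x, E x (τ x)) → ∑ x, D x (τ x) = 0)
    (hs : ∀ x y, Relation.ReflTransGen E x y) :
    ∃ p : α → ZMod 2, ∀ x y, E x y → D x y = p x + p y := by
  have hw : ∀ x y, ∃ n s, Wk E D n x y s := by
    intro x y
    induction hs x y with
    | refl => exact ⟨0, 0, Wk.refl x⟩
    | tail _ h ih =>
      obtain ⟨n, s, h1⟩ := ih
      exact ⟨_, _, h1.append (Wk.single h)⟩
  have hcl : ∀ n x s, Wk E D n x x s → s = 0 := by
    rintro n x s ⟨f, f0, fn, fE, rfl⟩
    exact closed hE hD H n f fE (fn.trans f0.symm)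
  rcases isEmpty_or_nonempty α with he | ⟨⟨r⟩⟩
  · exact ⟨fun _ => 0, fun x => he.elim x⟩
  choose N S hN using hw
  refine ⟨fun x => S r x, fun x y hxy => ?_⟩
  have h1 := hcl _ _ _ (((hN r x).append (Wk.single hxy)).append (hN y r))
  have h2 := hcl _ _ _ ((hN r y).append (hN y r))
  have : ∀ a b c d : ZMod 2, a + b + c = 0 → d + c = 0 → b = a + d := by decide
  exact this _ _ _ _ h1 h2

end

end Pool.Agent.H99.SG
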