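import Pool.Agent.H99.SG.Orb
import Pool.Agent.H99.SG.Pot

/-!
# The potential of a 3-connected graph in which all linkages have the same weight
-/

set_option autoImplicit false

namespace Pool.Agent.H99.SG

open SimpleGraph Pool.Agent.Results.MP_790549_co.CommonNegativeCircles

variable {V : Type} {G : SimpleGraph V}

open Classical in
/-- neighbours -/
noncomputable def Nb [Fintype V] (G : SimpleGraph V) (a b : V) (X : Finset V) : Finset V :=
  Finset.univ.filter fun y => y ≠ a ∧ y ≠ b ∧ ∃ x ∈ X, y = x ∨ G.Adj x y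

theorem surplus [Fintype V] (h3 : ThreeConn G) (a b : V) {c d : V}
    (hcd : c ≠ d) (X : Finset V) (hX : ∀ x ∈ X, x ≠ c ∧ x ≠ d) (hne : X.Nonempty) :
    X.card + 1 ≤ (Nb G a b X).card ∨
      ((∀ x, x ≠ c → x ≠ d → x ∈ X) ∧ X.card ≤ (Nb G a b X).card) := by
  classical
  set B : Finset V := Finset.univ.filter (fun y => y ∉ X ∧ ∃ x ∈ X, G.Adj x y) with hB
  have hdis : Disjoint X B := by
    rw [Finset.disjoint_left]
    intro x hx hx'
    simp only [hB, Finset.mem_filter, Finset.mem_univ, true_and] at hx'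
    exact hx'.1 hx
  have hsub : (X ∪ B) \ {a, b} ⊆ Nb G a b X := by
    intro x hx
    simp only [hB, Finset.mem_sdiff, Finset.mem_union, Finset.mem_filter, Finset.mem_univ, true_and,
      Finset.mem_insert, Finset.mem_singleton, not_or] at hx
    simp only [Nb, Finset.mem_filter, Finset.mem_univ, true_and]
    refine ⟨hx.2.1, hx.2.2, ?_⟩
    rcases hx.1 with h | ⟨_, y, hy, hy'⟩
    · exact ⟨x, h, Or.inl rfl⟩
    · exact ⟨y, hy, Or.inr hy'⟩
  have hc1 := Finset.card_le_card hsub
  have hc2 : (X ∪ B).card = X.card + B.card := Finset.card_union_of_disjoint hdis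
  have hc3 : (X ∪ B).card - 2 ≤ ((X ∪ B) \ {a, b}).card := by
    have := Finset.le_card_sdiff ({a, b} : Finset V) (X ∪ B)
    have h2 : ({a, b} : Finset V).card ≤ 2 := Finset.card_le_two
    omega
  by_cases hB3 : 3 ≤ B.card
  · left; omega
  · -- everything is in X ∪ B
    obtain ⟨x0, hx0⟩ := hne
    have hconn := h3.2 (B : Set V) (by rw [Set.ncard_coe_finset]; omega)
    have hx0B : x0 ∉ B := fun h => (Finset.disjoint_left.1 hdis) hx0 h
    have hall : ∀ {u v : ((B : Set V)ᶜ : Set V)} (w : (G.induce (B : Set V)ᶜ).Walk u v),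
        u.1 ∈ X → v.1 ∈ X := by
      intro u v w
      induction w with
      | nil => exact id
      | @cons u v w h p ih =>
        intro hu
        apply ih
        by_contra hv
        apply v.2
        rw [Finset.mem_coe]
        simp only [hB, Finset.mem_filter, Finset.mem_univ, true_and]
        exact ⟨hv, u.1, hu, h⟩
    have huniv : ∀ z, z ∉ B → z ∈ X := by
      intro z hz
      obtain ⟨w⟩ := hconn.preconnected ⟨x0, by simpa using hx0B⟩ ⟨z, by simpa using hz⟩
      exact hall w hx0
    have hcB : c ∈ B := by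
      by_contra h
      exact (hX c (huniv c h)).1 rfl
    have hdB : d ∈ B := by
      by_contra h
      exact (hX d (huniv d h)).2 rfl
    have hBe : B = {c, d} := by
      symm
      apply Finset.eq_of_subset_of_card_le
      · intro x hx
        simp only [Finset.mem_insert, Finset.mem_singleton] at hx
        rcases hx with rfl | rfl
        · exact hcB
        · exact hdB
      · rw [Finset.card_pair hcd]; omega
    right
    refine ⟨?_, ?_⟩
    · intro x hxc hxd
      apply huniv
      rw [hBe]
      simp [hxc, hxd]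
    · have : B.card = 2 := by rw [hBe, Finset.card_pair hcd]
      omega

theorem exists_val [Fintype V] (h3 : ThreeConn G) {a b c d : V} (hab : a ≠ b) (hcd : c ≠ d) :
    ∃ M : Equiv.Perm V, Val G a b c d M := by
  classical
  let t : V → Finset V := fun x => if x = c ∨ x = d then {a, b} else Nb G a b {x}
  have hall : ∀ s : Finset V, s.card ≤ (s.biUnion t).card := by
    intro s
    set s1 := s.filter (fun x => x = c ∨ x = d) with hs1
    set s2 := s.filter (fun x => ¬ (x = c ∨ x = d)) with hs2
    have e1 : s1.card + s2.card = s.card := Finset.card_filter_add_card_filter_not _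
    have hN : Nb G a b s2 ⊆ s.biUnion t := by
      intro y hy
      simp only [Nb, Finset.mem_filter, Finset.mem_univ, true_and] at hy
      obtain ⟨h1, h2, x, hx, hxy⟩ := hy
      rw [Finset.mem_biUnion]
      rw [hs2, Finset.mem_filter] at hx
      refine ⟨x, hx.1, ?_⟩
      simp only [t, if_neg hx.2, Nb, Finset.mem_filter, Finset.mem_univ, true_and]
      exact ⟨h1, h2, x, by simp, hxy⟩
    have h2c : s2.card ≤ (Nb G a b s2).card := by
      rcases s2.eq_empty_or_nonempty with h | h
      · rw [h]; simp
      · rcases surplus h3 a b hcd s2 (by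
          intro x hx
          rw [hs2, Finset.mem_filter, not_or] at hx
          exact hx.2) h with h' | h'
        · omega
        · exact h'.2
    rcases s1.eq_empty_or_nonempty with h | ⟨x, hx⟩
    · have := Finset.card_le_card hN
      rw [h, Finset.card_empty] at e1
      omega
    · have hab' : ({a, b} : Finset V) ⊆ s.biUnion t := by
        intro y hy
        rw [Finset.mem_biUnion]
        rw [hs1, Finset.mem_filter] at hx
        refine ⟨x, hx.1, ?_⟩
        simp only [t, if_pos hx.2]
        exact hy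
      have hdis : Disjoint ({a, b} : Finset V) (Nb G a b s2) := by
        rw [Finset.disjoint_left]
        intro y hy hy'
        simp only [Nb, Finset.mem_filter, Finset.mem_univ, true_and] at hy'
        simp only [Finset.mem_insert, Finset.mem_singleton] at hy
        rcases hy with h | h
        · exact hy'.1 h
        · exact hy'.2.1 h
      have h4 := Finset.card_le_card (Finset.union_subset hab' hN)
      rw [Finset.card_union_of_disjoint hdis, Finset.card_pair hab] at h4
      have h5 : s1.card ≤ 2 := by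
        have : s1 ⊆ {c, d} := by
          intro y hy
          rw [hs1, Finset.mem_filter] at hy
          simpa using hy.2
        exact (Finset.card_le_card this).trans Finset.card_le_two
      omega
  obtain ⟨f, hf, hft⟩ := (Finset.all_card_le_biUnion_card_iff_exists_injective t).1 hall
  have hbij : Function.Bijective f := Finite.injective_iff_bijective.1 hf
  refine ⟨Equiv.ofBijective f hbij, ?_, ?_⟩
  · intro x hx
    have := hft x
    simp only [t, if_pos hx] at this
    simpa using this
  · intro x hc hd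
    have := hft x
    simp only [t, if_neg (not_or.2 ⟨hc, hd⟩), Nb, Finset.mem_filter, Finset.mem_univ, true_and,
      Finset.mem_singleton, exists_eq_left] at this
    exact this

theorem main_potential [Fintype V] [DecidableEq V] (σ : Sym2 V → ZMod 2) (h3 : ThreeConn G)
    {a b c d : V} (hab : a ≠ b) (hac : a ≠ c) (had : a ≠ d) (hbd : b ≠ d) (hcd : c ≠ d) (κ : ZMod 2)
    (hκ1 : ∀ (P : G.Walk b c) (Q : G.Walk d a), P.IsPath → Q.IsPath →
      List.Disjoint P.support Q.support → sgn σ P + sgn σ Q = κ)
    (hκ2 : ∀ (P : G.Walk b d) (Q : G.Walk c a), P.IsPath → Q.IsPath →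
      List.Disjoint P.support Q.support → sgn σ P + sgn σ Q = κ) :
    ∃ s : V → ZMod 2, ∀ x z, G.Adj x z → x ≠ c → x ≠ d → z ≠ a → z ≠ b →
      σ s(x, z) = s x + s z := by
  classical
  obtain ⟨M, hM⟩ := exists_val h3 hab hcd
  have hW : ∀ M : Equiv.Perm V, Val G a b c d M → W σ c d M = κ := fun M hM =>
    W_eq σ h3 hab hac had hbd hcd κ hκ1 hκ2 hM
  let α := {x : V // x ≠ c ∧ x ≠ d}
  let E : α → α → Prop := fun x y => M y.1 = x.1 ∨ G.Adj x.1 (M y.1)
  let D : α → α → ZMod 2 := fun x y => wt σ x.1 (M y.1) + wt σ x.1 (M x.1)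
  have hE : ∀ x, E x x := fun x => (hM.step x.1 x.2.1 x.2.2).2.2
  have hD : ∀ x, D x x = 0 := fun x => CharTwo.add_self_eq_zero _
  -- the inverse image of a vertex outside `{a, b}`
  have hpre : ∀ z, z ≠ a → z ≠ b → M.symm z ≠ c ∧ M.symm z ≠ d := by
    intro z hza hzb
    by_contra hcon
    have : M.symm z = c ∨ M.symm z = d := by
      by_contra h; push Not at h; exact hcon h
    have h2 := hM.src _ this
    rw [Equiv.apply_symm_apply] at h2
    rcases h2 with h | h
    · exact hza h
    · exact hzb h
  have hsum : ∀ M' : Equiv.Perm V, W σ c d M' = ∑ x : α, wt σ x.1 (M' x.1) := by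
    intro M'
    rw [W]
    exact Finset.sum_subtype _ (by intro x; simp) (fun x => wt σ x (M' x))
  have H : ∀ τ : Equiv.Perm α, (∀ x, E x (τ x)) → ∑ x, D x (τ x) = 0 := by
    intro τ hτ
    set τ' : Equiv.Perm V := Equiv.Perm.ofSubtype τ with hτ'
    have t1 : ∀ x : α, τ' x.1 = (τ x).1 := fun x => Equiv.Perm.ofSubtype_apply_coe τ x
    have t2 : ∀ x : V, ¬ (x ≠ c ∧ x ≠ d) → τ' x = x := fun x hx =>
      Equiv.Perm.ofSubtype_apply_of_not_mem τ hx
    have hM' : Val G a b c d (M * τ') := by
      constructor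
      · intro x hx
        rw [Equiv.Perm.mul_apply, t2 x (by
          rintro ⟨h1, h2⟩
          rcases hx with h | h
          · exact h1 h
          · exact h2 h)]
        exact hM.src x hx
      · intro x hc hd
        rw [Equiv.Perm.mul_apply, t1 ⟨x, hc, hd⟩]
        have h1 := hM.step (τ ⟨x, hc, hd⟩).1 (τ ⟨x, hc, hd⟩).2.1 (τ ⟨x, hc, hd⟩).2.2
        exact ⟨h1.1, h1.2.1, hτ ⟨x, hc, hd⟩⟩
    have e1 := hW _ hM'
    have e2 := hW _ hM
    rw [hsum] at e1 e2
    show ∑ x : α, (wt σ x.1 (M (τ x).1) + wt σ x.1 (M x.1)) = 0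
    rw [Finset.sum_add_distrib, e2]
    have e3 : ∑ x : α, wt σ x.1 (M (τ x).1) = κ := by
      rw [← e1]
      apply Finset.sum_congr rfl
      intro x _
      rw [Equiv.Perm.mul_apply, t1]
    rw [e3]
    exact CharTwo.add_self_eq_zero _
  have hs : ∀ x y, Relation.ReflTransGen E x y := by
    intro x y
    by_contra hcon
    set X : Finset V := Finset.univ.filter
      (fun z => ∃ h : z ≠ c ∧ z ≠ d, Relation.ReflTransGen E x ⟨z, h⟩) with hX
    have hxX : x.1 ∈ X := by
      simp only [hX, Finset.mem_filter, Finset.mem_univ, true_and]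
      exact ⟨x.2, Relation.ReflTransGen.refl⟩
    have hyX : y.1 ∉ X := by
      simp only [hX, Finset.mem_filter, Finset.mem_univ, true_and]
      rintro ⟨_, h⟩
      exact hcon h
    have hle : (Nb G a b X).card ≤ X.card := by
      have hsub : Nb G a b X ⊆ X.image M := by
        intro z hz
        simp only [Nb, Finset.mem_filter, Finset.mem_univ, true_and] at hz
        obtain ⟨hza, hzb, u, hu, huz⟩ := hz
        rw [Finset.mem_image]
        refine ⟨M.symm z, ?_, Equiv.apply_symm_apply _ _⟩
        simp only [hX, Finset.mem_filter, Finset.mem_univ, true_and] at hu ⊢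
        obtain ⟨hu1, hu2⟩ := hu
        refine ⟨hpre z hza hzb, hu2.tail ?_⟩
        show M (M.symm z) = u ∨ G.Adj u (M (M.symm z))
        rw [Equiv.apply_symm_apply]
        exact huz
      exact (Finset.card_le_card hsub).trans Finset.card_image_le
    rcases surplus h3 a b hcd X (by
      intro z hz
      simp only [hX, Finset.mem_filter, Finset.mem_univ, true_and] at hz
      exact hz.1) ⟨x.1, hxX⟩ with h | h
    · omega
    · exact hyX (h.1 y.1 y.2.1 y.2.2)
  obtain ⟨p, hp⟩ := potential hE hD H hs
  let s : V → ZMod 2 := fun x =>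
    if h : x ≠ c ∧ x ≠ d then p ⟨x, h⟩ + wt σ x (M x)
    else if h' : x ≠ a ∧ x ≠ b then p ⟨M.symm x, hpre x h'.1 h'.2⟩ else 0
  refine ⟨s, ?_⟩
  intro x z hxz hxc hxd hza hzb
  have h1 := hp ⟨x, hxc, hxd⟩ ⟨M.symm z, hpre z hza hzb⟩ (by
    show M (M.symm z) = x ∨ G.Adj x (M (M.symm z))
    rw [Equiv.apply_symm_apply]
    exact Or.inr hxz)
  have h1' : wt σ x (M (M.symm z)) + wt σ x (M x) =
    p ⟨x, hxc, hxd⟩ + p ⟨M.symm z, hpre z hza hzb⟩ := h1
  rw [Equiv.apply_symm_apply, wt_ne σ hxz.ne] at h1'
  have hsx : s x = p ⟨x, hxc, hxd⟩ + wt σ x (M x) := by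
    simp only [s]; rw [dif_pos ⟨hxc, hxd⟩]
  have hsz : s z = p ⟨M.symm z, hpre z hza hzb⟩ := by
    by_cases h : z ≠ c ∧ z ≠ d
    · have h2 := hp ⟨z, h⟩ ⟨M.symm z, hpre z hza hzb⟩ (by
        show M (M.symm z) = z ∨ G.Adj z (M (M.symm z))
        rw [Equiv.apply_symm_apply]
        exact Or.inl rfl)
      have h2' : wt σ z (M (M.symm z)) + wt σ z (M z) =
        p ⟨z, h⟩ + p ⟨M.symm z, hpre z hza hzb⟩ := h2
      rw [Equiv.apply_symm_apply, wt_self, zero_add] at h2'
      simp only [s]
      rw [dif_pos h, h2']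
      have : ∀ a b : ZMod 2, a + (a + b) = b := by decide
      exact this _ _
    · simp only [s]
      rw [dif_neg h, dif_pos ⟨hza, hzb⟩]
  rw [hsx, hsz]
  have : ∀ w u p q : ZMod 2, w + u = p + q → w = p + u + q := by decide
  exact this _ _ _ _ h1'

end Pool.Agent.H99.SG
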