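import Pool.Agent.H99.SG.Route

/-!
# Circles disjoint from a linkage are positive
-/

set_option autoImplicit false

namespace Pool.Agent.H99.SG

open SimpleGraph Pool.Agent.Results.MP_790549_co.CommonNegativeCircles

variable {V : Type} {G : SimpleGraph V}

theorem off_linkage [Fintype V] [DecidableEq V] (σ : Sym2 V → ZMod 2) (h3 : ThreeConn G)
    {a b c d : V} (hab : a ≠ b) (had : a ≠ d) (hbd : b ≠ d)
    (P : G.Walk b c) (Q : G.Walk d a) (hP : P.IsPath) (hQ : Q.IsPath)
    (hd : List.Disjoint P.support Q.support) (κ : ZMod 2)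
    (hκ : ∀ (P : G.Walk b c) (Q : G.Walk d a), P.IsPath → Q.IsPath →
      List.Disjoint P.support Q.support → sgn σ P + sgn σ Q = κ)
    {z : V} (D : G.Walk z z) (hD : D.IsCycle) (hDP : ∀ x ∈ D.support, x ∉ P.support)
    (hDQ : ∀ x ∈ D.support, x ∉ Q.support) : sgn σ D = 0 := by
  have hconn : Pool.Agent.Helper944_HC.Conn G.Adj (Finset.univ : Finset V)
      {x | x ∈ D.support} {x | x ∈ P.support ∨ x ∈ Q.support} 3 := by
    intro S _ hS U hU hXU hCl
    obtain ⟨x, hxD, hxS⟩ : ∃ x ∈ D.support, x ∉ S := by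
      by_contra hcon
      push Not at hcon
      have h1 : D.support.tail.toFinset ⊆ S := by
        intro x hx
        exact hcon x (List.mem_of_mem_tail (List.mem_toFinset.1 hx))
      have h2 := Finset.card_le_card h1
      rw [List.toFinset_card_of_nodup hD.support_nodup, List.length_tail,
        Walk.length_support] at h2
      have := hD.three_le_length
      omega
    obtain ⟨y, hyY, hyS⟩ : ∃ y, (y ∈ P.support ∨ y ∈ Q.support) ∧ y ∉ S := by
      by_contra hcon
      push Not at hcon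
      have h1 : ({a, b, d} : Finset V) ⊆ S := by
        intro x hx
        simp only [Finset.mem_insert, Finset.mem_singleton] at hx
        rcases hx with rfl | rfl | rfl
        · exact hcon _ (Or.inr Q.end_mem_support)
        · exact hcon _ (Or.inl P.start_mem_support)
        · exact hcon _ (Or.inr Q.start_mem_support)
      have h2 := Finset.card_le_card h1
      have h3 : ({a, b, d} : Finset V).card = 3 := Finset.card_eq_three.2 ⟨a, b, d, hab, had, hbd, rfl⟩
      omega
    have hc := h3.2 (S : Set V) (by rw [Set.ncard_coe_finset]; omega)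
    obtain ⟨w⟩ := hc.preconnected ⟨x, by simpa using hxS⟩ ⟨y, by simpa using hyS⟩
    have hall : ∀ {u v : ((S : Set V)ᶜ : Set V)} (w : (G.induce (S : Set V)ᶜ).Walk u v),
        u.1 ∈ U → v.1 ∈ U := by
      intro u v w
      induction w with
      | nil => exact id
      | @cons u v w h p ih =>
        intro hu
        refine ih (hCl _ hu _ ?_ h)
        rw [Finset.mem_sdiff]
        exact ⟨Finset.mem_univ _, fun h' => v.2 (Finset.mem_coe.2 h')⟩
    exact ⟨y, hall w (hXU x (by simp [hxS]) hxD), hyY⟩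
  obtain ⟨L, hL, hLd⟩ := Pool.Agent.Helper944_HC.menger hconn
  have hR : ∀ i, ∃ (x y : V) (r : G.Walk x y), r.IsPath ∧ x ∈ {x | x ∈ D.support} ∧
      y ∈ {x | x ∈ P.support ∨ x ∈ Q.support} ∧ (∀ v ∈ r.support, v ∈ {v | v ∈ L i}) ∧
      (∀ v ∈ r.support, v ∈ {x | x ∈ D.support} → v = x) ∧
      ∀ v ∈ r.support, v ∈ {x | x ∈ P.support ∨ x ∈ Q.support} → v = y := by
    intro i
    obtain ⟨x, hx1, hx2⟩ := (hL i).head
    obtain ⟨y, hy1, hy2⟩ := (hL i).last
    obtain ⟨p, hp⟩ := walk_of_list (L i) (hL i).chain x y hx1 hy1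
    refine trim _ _ {v | v ∈ L i} _ p rfl ?_ hx2 hy2 ?_
    · rw [Walk.isPath_def, hp]; exact (hL i).nodup
    · intro v hv
      rw [hp] at hv
      exact hv
  choose x y R hRp hx hy hRL hRX hRY using hR
  have hdis : ∀ i j, i ≠ j → ∀ v ∈ (R i).support, v ∉ (R j).support := by
    intro i j hij v hv hv'
    exact hLd i j hij v (hRL i v hv) (hRL j v hv')
  have caseP : ∀ i j, i ≠ j → y i ∈ P.support → y j ∈ P.support → sgn σ D = 0 := by
    intro i j hij h1 h2
    refine reroute σ {x | x ∈ Q.support} P hP (fun x hx hx' => hd hx hx') (κ + sgn σ Q) ?_ D hD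
      hDP hDQ (R i) (R j) (hRp i) (hRp j) (hdis i j hij) (hx i) (hx j) h1 h2 (hRX i)
      (fun v hv hv' => hRY i v hv (Or.inl hv')) (hRX j)
      (fun v hv hv' => hRY j v hv (Or.inl hv')) ?_ ?_
    · intro P' hP' hPF
      have := hκ P' Q hP' hQ (fun x hx hx' => hPF x hx hx')
      have h0 : ∀ p q κ : ZMod 2, p + q = κ → p = κ + q := by decide
      exact h0 _ _ _ this
    · intro v hv hv'
      have := hRY i v hv (Or.inr hv')
      subst this
      exact hd h1 hv'
    · intro v hv hv'
      have := hRY j v hv (Or.inr hv')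
      subst this
      exact hd h2 hv'
  have caseQ : ∀ i j, i ≠ j → y i ∈ Q.support → y j ∈ Q.support → sgn σ D = 0 := by
    intro i j hij h1 h2
    refine reroute σ {x | x ∈ P.support} Q hQ (fun x hx hx' => hd hx' hx) (κ + sgn σ P) ?_ D hD
      hDQ hDP (R i) (R j) (hRp i) (hRp j) (hdis i j hij) (hx i) (hx j) h1 h2 (hRX i)
      (fun v hv hv' => hRY i v hv (Or.inr hv')) (hRX j)
      (fun v hv hv' => hRY j v hv (Or.inr hv')) ?_ ?_
    · intro Q' hQ' hQF
      have := hκ P Q' hP hQ' (fun x hx hx' => hQF x hx' hx)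
      have h0 : ∀ p q κ : ZMod 2, p + q = κ → q = κ + p := by decide
      exact h0 _ _ _ this
    · intro v hv hv'
      have := hRY i v hv (Or.inl hv')
      subst this
      exact hd hv' h1
    · intro v hv hv'
      have := hRY j v hv (Or.inl hv')
      subst this
      exact hd hv' h2
  have n01 : (0 : Fin 3) ≠ 1 := by decide
  have n02 : (0 : Fin 3) ≠ 2 := by decide
  have n12 : (1 : Fin 3) ≠ 2 := by decide
  rcases hy 0 with h0 | h0 <;> rcases hy 1 with h1 | h1 <;> rcases hy 2 with h2 | h2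
  · exact caseP 0 1 n01 h0 h1
  · exact caseP 0 1 n01 h0 h1
  · exact caseP 0 2 n02 h0 h2
  · exact caseQ 1 2 n12 h1 h2
  · exact caseP 1 2 n12 h1 h2
  · exact caseQ 0 2 n02 h0 h2
  · exact caseQ 0 1 n01 h0 h1
  · exact caseQ 0 1 n01 h0 h1

end Pool.Agent.H99.SG
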