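import Pool.Agent.H99.SG.Off

/-!
# The weight of the permutations which describe linkages
-/

set_option autoImplicit false

namespace Pool.Agent.H99.SG

open SimpleGraph Pool.Agent.Results.MP_790549_co.CommonNegativeCircles

variable {V : Type} {G : SimpleGraph V}

/-- a permutation describing two disjoint paths from `{a, b}` to `{c, d}` and some circles -/
structure Val (G : SimpleGraph V) (a b c d : V) (M : Equiv.Perm V) : Prop where
  src : ∀ x, (x = c ∨ x = d) → (M x = a ∨ M x = b)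
  step : ∀ x, x ≠ c → x ≠ d → M x ≠ a ∧ M x ≠ b ∧ (M x = x ∨ G.Adj x (M x))

/-- the weight of a step -/
noncomputable def wt (σ : Sym2 V → ZMod 2) (x y : V) : ZMod 2 :=
  open Classical in if x = y then 0 else σ s(x, y)

theorem wt_self (σ : Sym2 V → ZMod 2) (x : V) : wt σ x x = 0 := by simp [wt]

theorem wt_ne (σ : Sym2 V → ZMod 2) {x y : V} (h : x ≠ y) : wt σ x y = σ s(x, y) := by
  simp [wt, h]

theorem walk_iter (σ : Sym2 V → ZMod 2) (f : ℕ → V) (n : ℕ)
    (hf : ∀ i < n, G.Adj (f i) (f (i + 1))) :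
    ∃ w : G.Walk (f 0) (f n), w.support = (List.range (n + 1)).map f ∧
      sgn σ w = ∑ i ∈ Finset.range n, σ s(f i, f (i + 1)) := by
  induction n with
  | zero => exact ⟨Walk.nil, by simp, by simp [sgn_nil]⟩
  | succ n ih =>
    obtain ⟨w, h1, h2⟩ := ih fun i hi => hf i (by omega)
    refine ⟨w.append (Walk.cons (hf n (by omega)) Walk.nil), ?_, ?_⟩
    · rw [Walk.support_append, h1, List.range_succ (n := n + 1), List.map_append]
      simp
    · rw [sgn_append, h2, Finset.sum_range_succ, sgn_cons, sgn_nil, add_zero]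

variable {a b c d : V} {M : Equiv.Perm V}

theorem Val.first [Finite V] (hM : Val G a b c d M) {s : V} (hs : s = a ∨ s = b) :
    ∃ n, ((M ^ n) s = c ∨ (M ^ n) s = d) ∧ ∀ i < n, (M ^ i) s ≠ c ∧ (M ^ i) s ≠ d := by
  classical
  have hex : ∃ n, (M ^ n) s = c ∨ (M ^ n) s = d := by
    refine ⟨orderOf M - 1, ?_⟩
    have h1 : 0 < orderOf M := orderOf_pos M
    have h2 : M ((M ^ (orderOf M - 1)) s) = s := by
      rw [← Equiv.Perm.mul_apply, ← pow_succ', Nat.sub_add_cancel h1, pow_orderOf_eq_one]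
      rfl
    by_contra hcon
    push Not at hcon
    obtain ⟨h3, h4, _⟩ := hM.step _ hcon.1 hcon.2
    rw [h2] at h3 h4
    rcases hs with h | h
    · exact h3 h
    · exact h4 h
  refine ⟨Nat.find hex, Nat.find_spec hex, fun i hi => ?_⟩
  have := Nat.find_min hex hi
  push Not at this
  exact this

theorem Val.next (hM : Val G a b c d M) {s : V} {n : ℕ}
    (hn : ∀ i < n, (M ^ i) s ≠ c ∧ (M ^ i) s ≠ d) (i : ℕ) (hi : i < n) :
    (M ^ (i + 1)) s ≠ a ∧ (M ^ (i + 1)) s ≠ b := by
  have := hM.step _ (hn i hi).1 (hn i hi).2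
  rw [pow_succ', Equiv.Perm.mul_apply]
  exact ⟨this.1, this.2.1⟩

theorem pow_sub_aux {i j : ℕ} {s t : V} (h : i ≤ j) (e : (M ^ i) t = (M ^ j) s) :
    (M ^ (j - i)) s = t := by
  have : (M ^ j) s = (M ^ i) ((M ^ (j - i)) s) := by
    rw [← Equiv.Perm.mul_apply, ← pow_add]
    congr 2
    omega
  rw [this] at e
  exact ((M ^ i).injective e).symm

theorem Val.clash (hM : Val G a b c d M) {s t : V} (ht : t = a ∨ t = b) {n : ℕ}
    (hn : ∀ i < n, (M ^ i) s ≠ c ∧ (M ^ i) s ≠ d) {i j : ℕ} (hij : i < j) (hj : j ≤ n)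
    (e : (M ^ i) t = (M ^ j) s) : False := by
  have h1 := pow_sub_aux hij.le e
  have h2 := hM.next hn (j - i - 1) (by omega)
  rw [show j - i - 1 + 1 = j - i by omega, h1] at h2
  rcases ht with h | h
  · exact h2.1 h
  · exact h2.2 h

theorem Val.inj (hM : Val G a b c d M) {s : V} (hs : s = a ∨ s = b) {n : ℕ}
    (hn : ∀ i < n, (M ^ i) s ≠ c ∧ (M ^ i) s ≠ d) {i j : ℕ} (hi : i ≤ n) (hj : j ≤ n)
    (e : (M ^ i) s = (M ^ j) s) : i = j := by
  rcases Nat.lt_trichotomy i j with h | h | h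
  · exact (hM.clash hs hn h hj e).elim
  · exact h
  · exact (hM.clash hs hn h hi e.symm).elim

theorem Val.adj (hM : Val G a b c d M) {s : V} (hs : s = a ∨ s = b) {n : ℕ}
    (hn : ∀ i < n, (M ^ i) s ≠ c ∧ (M ^ i) s ≠ d) (i : ℕ) (hi : i < n) :
    G.Adj ((M ^ i) s) ((M ^ (i + 1)) s) := by
  rcases (hM.step _ (hn i hi).1 (hn i hi).2).2.2 with h | h
  · exfalso
    have h1 : (M ^ (i + 1)) s = (M ^ i) s := by
      rw [pow_succ', Equiv.Perm.mul_apply]; exact h
    have := hM.inj hs hn hi hi.le h1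
    omega
  · rw [pow_succ', Equiv.Perm.mul_apply]; exact h

theorem Val.path (σ : Sym2 V → ZMod 2) (hM : Val G a b c d M) {s : V} (hs : s = a ∨ s = b) {n : ℕ}
    (hn : ∀ i < n, (M ^ i) s ≠ c ∧ (M ^ i) s ≠ d) :
    ∃ w : G.Walk s ((M ^ n) s), w.IsPath ∧ (∀ x, x ∈ w.support ↔ ∃ i ≤ n, (M ^ i) s = x) ∧
      sgn σ w = ∑ i ∈ Finset.range n, wt σ ((M ^ i) s) (M ((M ^ i) s)) := by
  obtain ⟨w, h1, h2⟩ : ∃ w : G.Walk s ((M ^ n) s),
      w.support = (List.range (n + 1)).map (fun i => (M ^ i) s) ∧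
      sgn σ w = ∑ i ∈ Finset.range n, σ s((M ^ i) s, (M ^ (i + 1)) s) :=
    walk_iter σ (fun i => (M ^ i) s) n (hM.adj hs hn)
  refine ⟨w, ?_, ?_, ?_⟩
  · rw [Walk.isPath_def, h1]
    apply List.Nodup.map_on _ List.nodup_range
    intro i hi j hj hij
    rw [List.mem_range] at hi hj
    exact hM.inj hs hn (by omega) (by omega) hij
  · intro x
    rw [h1]
    simp only [List.mem_map, List.mem_range, Nat.lt_succ_iff]
  · rw [h2]
    apply Finset.sum_congr rfl
    intro i hi
    have h3 := (hM.adj hs hn i (Finset.mem_range.1 hi)).ne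
    rw [← wt_ne σ h3, pow_succ', Equiv.Perm.mul_apply]

/-- the weight of a permutation -/
noncomputable def W [Fintype V] [DecidableEq V] (σ : Sym2 V → ZMod 2) (c d : V)
    (M : Equiv.Perm V) : ZMod 2 :=
  ∑ x ∈ Finset.univ.filter (fun x => x ≠ c ∧ x ≠ d), wt σ x (M x)

theorem W_aux [Fintype V] [DecidableEq V] (σ : Sym2 V → ZMod 2) (h3 : ThreeConn G)
    (hab : a ≠ b) (hM : Val G a b c d M) (κ : ZMod 2) {na nb : ℕ}
    (ha2 : ∀ i < na, (M ^ i) a ≠ c ∧ (M ^ i) a ≠ d)
    (hb2 : ∀ i < nb, (M ^ i) b ≠ c ∧ (M ^ i) b ≠ d)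
    (hna : (M ^ na) a = c ∨ (M ^ na) a = d) (hnb : (M ^ nb) b = c ∨ (M ^ nb) b = d)
    (had : a ≠ (M ^ na) a) (hbd : b ≠ (M ^ na) a)
    (hcd : ∀ x, (x = c ∨ x = d) → (x = (M ^ na) a ∨ x = (M ^ nb) b))
    (hκ : ∀ (P : G.Walk b ((M ^ nb) b)) (Q : G.Walk ((M ^ na) a) a), P.IsPath → Q.IsPath →
      List.Disjoint P.support Q.support → sgn σ P + sgn σ Q = κ) : W σ c d M = κ := by
  obtain ⟨wa, a3, a4, a5⟩ := hM.path σ (Or.inl rfl) ha2
  obtain ⟨wb, b3, b4, b5⟩ := hM.path σ (Or.inr rfl) hb2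
  have hdis : List.Disjoint wb.support wa.reverse.support := by
    intro x h1 h2
    rw [Walk.support_reverse, List.mem_reverse, a4] at h2
    rw [b4] at h1
    obtain ⟨j, hj, hj'⟩ := h1
    obtain ⟨i, hi, hi'⟩ := h2
    rcases Nat.lt_trichotomy i j with h | h | h
    · exact hM.clash (Or.inl rfl) hb2 h hj (hi'.trans hj'.symm)
    · subst h
      exact hab ((M ^ i).injective (hi'.trans hj'.symm))
    · exact hM.clash (Or.inr rfl) ha2 h hi (hj'.trans hi'.symm)
  have hk := hκ wb wa.reverse b3 a3.reverse hdis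
  rw [sgn_reverse] at hk
  -- the rest
  set F : Set (Sym2 V) := {g | ∃ x, (x ∈ wb.support ∨ x ∈ wa.reverse.support) ∧ x ∈ g} with hF
  have hbal : BalancedOff G σ F := by
    intro u w hw hwF
    have hoff : ∀ x ∈ w.support, ¬ (x ∈ wb.support ∨ x ∈ wa.reverse.support) := by
      intro x hx hx'
      obtain ⟨y, hy⟩ : ∃ y, s(x, y) ∈ w.edges := by
        have h2 := hw.ncard_neighborSet_toSubgraph_eq_two hx
        have h3 : (w.toSubgraph.neighborSet x).Nonempty := by
          apply Set.nonempty_of_ncard_ne_zero; omega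
        obtain ⟨y, hy⟩ := h3
        exact ⟨y, (Walk.adj_toSubgraph_iff_mem_edges).mp hy⟩
      exact hwF _ hy ⟨x, hx', by simp⟩
    exact off_linkage σ h3 hab had hbd wb wa.reverse b3 a3.reverse hdis κ hκ w hw
      (fun x hx h => hoff x hx (Or.inl h)) (fun x hx h => hoff x hx (Or.inr h))
  obtain ⟨s, hs⟩ := exists_potential σ F hbal
  -- splitting the sum
  set L : Finset V := Finset.univ.filter (fun x => x ≠ c ∧ x ≠ d) with hL
  set Sa : Finset V := (Finset.range na).image (fun i => (M ^ i) a) with hSa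
  set Sb : Finset V := (Finset.range nb).image (fun i => (M ^ i) b) with hSb
  have hSaL : Sa ⊆ L := by
    intro x hx
    simp only [hSa, Finset.mem_image, Finset.mem_range] at hx
    obtain ⟨i, hi, rfl⟩ := hx
    simp only [hL, Finset.mem_filter, Finset.mem_univ, true_and]
    exact ha2 i hi
  have hSbL : Sb ⊆ L := by
    intro x hx
    simp only [hSb, Finset.mem_image, Finset.mem_range] at hx
    obtain ⟨i, hi, rfl⟩ := hx
    simp only [hL, Finset.mem_filter, Finset.mem_univ, true_and]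
    exact hb2 i hi
  have hSab : Disjoint Sa Sb := by
    rw [Finset.disjoint_left]
    intro x hx hx'
    simp only [hSa, hSb, Finset.mem_image, Finset.mem_range] at hx hx'
    obtain ⟨i, hi, rfl⟩ := hx
    obtain ⟨j, hj, hj'⟩ := hx'
    apply hdis (a := (M ^ i) a)
    · rw [b4]; exact ⟨j, hj.le, hj'⟩
    · rw [Walk.support_reverse, List.mem_reverse, a4]; exact ⟨i, hi.le, rfl⟩
  have hsa : ∑ x ∈ Sa, wt σ x (M x) = sgn σ wa := by
    rw [a5, hSa, Finset.sum_image]
    intro i hi j hj hij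
    rw [Finset.coe_range, Set.mem_Iio] at hi hj
    exact hM.inj (Or.inl rfl) ha2 hi.le hj.le hij
  have hsb : ∑ x ∈ Sb, wt σ x (M x) = sgn σ wb := by
    rw [b5, hSb, Finset.sum_image]
    intro i hi j hj hij
    rw [Finset.coe_range, Set.mem_Iio] at hi hj
    exact hM.inj (Or.inr rfl) hb2 hi.le hj.le hij
  set T : Finset V := L \ (Sa ∪ Sb) with hT
  have hsplit : W σ c d M = ∑ x ∈ T, wt σ x (M x) + (sgn σ wa + sgn σ wb) := by
    rw [← hsa, ← hsb, ← Finset.sum_union hSab, hT, W]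
    exact (Finset.sum_sdiff (Finset.union_subset hSaL hSbL)).symm
  have hTm : ∀ x, x ∈ T ↔ (x ≠ c ∧ x ≠ d) ∧ (∀ i < na, (M ^ i) a ≠ x) ∧ ∀ i < nb, (M ^ i) b ≠ x := by
    intro x
    simp only [hT, hL, hSa, hSb, Finset.mem_sdiff, Finset.mem_filter, Finset.mem_univ, true_and,
      Finset.mem_union, Finset.mem_image, Finset.mem_range, not_or, not_exists, not_and, ne_eq]
  -- vertices in T are off the two paths
  have hsupp : ∀ x, (x ∈ wb.support ∨ x ∈ wa.reverse.support) ↔
      (∃ i ≤ nb, (M ^ i) b = x) ∨ ∃ i ≤ na, (M ^ i) a = x := by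
    intro x
    rw [Walk.support_reverse, List.mem_reverse, a4, b4]
  have hToff : ∀ x ∈ T, ¬ (x ∈ wb.support ∨ x ∈ wa.reverse.support) := by
    intro x hx h
    rw [hTm] at hx
    obtain ⟨⟨hxc, hxd⟩, hxa, hxb⟩ := hx
    rw [hsupp] at h
    rcases h with ⟨i, hi, h⟩ | ⟨i, hi, h⟩
    · rcases Nat.lt_or_ge i nb with h' | h'
      · exact hxb i h' h
      · have : i = nb := by omega
        subst this
        rw [h] at hnb
        rcases hnb with h2 | h2
        · exact hxc h2
        · exact hxd h2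
    · rcases Nat.lt_or_ge i na with h' | h'
      · exact hxa i h' h
      · have : i = na := by omega
        subst this
        rw [h] at hna
        rcases hna with h2 | h2
        · exact hxc h2
        · exact hxd h2
  have hToff' : ∀ x ∈ T, ¬ (M x ∈ wb.support ∨ M x ∈ wa.reverse.support) := by
    intro x hx h
    have hx' := hx
    rw [hTm] at hx
    obtain ⟨⟨hxc, hxd⟩, hxa, hxb⟩ := hx
    obtain ⟨m1, m2, m3⟩ := hM.step x hxc hxd
    rw [hsupp] at h
    rcases h with ⟨i, hi, h⟩ | ⟨i, hi, h⟩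
    · cases i with
      | zero => exact m2 h.symm
      | succ j =>
        rw [pow_succ', Equiv.Perm.mul_apply] at h
        exact hxb j (by omega) (M.injective h)
    · cases i with
      | zero => exact m1 h.symm
      | succ j =>
        rw [pow_succ', Equiv.Perm.mul_apply] at h
        exact hxa j (by omega) (M.injective h)
  have hTT : ∀ x ∈ T, M x ∈ T := by
    intro x hx
    have h1 := hToff' x hx
    rw [hsupp] at h1
    push Not at h1
    rw [hTm]
    refine ⟨⟨?_, ?_⟩, fun i hi => h1.2 i hi.le, fun i hi => h1.1 i hi.le⟩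
    · intro h
      rcases hcd _ (Or.inl rfl) with h2 | h2
      · exact h1.2 na le_rfl (h2 ▸ h.symm)
      · exact h1.1 nb le_rfl (h2 ▸ h.symm)
    · intro h
      rcases hcd _ (Or.inr rfl) with h2 | h2
      · exact h1.2 na le_rfl (h2 ▸ h.symm)
      · exact h1.1 nb le_rfl (h2 ▸ h.symm)
  have himg : T.image M = T := by
    apply Finset.eq_of_subset_of_card_le
    · intro x hx
      rw [Finset.mem_image] at hx
      obtain ⟨y, hy, rfl⟩ := hx
      exact hTT y hy
    · rw [Finset.card_image_of_injective _ M.injective]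
  have hT0 : ∑ x ∈ T, wt σ x (M x) = 0 := by
    have e1 : ∑ x ∈ T, wt σ x (M x) = ∑ x ∈ T, (s x + s (M x)) := by
      apply Finset.sum_congr rfl
      intro x hx
      have hx' := hx
      rw [hTm] at hx'
      rcases (hM.step x hx'.1.1 hx'.1.2).2.2 with h | h
      · rw [h, wt_self]
        exact (CharTwo.add_self_eq_zero _).symm
      · rw [wt_ne σ h.ne, hs x (M x) h, cob_mk]
        rintro ⟨y, hy, hy'⟩
        rw [Sym2.mem_iff] at hy'
        rcases hy' with rfl | rfl
        · exact hToff _ hx hy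
        · exact hToff' _ hx hy
    rw [e1, Finset.sum_add_distrib]
    have e2 : ∑ x ∈ T, s (M x) = ∑ x ∈ T, s x := by
      conv_rhs => rw [← himg]
      rw [Finset.sum_image (fun x _ y _ h => M.injective h)]
    rw [e2]
    exact CharTwo.add_self_eq_zero _
  rw [hsplit, hT0, zero_add, add_comm]
  exact hk

/-- every such permutation has the same weight -/
theorem W_eq [Fintype V] [DecidableEq V] (σ : Sym2 V → ZMod 2) (h3 : ThreeConn G)
    (hab : a ≠ b) (hac : a ≠ c) (had : a ≠ d) (hbd : b ≠ d) (hcd : c ≠ d) (κ : ZMod 2)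
    (hκ1 : ∀ (P : G.Walk b c) (Q : G.Walk d a), P.IsPath → Q.IsPath →
      List.Disjoint P.support Q.support → sgn σ P + sgn σ Q = κ)
    (hκ2 : ∀ (P : G.Walk b d) (Q : G.Walk c a), P.IsPath → Q.IsPath →
      List.Disjoint P.support Q.support → sgn σ P + sgn σ Q = κ)
    (hM : Val G a b c d M) : W σ c d M = κ := by
  obtain ⟨na, hna, ha2⟩ := hM.first (Or.inl rfl)
  obtain ⟨nb, hnb, hb2⟩ := hM.first (s := b) (Or.inr rfl)
  have hne : (M ^ na) a ≠ (M ^ nb) b := by
    intro h
    rcases Nat.lt_trichotomy na nb with h1 | h1 | h1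
    · exact hM.clash (Or.inl rfl) hb2 h1 le_rfl h
    · subst h1
      exact hab ((M ^ na).injective h)
    · exact hM.clash (Or.inr rfl) ha2 h1 le_rfl h.symm
  rcases hna with ea | ea <;> rcases hnb with eb | eb
  · exact absurd (ea.trans eb.symm) hne
  · by_cases hbc : b = c
    · -- then the path of `b` has length zero
      exfalso
      have h0 : nb = 0 := by
        by_contra h
        exact (hb2 0 (by omega)).1 hbc
      subst h0
      exact hbd eb
    · refine W_aux σ h3 hab hM κ ha2 hb2 (Or.inl ea) (Or.inr eb) (by rw [ea]; exact hac)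
        (by rw [ea]; exact hbc) ?_ ?_
      · rintro x (rfl | rfl)
        · exact Or.inl ea.symm
        · exact Or.inr eb.symm
      · rw [ea, eb]; exact hκ2
  · refine W_aux σ h3 hab hM κ ha2 hb2 (Or.inr ea) (Or.inl eb) (by rw [ea]; exact had)
      (by rw [ea]; exact hbd) ?_ ?_
    · rintro x (rfl | rfl)
      · exact Or.inr eb.symm
      · exact Or.inl ea.symm
    · rw [ea, eb]; exact hκ1
  · exact absurd (ea.trans eb.symm) hne

end Pool.Agent.H99.SG
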