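import Pool.Agent.H99.SG.Rel

/-!
# Circles disjoint from a linkage are positive, when every edge is in a circle through `e` and `f`
-/

set_option autoImplicit false

namespace Pool.Agent.H99.SG

open SimpleGraph Pool.Agent.Results.MP_790549_co.CommonNegativeCircles

variable {V : Type} {G : SimpleGraph V}

theorem of_conn [Fintype V] [DecidableEq V] (σ : Sym2 V → ZMod 2)
    {a b c d : V} (P : G.Walk b c) (Q : G.Walk d a) (hP : P.IsPath) (hQ : Q.IsPath)
    (hd : List.Disjoint P.support Q.support) (κ : ZMod 2)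
    (hκ : ∀ (P : G.Walk b c) (Q : G.Walk d a), P.IsPath → Q.IsPath →
      List.Disjoint P.support Q.support → sgn σ P + sgn σ Q = κ)
    {z : V} (D : G.Walk z z) (hD : D.IsCycle) (hDP : ∀ x ∈ D.support, x ∉ P.support)
    (hDQ : ∀ x ∈ D.support, x ∉ Q.support)
    (hconn : Pool.Agent.Helper944_HC.Conn G.Adj (Finset.univ : Finset V)
      {x | x ∈ D.support} {x | x ∈ P.support ∨ x ∈ Q.support} 3) : sgn σ D = 0 := by
  obtain ⟨L, hL, hLd⟩ := Pool.Agent.Helper944_HC.menger hconn
  have hR : ∀ i, ∃ (x y : V) (r : G.Walk x y), r.IsPath ∧ x ∈ {x | x ∈ D.support} ∧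
      y ∈ {x | x ∈ P.support ∨ x ∈ Q.support} ∧ (∀ v ∈ r.support, v ∈ {v | v ∈ L i}) ∧
      (∀ v ∈ r.support, v ∈ {x | x ∈ D.support} → v = x) ∧
      ∀ v ∈ r.support, v ∈ {x | x ∈ P.support ∨ x ∈ Q.support} → v = y := by
    intro i
    obtain ⟨x, hx1, hx2⟩ := (hL i).head
    obtain ⟨y, hy1, hy2⟩ := (hL i).last
    obtain ⟨p, hp⟩ := walk_of_list (L i) (hL i).chain x y hx1 hy1
    refine trim _ _ {v | v ∈ L i} _ p rfl ?_ hx2 hy2 ?_
    · rw [Walk.isPath_def, hp]; exact (hL i).nodup
    · intro v hv
      rw [hp] at hv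
      exact hv
  choose x y R hRp hx hy hRL hRX hRY using hR
  have hdis : ∀ i j, i ≠ j → ∀ v ∈ (R i).support, v ∉ (R j).support := by
    intro i j hij v hv hv'
    exact hLd i j hij v (hRL i v hv) (hRL j v hv')
  have caseP : ∀ i j, i ≠ j → y i ∈ P.support → y j ∈ P.support → sgn σ D = 0 := by
    intro i j hij h1 h2
    refine reroute σ {x | x ∈ Q.support} P hP (fun x hx hx' => hd hx hx') (κ + sgn σ Q) ?_ D hD
      hDP hDQ (R i) (R j) (hRp i) (hRp j) (hdis i j hij) (hx i) (hx j) h1 h2 (hRX i)
      (fun v hv hv' => hRY i v hv (Or.inl hv')) (hRX j)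
      (fun v hv hv' => hRY j v hv (Or.inl hv')) ?_ ?_
    · intro P' hP' hPF
      have := hκ P' Q hP' hQ (fun x hx hx' => hPF x hx hx')
      have h0 : ∀ p q κ : ZMod 2, p + q = κ → p = κ + q := by decide
      exact h0 _ _ _ this
    · intro v hv hv'
      have := hRY i v hv (Or.inr hv')
      subst this
      exact hd h1 hv'
    · intro v hv hv'
      have := hRY j v hv (Or.inr hv')
      subst this
      exact hd h2 hv'
  have caseQ : ∀ i j, i ≠ j → y i ∈ Q.support → y j ∈ Q.support → sgn σ D = 0 := by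
    intro i j hij h1 h2
    refine reroute σ {x | x ∈ P.support} Q hQ (fun x hx hx' => hd hx' hx) (κ + sgn σ P) ?_ D hD
      hDQ hDP (R i) (R j) (hRp i) (hRp j) (hdis i j hij) (hx i) (hx j) h1 h2 (hRX i)
      (fun v hv hv' => hRY i v hv (Or.inr hv')) (hRX j)
      (fun v hv hv' => hRY j v hv (Or.inr hv')) ?_ ?_
    · intro Q' hQ' hQF
      have := hκ P Q' hP hQ' (fun x hx hx' => hQF x hx' hx)
      have h0 : ∀ p q κ : ZMod 2, p + q = κ → q = κ + p := by decide
      exact h0 _ _ _ this
    · intro v hv hv'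
      have := hRY i v hv (Or.inl hv')
      subst this
      exact hd hv' h1
    · intro v hv hv'
      have := hRY j v hv (Or.inl hv')
      subst this
      exact hd hv' h2
  have n01 : (0 : Fin 3) ≠ 1 := by decide
  have n02 : (0 : Fin 3) ≠ 2 := by decide
  have n12 : (1 : Fin 3) ≠ 2 := by decide
  rcases hy 0 with h0 | h0 <;> rcases hy 1 with h1 | h1 <;> rcases hy 2 with h2 | h2
  · exact caseP 0 1 n01 h0 h1
  · exact caseP 0 1 n01 h0 h1
  · exact caseP 0 2 n02 h0 h2
  · exact caseQ 1 2 n12 h1 h2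
  · exact caseP 1 2 n12 h1 h2
  · exact caseQ 0 2 n02 h0 h2
  · exact caseQ 0 1 n01 h0 h1
  · exact caseQ 0 1 n01 h0 h1

theorem cycle_edge {z : V} (D : G.Walk z z) (hD : D.IsCycle) {x : V} (hx : x ∈ D.support) :
    ∃ y, s(x, y) ∈ D.edges := by
  have h2 := hD.ncard_neighborSet_toSubgraph_eq_two hx
  have h3 : (D.toSubgraph.neighborSet x).Nonempty := by
    apply Set.nonempty_of_ncard_ne_zero; omega
  obtain ⟨y, hy⟩ := h3
  exact ⟨y, (Walk.adj_toSubgraph_iff_mem_edges).mp hy⟩

theorem cycle_avoid [DecidableEq V] {z : V} (D : G.Walk z z) (hD : D.IsCycle) (S : Finset V)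
    (hS : S.card < 3) : ∃ x ∈ D.support, x ∉ S := by
  by_contra hcon
  push Not at hcon
  have h1 : D.support.tail.toFinset ⊆ S := by
    intro x hx
    exact hcon x (List.mem_of_mem_tail (List.mem_toFinset.1 hx))
  have h2 := Finset.card_le_card h1
  rw [List.toFinset_card_of_nodup hD.support_nodup, List.length_tail,
    Walk.length_support] at h2
  have := hD.three_le_length
  omega

theorem rel_off [Fintype V] [DecidableEq V] (σ : Sym2 V → ZMod 2) {a b c d : V}
    (hef : s(a, b) ≠ s(c, d)) (ε : ZMod 2)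
    (hrel : ∀ g ∈ G.edgeSet, ∃ (u : V) (w : G.Walk u u), w.IsCycle ∧ s(a, b) ∈ w.edges ∧
      s(c, d) ∈ w.edges ∧ g ∈ w.edges)
    (hm : ∀ (u : V) (w : G.Walk u u), w.IsCycle → s(a, b) ∈ w.edges → s(c, d) ∈ w.edges →
      sgn σ w = ε)
    {s1 t1 s2 t2 : V} (P : G.Walk s1 t1) (Q : G.Walk s2 t2) (hP : P.IsPath) (hQ : Q.IsPath)
    (hd : List.Disjoint P.support Q.support)
    (ha : a ∈ P.support ∨ a ∈ Q.support) (hb : b ∈ P.support ∨ b ∈ Q.support)
    (hc : c ∈ P.support ∨ c ∈ Q.support) (hdd : d ∈ P.support ∨ d ∈ Q.support) (κ : ZMod 2)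
    (hκ : ∀ (P : G.Walk s1 t1) (Q : G.Walk s2 t2), P.IsPath → Q.IsPath →
      List.Disjoint P.support Q.support → sgn σ P + sgn σ Q = κ)
    {z : V} (D : G.Walk z z) (hD : D.IsCycle) (hDP : ∀ x ∈ D.support, x ∉ P.support)
    (hDQ : ∀ x ∈ D.support, x ∉ Q.support) : sgn σ D = 0 := by
  by_cases hconn : Pool.Agent.Helper944_HC.Conn G.Adj (Finset.univ : Finset V)
      {x | x ∈ D.support} {x | x ∈ P.support ∨ x ∈ Q.support} 3
  · exact of_conn σ P Q hP hQ hd κ hκ D hD hDP hDQ hconn
  · unfold Pool.Agent.Helper944_HC.Conn at hconn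
    push Not at hconn
    obtain ⟨S, -, hS, U, hU, hXU, hCl, hY⟩ := hconn
    have hcl : ∀ u ∈ U, ∀ v, G.Adj u v → v ∈ U ∨ v ∈ S := by
      intro u hu v huv
      by_cases hv : v ∈ S
      · exact Or.inr hv
      · exact Or.inl (hCl u hu v (by simp [hv]) huv)
    have hDU : ∀ x ∈ D.support, x ∈ U ∨ x ∈ S := by
      intro x hx
      by_cases hxS : x ∈ S
      · exact Or.inr hxS
      · exact Or.inl (hXU x (by simp [hxS]) hx)
    have haU : a ∉ U := fun h => hY a h ha
    have hbU : b ∉ U := fun h => hY b h hb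
    have hcU : c ∉ U := fun h => hY c h hc
    have hdU : d ∉ U := fun h => hY d h hdd
    obtain ⟨x, hxD, hxS⟩ := cycle_avoid D hD S hS
    have hxU : x ∈ U := (hDU x hxD).resolve_right hxS
    obtain ⟨y, hy⟩ := cycle_edge D hD hxD
    obtain ⟨_, w, hw, hew, hfw, hgw⟩ := hrel _ (D.edges_subset_edgeSet hy)
    obtain ⟨p, q, R, hpq, hSpq, hR, hRU, heR, hfR⟩ := cross U S haU hbU hcU hdU hcl w hw hew hfw
      (w.fst_mem_support_of_mem_edges hgw) hxU (by omega)
    -- two disjoint paths from `D` to `p`, `q`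
    have hconn2 : Pool.Agent.Helper944_HC.Conn G.Adj (U ∪ S) {x | x ∈ D.support}
        {x | x = p ∨ x = q} 2 := by
      intro S' hS' hS'c U' hU' hXU' hCl'
      by_contra hno
      push Not at hno
      obtain ⟨x', hx'D, hx'S⟩ := cycle_avoid D hD S' (by omega)
      have hx'US : x' ∈ U ∪ S := by
        rw [Finset.mem_union]; exact hDU x' hx'D
      have hx'U' : x' ∈ U' := hXU' x' (by rw [Finset.mem_sdiff]; exact ⟨hx'US, hx'S⟩) hx'D
      have hU'U : ∀ u ∈ U', u ∈ U := by
        intro u hu
        have h1 := hU' hu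
        rw [Finset.mem_sdiff, Finset.mem_union] at h1
        rcases h1.1 with h2 | h2
        · exact h2
        · exfalso
          rw [hSpq, Finset.mem_insert, Finset.mem_singleton] at h2
          exact hno u hu h2
      have hcl' : ∀ u ∈ U', ∀ v, G.Adj u v → v ∈ U' ∨ v ∈ S' := by
        intro u hu v huv
        by_cases hv : v ∈ S'
        · exact Or.inr hv
        · refine Or.inl (hCl' u hu v ?_ huv)
          rw [Finset.mem_sdiff, Finset.mem_union]
          exact ⟨hcl u (hU'U u hu) v huv, hv⟩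
      obtain ⟨y', hy'⟩ := cycle_edge D hD hx'D
      obtain ⟨_, w', hw', hew', hfw', hgw'⟩ := hrel _ (D.edges_subset_edgeSet hy')
      obtain ⟨p', q', _, hpq', hS'pq, _⟩ := cross U' S' (fun h => haU (hU'U a h))
        (fun h => hbU (hU'U b h)) (fun h => hcU (hU'U c h)) (fun h => hdU (hU'U d h)) hcl' w' hw'
        hew' hfw' (w'.fst_mem_support_of_mem_edges hgw') hx'U' (by omega)
      rw [hS'pq, Finset.card_pair hpq'] at hS'c
      omega
    obtain ⟨L, hL, hLd⟩ := Pool.Agent.Helper944_HC.menger hconn2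
    have hRR : ∀ i, ∃ (x y : V) (r : G.Walk x y), r.IsPath ∧ x ∈ {x | x ∈ D.support} ∧
        y ∈ {x | x = p ∨ x = q} ∧ (∀ v ∈ r.support, v ∈ {v | v ∈ L i}) ∧
        (∀ v ∈ r.support, v ∈ {x | x ∈ D.support} → v = x) ∧
        ∀ v ∈ r.support, v ∈ {x | x = p ∨ x = q} → v = y := by
      intro i
      obtain ⟨x, hx1, hx2⟩ := (hL i).head
      obtain ⟨y, hy1, hy2⟩ := (hL i).last
      obtain ⟨p, hp⟩ := walk_of_list (L i) (hL i).chain x y hx1 hy1
      refine trim _ _ {v | v ∈ L i} _ p rfl ?_ hx2 hy2 ?_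
      · rw [Walk.isPath_def, hp]; exact (hL i).nodup
      · intro v hv
        rw [hp] at hv
        exact hv
    choose x y RR hRp hx hy hRL hRX hRY using hRR
    have hdis : ∀ i j, i ≠ j → ∀ v ∈ (RR i).support, v ∉ (RR j).support := by
      intro i j hij v hv hv'
      exact hLd i j hij v (hRL i v hv) (hRL j v hv')
    have hRUS : ∀ i, ∀ v ∈ (RR i).support, v ∈ U ∨ v ∈ S := by
      intro i v hv
      have := (hL i).sub v (hRL i v hv)
      rwa [Finset.mem_union] at this
    have hn : s(p, q) ∉ R.edges := by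
      intro h
      have h1 := hR.eq_adj_toWalk_of_mem_edges h
      rw [h1] at heR hfR
      simp only [Adj.toWalk, Walk.edges_cons, Walk.edges_nil, List.mem_singleton] at heR hfR
      exact hef (heR.trans hfR.symm)
    -- the main computation
    have key : ∀ i j, i ≠ j → y i = p → y j = q → sgn σ D = 0 := by
      intro i j hij hyi hyj
      have hxij : x i ≠ x j := by
        intro h
        have h1 : ∀ t, t = x j → t ∈ (RR j).support := by
          intro t ht
          rw [ht]
          exact (RR j).start_mem_support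
        exact hdis i j hij (x i) (RR i).start_mem_support (h1 _ h)
      obtain ⟨A1, A2, hA1, hA2, hs1, hs2, hsum⟩ := arcs σ D hD (hx i) (hx j) hxij
      have hone : ∀ B : G.Walk (x i) (x j), B.IsPath → (∀ t ∈ B.support, t ∈ D.support) →
          sgn σ (RR i) + sgn σ B + sgn σ (RR j) + sgn σ R = ε := by
        intro B hB hBD
        have p1 : (((RR i).reverse.append B).append (RR j)).IsPath := by
          apply isPath_append
          · apply isPath_append (hRp i).reverse hB
            intro t ht ht'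
            rw [Walk.support_reverse, List.mem_reverse] at ht
            exact hRX i t ht (hBD t ht')
          · exact hRp j
          · intro t ht ht'
            rw [Walk.mem_support_append_iff, Walk.support_reverse, List.mem_reverse] at ht
            rcases ht with h | h
            · exact absurd ht' (hdis i j hij t h)
            · exact hRX j t ht' (hBD t h)
        have hT : ∃ T : G.Walk p q, T.IsPath ∧
            (∀ t ∈ T.support, t ∈ U ∨ t ∈ S) ∧
            sgn σ T = sgn σ (RR i) + sgn σ B + sgn σ (RR j) := by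
          refine ⟨(((RR i).reverse.append B).append (RR j)).copy hyi hyj, ?_, ?_, ?_⟩
          · rw [Walk.isPath_copy]; exact p1
          · intro t ht
            rw [Walk.support_copy, Walk.mem_support_append_iff, Walk.mem_support_append_iff,
              Walk.support_reverse, List.mem_reverse] at ht
            rcases ht with (h | h) | h
            · exact hRUS i t h
            · exact hDU t (hBD t h)
            · exact hRUS j t h
          · have : sgn σ ((((RR i).reverse.append B).append (RR j)).copy hyi hyj) =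
                sgn σ (((RR i).reverse.append B).append (RR j)) := by simp [sgn]
            rw [this, sgn_append, sgn_append, sgn_reverse]
        obtain ⟨T, hTp, hTU, hTs⟩ := hT
        obtain ⟨w, hw, hwR, hws⟩ := cycle_of_paths σ hpq T R hTp hR (by
          intro t ht ht'
          rcases hTU t ht with h | h
          · exact absurd h (hRU t ht')
          · rw [hSpq, Finset.mem_insert, Finset.mem_singleton] at h
            exact h) hn
        have := hm p w hw (hwR _ heR) (hwR _ hfR)
        rw [hws, hTs] at this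
        exact this
      have k1 := hone A1 hA1 hs1
      have k2 := hone A2 hA2 hs2
      rw [hsum]
      have : ∀ r u v s t ε : ZMod 2, r + u + s + t = ε → r + v + s + t = ε → u + v = 0 := by
        decide
      exact this _ _ _ _ _ _ k1 k2
    have n01 : (0 : Fin 2) ≠ 1 := by decide
    have hyne : y 0 ≠ y 1 := by
      intro h
      have h1 : ∀ t, t = y 1 → t ∈ (RR 1).support := by
        intro t ht
        rw [ht]
        exact (RR 1).end_mem_support
      exact hdis 0 1 n01 (y 0) (RR 0).end_mem_support (h1 _ h)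
    rcases hy 0 with h0 | h0 <;> rcases hy 1 with h1 | h1
    · exact absurd (h0.trans h1.symm) hyne
    · exact key 0 1 n01 h0 h1
    · exact key 1 0 n01.symm h1 h0
    · exact absurd (h0.trans h1.symm) hyne

end Pool.Agent.H99.SG
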