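import Pool.Agent.H99.SG.Orb
import Pool.Agent.H99.SG.RelOff

/-!
# The weight of the permutations, when every edge is in a circle through `e` and `f`
-/

set_option autoImplicit false

namespace Pool.Agent.H99.SG

open SimpleGraph Pool.Agent.Results.MP_790549_co.CommonNegativeCircles

variable {V : Type} {G : SimpleGraph V} {a b c d : V} {M : Equiv.Perm V}

theorem W_aux2 [Fintype V] [DecidableEq V] (σ : Sym2 V → ZMod 2) (hef : s(a, b) ≠ s(c, d)) (ε : ZMod 2)
    (hrel : ∀ g ∈ G.edgeSet, ∃ (u : V) (w : G.Walk u u), w.IsCycle ∧ s(a, b) ∈ w.edges ∧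
      s(c, d) ∈ w.edges ∧ g ∈ w.edges)
    (hm : ∀ (u : V) (w : G.Walk u u), w.IsCycle → s(a, b) ∈ w.edges → s(c, d) ∈ w.edges →
      sgn σ w = ε)
    (hab : a ≠ b) (hM : Val G a b c d M) (κ : ZMod 2) {na nb : ℕ}
    (ha2 : ∀ i < na, (M ^ i) a ≠ c ∧ (M ^ i) a ≠ d)
    (hb2 : ∀ i < nb, (M ^ i) b ≠ c ∧ (M ^ i) b ≠ d)
    (hna : (M ^ na) a = c ∨ (M ^ na) a = d) (hnb : (M ^ nb) b = c ∨ (M ^ nb) b = d)
    (hcd : ∀ x, (x = c ∨ x = d) → (x = (M ^ na) a ∨ x = (M ^ nb) b))
    (hκ : ∀ (P : G.Walk b ((M ^ nb) b)) (Q : G.Walk ((M ^ na) a) a), P.IsPath → Q.IsPath →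
      List.Disjoint P.support Q.support → sgn σ P + sgn σ Q = κ) : W σ c d M = κ := by
  obtain ⟨wa, a3, a4, a5⟩ := hM.path σ (Or.inl rfl) ha2
  obtain ⟨wb, b3, b4, b5⟩ := hM.path σ (Or.inr rfl) hb2
  have hdis : List.Disjoint wb.support wa.reverse.support := by
    intro x h1 h2
    rw [Walk.support_reverse, List.mem_reverse, a4] at h2
    rw [b4] at h1
    obtain ⟨j, hj, hj'⟩ := h1
    obtain ⟨i, hi, hi'⟩ := h2
    rcases Nat.lt_trichotomy i j with h | h | h
    · exact hM.clash (Or.inl rfl) hb2 h hj (hi'.trans hj'.symm)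
    · subst h
      exact hab ((M ^ i).injective (hi'.trans hj'.symm))
    · exact hM.clash (Or.inr rfl) ha2 h hi (hj'.trans hi'.symm)
  have hk := hκ wb wa.reverse b3 a3.reverse hdis
  rw [sgn_reverse] at hk
  -- the rest
  set F : Set (Sym2 V) := {g | ∃ x, (x ∈ wb.support ∨ x ∈ wa.reverse.support) ∧ x ∈ g} with hF
  have hbal : BalancedOff G σ F := by
    intro u w hw hwF
    have hoff : ∀ x ∈ w.support, ¬ (x ∈ wb.support ∨ x ∈ wa.reverse.support) := by
      intro x hx hx'
      obtain ⟨y, hy⟩ : ∃ y, s(x, y) ∈ w.edges := by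
        have h2 := hw.ncard_neighborSet_toSubgraph_eq_two hx
        have h3 : (w.toSubgraph.neighborSet x).Nonempty := by
          apply Set.nonempty_of_ncard_ne_zero; omega
        obtain ⟨y, hy⟩ := h3
        exact ⟨y, (Walk.adj_toSubgraph_iff_mem_edges).mp hy⟩
      exact hwF _ hy ⟨x, hx', by simp⟩
    have hend : ∀ x, (x = c ∨ x = d) → x ∈ wb.support ∨ x ∈ wa.reverse.support := by
      intro x hx
      rcases hcd x hx with h | h
      · right; rw [h]; exact wa.reverse.start_mem_support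
      · left; rw [h]; exact wb.end_mem_support
    exact rel_off σ hef ε hrel hm wb wa.reverse b3 a3.reverse hdis
      (Or.inr wa.reverse.end_mem_support) (Or.inl wb.start_mem_support) (hend c (Or.inl rfl))
      (hend d (Or.inr rfl)) κ hκ w hw
      (fun x hx h => hoff x hx (Or.inl h)) (fun x hx h => hoff x hx (Or.inr h))
  obtain ⟨s, hs⟩ := exists_potential σ F hbal
  -- splitting the sum
  set L : Finset V := Finset.univ.filter (fun x => x ≠ c ∧ x ≠ d) with hL
  set Sa : Finset V := (Finset.range na).image (fun i => (M ^ i) a) with hSa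
  set Sb : Finset V := (Finset.range nb).image (fun i => (M ^ i) b) with hSb
  have hSaL : Sa ⊆ L := by
    intro x hx
    simp only [hSa, Finset.mem_image, Finset.mem_range] at hx
    obtain ⟨i, hi, rfl⟩ := hx
    simp only [hL, Finset.mem_filter, Finset.mem_univ, true_and]
    exact ha2 i hi
  have hSbL : Sb ⊆ L := by
    intro x hx
    simp only [hSb, Finset.mem_image, Finset.mem_range] at hx
    obtain ⟨i, hi, rfl⟩ := hx
    simp only [hL, Finset.mem_filter, Finset.mem_univ, true_and]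
    exact hb2 i hi
  have hSab : Disjoint Sa Sb := by
    rw [Finset.disjoint_left]
    intro x hx hx'
    simp only [hSa, hSb, Finset.mem_image, Finset.mem_range] at hx hx'
    obtain ⟨i, hi, rfl⟩ := hx
    obtain ⟨j, hj, hj'⟩ := hx'
    apply hdis (a := (M ^ i) a)
    · rw [b4]; exact ⟨j, hj.le, hj'⟩
    · rw [Walk.support_reverse, List.mem_reverse, a4]; exact ⟨i, hi.le, rfl⟩
  have hsa : ∑ x ∈ Sa, wt σ x (M x) = sgn σ wa := by
    rw [a5, hSa, Finset.sum_image]
    intro i hi j hj hij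
    rw [Finset.coe_range, Set.mem_Iio] at hi hj
    exact hM.inj (Or.inl rfl) ha2 hi.le hj.le hij
  have hsb : ∑ x ∈ Sb, wt σ x (M x) = sgn σ wb := by
    rw [b5, hSb, Finset.sum_image]
    intro i hi j hj hij
    rw [Finset.coe_range, Set.mem_Iio] at hi hj
    exact hM.inj (Or.inr rfl) hb2 hi.le hj.le hij
  set T : Finset V := L \ (Sa ∪ Sb) with hT
  have hsplit : W σ c d M = ∑ x ∈ T, wt σ x (M x) + (sgn σ wa + sgn σ wb) := by
    rw [← hsa, ← hsb, ← Finset.sum_union hSab, hT, W]
    exact (Finset.sum_sdiff (Finset.union_subset hSaL hSbL)).symm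
  have hTm : ∀ x, x ∈ T ↔ (x ≠ c ∧ x ≠ d) ∧ (∀ i < na, (M ^ i) a ≠ x) ∧ ∀ i < nb, (M ^ i) b ≠ x := by
    intro x
    simp only [hT, hL, hSa, hSb, Finset.mem_sdiff, Finset.mem_filter, Finset.mem_univ, true_and,
      Finset.mem_union, Finset.mem_image, Finset.mem_range, not_or, not_exists, not_and, ne_eq]
  -- vertices in T are off the two paths
  have hsupp : ∀ x, (x ∈ wb.support ∨ x ∈ wa.reverse.support) ↔
      (∃ i ≤ nb, (M ^ i) b = x) ∨ ∃ i ≤ na, (M ^ i) a = x := by
    intro x
    rw [Walk.support_reverse, List.mem_reverse, a4, b4]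
  have hToff : ∀ x ∈ T, ¬ (x ∈ wb.support ∨ x ∈ wa.reverse.support) := by
    intro x hx h
    rw [hTm] at hx
    obtain ⟨⟨hxc, hxd⟩, hxa, hxb⟩ := hx
    rw [hsupp] at h
    rcases h with ⟨i, hi, h⟩ | ⟨i, hi, h⟩
    · rcases Nat.lt_or_ge i nb with h' | h'
      · exact hxb i h' h
      · have : i = nb := by omega
        subst this
        rw [h] at hnb
        rcases hnb with h2 | h2
        · exact hxc h2
        · exact hxd h2
    · rcases Nat.lt_or_ge i na with h' | h'
      · exact hxa i h' h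
      · have : i = na := by omega
        subst this
        rw [h] at hna
        rcases hna with h2 | h2
        · exact hxc h2
        · exact hxd h2
  have hToff' : ∀ x ∈ T, ¬ (M x ∈ wb.support ∨ M x ∈ wa.reverse.support) := by
    intro x hx h
    have hx' := hx
    rw [hTm] at hx
    obtain ⟨⟨hxc, hxd⟩, hxa, hxb⟩ := hx
    obtain ⟨m1, m2, m3⟩ := hM.step x hxc hxd
    rw [hsupp] at h
    rcases h with ⟨i, hi, h⟩ | ⟨i, hi, h⟩
    · cases i with
      | zero => exact m2 h.symm
      | succ j =>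
        rw [pow_succ', Equiv.Perm.mul_apply] at h
        exact hxb j (by omega) (M.injective h)
    · cases i with
      | zero => exact m1 h.symm
      | succ j =>
        rw [pow_succ', Equiv.Perm.mul_apply] at h
        exact hxa j (by omega) (M.injective h)
  have hTT : ∀ x ∈ T, M x ∈ T := by
    intro x hx
    have h1 := hToff' x hx
    rw [hsupp] at h1
    push Not at h1
    rw [hTm]
    refine ⟨⟨?_, ?_⟩, fun i hi => h1.2 i hi.le, fun i hi => h1.1 i hi.le⟩
    · intro h
      rcases hcd _ (Or.inl rfl) with h2 | h2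
      · exact h1.2 na le_rfl (h2 ▸ h.symm)
      · exact h1.1 nb le_rfl (h2 ▸ h.symm)
    · intro h
      rcases hcd _ (Or.inr rfl) with h2 | h2
      · exact h1.2 na le_rfl (h2 ▸ h.symm)
      · exact h1.1 nb le_rfl (h2 ▸ h.symm)
  have himg : T.image M = T := by
    apply Finset.eq_of_subset_of_card_le
    · intro x hx
      rw [Finset.mem_image] at hx
      obtain ⟨y, hy, rfl⟩ := hx
      exact hTT y hy
    · rw [Finset.card_image_of_injective _ M.injective]
  have hT0 : ∑ x ∈ T, wt σ x (M x) = 0 := by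
    have e1 : ∑ x ∈ T, wt σ x (M x) = ∑ x ∈ T, (s x + s (M x)) := by
      apply Finset.sum_congr rfl
      intro x hx
      have hx' := hx
      rw [hTm] at hx'
      rcases (hM.step x hx'.1.1 hx'.1.2).2.2 with h | h
      · rw [h, wt_self]
        exact (CharTwo.add_self_eq_zero _).symm
      · rw [wt_ne σ h.ne, hs x (M x) h, cob_mk]
        rintro ⟨y, hy, hy'⟩
        rw [Sym2.mem_iff] at hy'
        rcases hy' with rfl | rfl
        · exact hToff _ hx hy
        · exact hToff' _ hx hy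
    rw [e1, Finset.sum_add_distrib]
    have e2 : ∑ x ∈ T, s (M x) = ∑ x ∈ T, s x := by
      conv_rhs => rw [← himg]
      rw [Finset.sum_image (fun x _ y _ h => M.injective h)]
    rw [e2]
    exact CharTwo.add_self_eq_zero _
  rw [hsplit, hT0, zero_add, add_comm]
  exact hk

/-- every such permutation has the same weight -/
theorem W_eq2 [Fintype V] [DecidableEq V] (σ : Sym2 V → ZMod 2) (hef : s(a, b) ≠ s(c, d)) (ε : ZMod 2)
    (hrel : ∀ g ∈ G.edgeSet, ∃ (u : V) (w : G.Walk u u), w.IsCycle ∧ s(a, b) ∈ w.edges ∧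
      s(c, d) ∈ w.edges ∧ g ∈ w.edges)
    (hm : ∀ (u : V) (w : G.Walk u u), w.IsCycle → s(a, b) ∈ w.edges → s(c, d) ∈ w.edges →
      sgn σ w = ε)
    (hab : a ≠ b) (hbd : b ≠ d) (κ : ZMod 2)
    (hκ1 : ∀ (P : G.Walk b c) (Q : G.Walk d a), P.IsPath → Q.IsPath →
      List.Disjoint P.support Q.support → sgn σ P + sgn σ Q = κ)
    (hκ2 : ∀ (P : G.Walk b d) (Q : G.Walk c a), P.IsPath → Q.IsPath →
      List.Disjoint P.support Q.support → sgn σ P + sgn σ Q = κ)
    (hM : Val G a b c d M) : W σ c d M = κ := by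
  obtain ⟨na, hna, ha2⟩ := hM.first (Or.inl rfl)
  obtain ⟨nb, hnb, hb2⟩ := hM.first (s := b) (Or.inr rfl)
  have hne : (M ^ na) a ≠ (M ^ nb) b := by
    intro h
    rcases Nat.lt_trichotomy na nb with h1 | h1 | h1
    · exact hM.clash (Or.inl rfl) hb2 h1 le_rfl h
    · subst h1
      exact hab ((M ^ na).injective h)
    · exact hM.clash (Or.inr rfl) ha2 h1 le_rfl h.symm
  rcases hna with ea | ea <;> rcases hnb with eb | eb
  · exact absurd (ea.trans eb.symm) hne
  · by_cases hbc : b = c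
    · -- then the path of `b` has length zero
      exfalso
      have h0 : nb = 0 := by
        by_contra h
        exact (hb2 0 (by omega)).1 hbc
      subst h0
      exact hbd eb
    · refine W_aux2 σ hef ε hrel hm hab hM κ ha2 hb2 (Or.inl ea) (Or.inr eb) ?_ ?_
      · rintro x (rfl | rfl)
        · exact Or.inl ea.symm
        · exact Or.inr eb.symm
      · rw [ea, eb]; exact hκ2
  · refine W_aux2 σ hef ε hrel hm hab hM κ ha2 hb2 (Or.inr ea) (Or.inl eb) ?_ ?_
    · rintro x (rfl | rfl)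
      · exact Or.inr eb.symm
      · exact Or.inl ea.symm
    · rw [ea, eb]; exact hκ1
  · exact absurd (ea.trans eb.symm) hne

end Pool.Agent.H99.SG
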