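import Pool.Agent.H99.SG.Orb

/-!
# The permutation of a linkage
-/

set_option autoImplicit false

namespace Pool.Agent.H99.SG

open SimpleGraph Pool.Agent.Results.MP_790549_co.CommonNegativeCircles

variable {V : Type} {G : SimpleGraph V}

theorem path_perm [DecidableEq V] (σ : Sym2 V → ZMod 2) {u v : V} (P : G.Walk u v)
    (hP : P.IsPath) :
    ∃ τ : Equiv.Perm V, (∀ x, x ∉ P.support → τ x = x) ∧ τ v = u ∧
      (∀ x, x ∈ P.support → x ≠ v → G.Adj x (τ x) ∧ τ x ∈ P.support ∧ τ x ≠ u) ∧
      ∑ x ∈ P.support.toFinset.erase v, wt σ x (τ x) = sgn σ P := by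
  induction P with
  | nil =>
    refine ⟨1, fun x _ => rfl, rfl, ?_, ?_⟩
    · intro x hx hxv
      rw [Walk.support_nil, List.mem_singleton] at hx
      exact absurd hx hxv
    · simp [sgn_nil]
  | @cons u v' v h P' ih =>
    rw [Walk.cons_isPath_iff] at hP
    obtain ⟨τ, h1, h2, h3, h4⟩ := ih hP.1
    have hu : u ∉ P'.support := hP.2
    have hv : v ∈ P'.support := P'.end_mem_support
    have huv : u ≠ v := by rintro rfl; exact hu hv
    have hoth : ∀ x, x ≠ u → x ≠ v → (τ * Equiv.swap u v) x = τ x := by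
      intro x hxu hxv
      rw [Equiv.Perm.mul_apply, Equiv.swap_apply_of_ne_of_ne hxu hxv]
    have hτu : (τ * Equiv.swap u v) u = v' := by
      rw [Equiv.Perm.mul_apply, Equiv.swap_apply_left, h2]
    have hτv : (τ * Equiv.swap u v) v = u := by
      rw [Equiv.Perm.mul_apply, Equiv.swap_apply_right, h1 u hu]
    refine ⟨τ * Equiv.swap u v, ?_, hτv, ?_, ?_⟩
    · intro x hx
      rw [Walk.support_cons, List.mem_cons, not_or] at hx
      rw [hoth x hx.1 (fun h => hx.2 (h ▸ hv))]
      exact h1 x hx.2
    · intro x hx hxv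
      rw [Walk.support_cons, List.mem_cons] at hx
      by_cases hxu : x = u
      · rw [hxu, hτu]
        refine ⟨h, ?_, h.ne.symm⟩
        rw [Walk.support_cons]
        exact List.mem_cons_of_mem _ P'.start_mem_support
      · have hx' := hx.resolve_left hxu
        obtain ⟨k1, k2, k3⟩ := h3 x hx' hxv
        rw [hoth x hxu hxv]
        refine ⟨k1, ?_, ?_⟩
        · rw [Walk.support_cons]
          exact List.mem_cons_of_mem _ k2
        · rintro h'
          rw [h'] at k2
          exact hu k2
    · have e1 : (Walk.cons h P').support.toFinset.erase v =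
          insert u (P'.support.toFinset.erase v) := by
        rw [Walk.support_cons, List.toFinset_cons, Finset.erase_insert_of_ne huv]
      rw [e1, Finset.sum_insert, hτu, wt_ne σ h.ne, sgn_cons, ← h4]
      · congr 1
        apply Finset.sum_congr rfl
        intro x hx
        rw [Finset.mem_erase, List.mem_toFinset] at hx
        rw [hoth x (fun h' => hu (h' ▸ hx.2)) hx.1]
      · rw [Finset.mem_erase, List.mem_toFinset]
        exact fun h' => hu h'.2

theorem linkage_perm [Fintype V] [DecidableEq V] (σ : Sym2 V → ZMod 2) {a b c d c' d' : V}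
    (P : G.Walk a c') (Q : G.Walk b d') (hP : P.IsPath) (hQ : Q.IsPath)
    (hd : List.Disjoint P.support Q.support) (hcd : (c' = c ∧ d' = d) ∨ (c' = d ∧ d' = c)) :
    ∃ M : Equiv.Perm V, Val G a b c d M ∧ W σ c d M = sgn σ P + sgn σ Q := by
  obtain ⟨τ, p1, p2, p3, p4⟩ := path_perm σ P hP
  obtain ⟨τ', q1, q2, q3, q4⟩ := path_perm σ Q hQ
  have hor : ∀ x, (x = c ∨ x = d) ↔ (x = c' ∨ x = d') := by
    intro x
    rcases hcd with ⟨rfl, rfl⟩ | ⟨rfl, rfl⟩
    · exact Iff.rfl
    · exact or_comm
  have hMP : ∀ x, x ∈ P.support → (τ * τ') x = τ x := by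
    intro x hx
    rw [Equiv.Perm.mul_apply, q1 x (fun h => hd hx h)]
  have hMn : ∀ x, x ∉ P.support → x ∉ Q.support → (τ * τ') x = x := by
    intro x hx hx'
    rw [Equiv.Perm.mul_apply, q1 x hx', p1 x hx]
  have hMQ : ∀ x, x ∈ Q.support → (τ * τ') x = τ' x := by
    intro x hx
    rw [Equiv.Perm.mul_apply]
    apply p1
    intro h
    by_cases hxd : x = d'
    · rw [hxd, q2] at h
      exact hd h Q.start_mem_support
    · exact hd h (q3 x hx hxd).2.1
  have haQ : a ∉ Q.support := fun h => hd P.start_mem_support h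
  have hbP : b ∉ P.support := fun h => hd h Q.start_mem_support
  refine ⟨τ * τ', ⟨?_, ?_⟩, ?_⟩
  · intro x hx
    rw [hor] at hx
    rcases hx with rfl | rfl
    · left; rw [hMP _ P.end_mem_support, p2]
    · right; rw [hMQ _ Q.end_mem_support, q2]
  · intro x hc hdd
    have hx : x ≠ c' ∧ x ≠ d' := by
      have := (hor x).not.1 (by rw [not_or]; exact ⟨hc, hdd⟩)
      rwa [not_or] at this
    by_cases hxP : x ∈ P.support
    · obtain ⟨k1, k2, k3⟩ := p3 x hxP hx.1
      rw [hMP x hxP]
      exact ⟨k3, fun h => hbP (h ▸ k2), Or.inr k1⟩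
    · by_cases hxQ : x ∈ Q.support
      · obtain ⟨k1, k2, k3⟩ := q3 x hxQ hx.2
        rw [hMQ x hxQ]
        exact ⟨fun h => haQ (h ▸ k2), k3, Or.inr k1⟩
      · rw [hMn x hxP hxQ]
        exact ⟨fun h => hxP (h ▸ P.start_mem_support), fun h => hxQ (h ▸ Q.start_mem_support),
          Or.inl rfl⟩
  · rw [W]
    have e0 : (Finset.univ.filter (fun x => x ≠ c ∧ x ≠ d)) =
        Finset.univ.filter (fun x => x ≠ c' ∧ x ≠ d') := by
      apply Finset.filter_congr
      intro x _
      have := (hor x).not
      rwa [not_or, not_or] at this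
    rw [e0]
    have hsub : P.support.toFinset.erase c' ∪ Q.support.toFinset.erase d' ⊆
        Finset.univ.filter (fun x => x ≠ c' ∧ x ≠ d') := by
      intro x hx
      rw [Finset.mem_union, Finset.mem_erase, Finset.mem_erase, List.mem_toFinset,
        List.mem_toFinset] at hx
      rw [Finset.mem_filter]
      refine ⟨Finset.mem_univ _, ?_⟩
      rcases hx with h | h
      · exact ⟨h.1, fun h' => hd h.2 (h' ▸ Q.end_mem_support)⟩
      · exact ⟨fun h' => hd P.end_mem_support (h' ▸ h.2), h.1⟩
    rw [← Finset.sum_subset hsub, Finset.sum_union, ← p4, ← q4]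
    · congr 1
      · apply Finset.sum_congr rfl
        intro x hx
        rw [Finset.mem_erase, List.mem_toFinset] at hx
        rw [hMP x hx.2]
      · apply Finset.sum_congr rfl
        intro x hx
        rw [Finset.mem_erase, List.mem_toFinset] at hx
        rw [hMQ x hx.2]
    · rw [Finset.disjoint_left]
      intro x hx hx'
      rw [Finset.mem_erase, List.mem_toFinset] at hx hx'
      exact hd hx.2 hx'.2
    · intro x hx hx'
      rw [Finset.mem_filter] at hx
      rw [Finset.mem_union, Finset.mem_erase, Finset.mem_erase, List.mem_toFinset,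
        List.mem_toFinset, not_or, not_and, not_and] at hx'
      rw [hMn x (hx'.1 hx.2.1) (hx'.2 hx.2.2), wt_self]

end Pool.Agent.H99.SG
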