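import Pool.Agent.H99.SG.Pot

/-!
# Potentials on the strongly connected classes
-/

set_option autoImplicit false

namespace Pool.Agent.H99.SG

open Finset

section

variable {α : Type} {E : α → α → Prop} {D : α → α → ZMod 2}

/-- potentials which are right on the arcs inside strongly connected classes -/
theorem potential2 [Fintype α] [DecidableEq α] (hE : ∀ x, E x x) (hD : ∀ x, D x x = 0)
    (H : ∀ τ : Equiv.Perm α, (∀ x, E x (τ x)) → ∑ x, D x (τ x) = 0) :
    ∃ p : α → ZMod 2, ∀ x y, E x y → Relation.ReflTransGen E y x → D x y = p x + p y := by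
  have hw : ∀ x y, Relation.ReflTransGen E x y → ∃ n s, Wk E D n x y s := by
    intro x y h
    induction h with
    | refl => exact ⟨0, 0, Wk.refl x⟩
    | tail _ h ih =>
      obtain ⟨n, s, h1⟩ := ih
      exact ⟨_, _, h1.append (Wk.single h)⟩
  have hcl : ∀ n x s, Wk E D n x x s → s = 0 := by
    rintro n x s ⟨f, f0, fn, fE, rfl⟩
    exact closed hE hD H n f fE (fn.trans f0.symm)
  let st : Setoid α := ⟨fun x y => Relation.ReflTransGen E x y ∧ Relation.ReflTransGen E y x,
    fun x => ⟨Relation.ReflTransGen.refl, Relation.ReflTransGen.refl⟩,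
    fun h => ⟨h.2, h.1⟩, fun h1 h2 => ⟨h1.1.trans h2.1, h2.2.trans h1.2⟩⟩
  let r : α → α := fun x => (Quotient.mk st x).out
  have hr : ∀ x, Relation.ReflTransGen E (r x) x ∧ Relation.ReflTransGen E x (r x) := by
    intro x
    have h : st.r (Quotient.mk st x).out x := Quotient.exact (Quotient.out_eq (Quotient.mk st x))
    exact h
  have hrr : ∀ x y, Relation.ReflTransGen E x y → Relation.ReflTransGen E y x → r x = r y := by
    intro x y h1 h2
    show (Quotient.mk st x).out = (Quotient.mk st y).out
    have : Quotient.mk st x = Quotient.mk st y := Quotient.sound ⟨h1, h2⟩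
    rw [this]
  have hw1 : ∀ x, ∃ n s, Wk E D n (r x) x s := fun x => hw _ _ (hr x).1
  choose N S hN using hw1
  refine ⟨S, ?_⟩
  intro x y hxy hyx
  have e := hrr x y (Relation.ReflTransGen.single hxy) hyx
  obtain ⟨n, t, hT⟩ := hw y (r y) (hr y).2
  have h1 := hN x
  rw [e] at h1
  have k1 := hcl _ _ _ ((h1.append (Wk.single hxy)).append hT)
  have k2 := hcl _ _ _ ((hN y).append hT)
  have : ∀ a b c d : ZMod 2, a + b + c = 0 → d + c = 0 → b = a + d := by decide
  exact this _ _ _ _ k1 k2

end

end Pool.Agent.H99.SG
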