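import Pool.Agent.H99.SG.Off

/-!
# Circles disjoint from a linkage, when every edge is in a circle through `e` and `f`
-/

set_option autoImplicit false

namespace Pool.Agent.H99.SG

open SimpleGraph Pool.Agent.Results.MP_790549_co.CommonNegativeCircles

variable {V : Type} {G : SimpleGraph V}

/-- two ways around a circle, with more information -/
theorem arcs2 {z : V} (D : G.Walk z z) (hD : D.IsCycle) {x1 x2 : V}
    (h1 : x1 ∈ D.support) (h2 : x2 ∈ D.support) (h12 : x1 ≠ x2) :
    ∃ A1 A2 : G.Walk x1 x2, A1.IsPath ∧ A2.IsPath ∧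
      (∀ t, t ∈ A1.support → t ∈ A2.support → t = x1 ∨ t = x2) ∧
      (∀ g, g ∈ D.edges → g ∈ A1.edges ∨ g ∈ A2.edges) := by
  classical
  have hD' := hD.rotate h1
  have h2' : x2 ∈ (D.rotate x1 h1).support := by rwa [Walk.mem_support_rotate_iff]
  obtain ⟨q, r, hqr⟩ := Walk.mem_support_iff_exists_append.1 h2'
  have hc : (q.append r).IsCycle := hqr ▸ hD'
  have hq : ¬ q.Nil := Walk.not_nil_of_ne h12
  have hr : ¬ r.Nil := Walk.not_nil_of_ne h12.symm
  refine ⟨q, r.reverse, hc.isPath_of_append_left hr, (hc.isPath_of_append_right hq).reverse,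
    ?_, ?_⟩
  · intro t ht ht'
    rw [Walk.support_reverse, List.mem_reverse] at ht'
    by_contra hcon
    push Not at hcon
    have hn := hc.support_nodup
    rw [Walk.tail_support_append, List.nodup_append] at hn
    have e1 : t ∈ q.support.tail := by
      rw [Walk.mem_support_iff] at ht
      exact ht.resolve_left hcon.1
    have e2 : t ∈ r.support.tail := by
      rw [Walk.mem_support_iff] at ht'
      exact ht'.resolve_left hcon.2
    exact hn.2.2 t e1 t e2 rfl
  · intro g hg
    have : g ∈ (D.rotate x1 h1).edges := (D.rotate_edges x1 h1).perm.mem_iff.2 hg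
    rw [hqr, Walk.edges_append, List.mem_append] at this
    rw [Walk.edges_reverse, List.mem_reverse]
    exact this

/-- the first step of a walk out of a set -/
theorem exit (U : Set V) {u v : V} (w : G.Walk u v) (hu : u ∈ U) (hv : v ∉ U) :
    ∃ (y z : V) (h : G.Adj y z) (w1 : G.Walk u y) (w2 : G.Walk z v),
      w = w1.append (Walk.cons h w2) ∧ (∀ t ∈ w1.support, t ∈ U) ∧ z ∉ U := by
  induction w with
  | nil => exact absurd hu hv
  | @cons a b c h p ih =>
    by_cases hb : b ∈ U
    · obtain ⟨y, z, h', w1, w2, hw, h1, h2⟩ := ih hb hv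
      refine ⟨y, z, h', Walk.cons h w1, w2, by rw [Walk.cons_append, ← hw], ?_, h2⟩
      intro t ht
      rw [Walk.support_cons, List.mem_cons] at ht
      rcases ht with rfl | ht
      · exact hu
      · exact h1 t ht
    · refine ⟨a, b, h, Walk.nil, p, rfl, ?_, hb⟩
      intro t ht
      rw [Walk.support_nil, List.mem_singleton] at ht
      rw [ht]; exact hu

/-- two paths with the same ends and nothing else in common form a circle -/
theorem cycle_of_paths (σ : Sym2 V → ZMod 2) {p q : V} (hpq : p ≠ q) (T R : G.Walk p q)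
    (hT : T.IsPath) (hR : R.IsPath)
    (hTR : ∀ t, t ∈ T.support → t ∈ R.support → t = p ∨ t = q) (hn : s(p, q) ∉ R.edges) :
    ∃ w : G.Walk p p, w.IsCycle ∧ (∀ g ∈ R.edges, g ∈ w.edges) ∧ sgn σ w = sgn σ T + sgn σ R := by
  cases T with
  | nil => exact absurd rfl hpq
  | @cons _ v _ h T' =>
    rw [Walk.cons_isPath_iff] at hT
    refine ⟨Walk.cons h (T'.append R.reverse), ?_, ?_, ?_⟩
    · rw [Walk.cons_isCycle_iff]
      constructor
      · apply isPath_append hT.1 hR.reverse
        intro x hx hx'
        rw [Walk.support_reverse, List.mem_reverse] at hx'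
        rcases hTR x (by rw [Walk.support_cons]; exact List.mem_cons_of_mem _ hx) hx' with h | h
        · subst h
          exact absurd hx hT.2
        · exact h
      · rw [Walk.edges_append, Walk.edges_reverse, List.mem_append, List.mem_reverse, not_or]
        constructor
        · intro he
          exact hT.2 (T'.fst_mem_support_of_mem_edges he)
        · intro he
          have hv : v ∈ R.support := R.snd_mem_support_of_mem_edges he
          rcases hTR v (by rw [Walk.support_cons]; exact List.mem_cons_of_mem _ T'.start_mem_support)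
            hv with h' | h'
          · exact h.ne h'.symm
          · subst h'
            exact hn he
    · intro g hg
      rw [Walk.edges_cons, Walk.edges_append, Walk.edges_reverse]
      simp [hg]
    · rw [sgn_cons, sgn_append, sgn_reverse, sgn_cons]
      ring

/-- a circle through `e` and `f` and a vertex of `U`, where only `S` is adjacent to `U` -/
theorem cross [DecidableEq V] {a b c d : V} (U S : Finset V) (haU : a ∉ U) (hbU : b ∉ U) (hcU : c ∉ U)
    (hdU : d ∉ U) (hcl : ∀ u ∈ U, ∀ v, G.Adj u v → v ∈ U ∨ v ∈ S) {z : V} (w : G.Walk z z)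
    (hw : w.IsCycle) (he : s(a, b) ∈ w.edges) (hf : s(c, d) ∈ w.edges) {x : V}
    (hx : x ∈ w.support) (hxU : x ∈ U) (hS : S.card ≤ 2) :
    ∃ (p q : V) (R : G.Walk p q), p ≠ q ∧ S = {p, q} ∧ R.IsPath ∧ (∀ t ∈ R.support, t ∉ U) ∧
      s(a, b) ∈ R.edges ∧ s(c, d) ∈ R.edges := by
  have hax : a ≠ x := by rintro rfl; exact haU hxU
  have haw : a ∈ w.support := w.fst_mem_support_of_mem_edges he
  obtain ⟨A1, A2, hA1, hA2, hint, hed⟩ := arcs2 w hw haw hx hax
  -- the first entry into `U` of a path from `a` to `x`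
  have hsplit : ∀ A : G.Walk a x, A.IsPath → ∃ (p y : V) (h : G.Adj p y) (v1 : G.Walk a p)
      (v2 : G.Walk y x), A = v1.append (Walk.cons h v2) ∧ (∀ t ∈ v1.support, t ∉ U) ∧ y ∈ U ∧
      p ∈ S ∧ v1.IsPath ∧ (∀ t, t ∈ v1.support → t ∈ A.support) ∧
      (∀ t, t ∈ v2.support → t ∈ A.support) ∧
      ∀ t, t ∈ v1.support → t ∈ v2.support → False := by
    intro A hA
    obtain ⟨p, y, h, v1, v2, hv, h1, h2⟩ := exit {t | t ∉ U} A haU (fun h => h hxU)
    have hyU : y ∈ U := by
      by_contra h'
      exact h2 h'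
    refine ⟨p, y, h, v1, v2, hv, h1, hyU, ?_, ?_, ?_, ?_, ?_⟩
    · rcases hcl y hyU p h.symm with h' | h'
      · exact absurd h' (h1 p v1.end_mem_support)
      · exact h'
    · rw [hv] at hA; exact hA.of_append_left
    · intro t ht
      rw [hv, Walk.mem_support_append_iff]; exact Or.inl ht
    · intro t ht
      rw [hv, Walk.mem_support_append_iff, Walk.support_cons]
      exact Or.inr (List.mem_cons_of_mem _ ht)
    · intro t ht ht'
      rw [hv] at hA
      have e1 := append_inter hA ht (by rw [Walk.support_cons]; exact List.mem_cons_of_mem _ ht')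
      subst e1
      have hcons := hA.of_append_right
      rw [Walk.cons_isPath_iff] at hcons
      exact hcons.2 ht'
  obtain ⟨p, y, h, v1, v2, hv, g1, g2, g3, g4, g5, g6, g7⟩ := hsplit A1 hA1
  obtain ⟨p', y', h', v1', v2', hv', g1', g2', g3', g4', g5', g6', g7'⟩ := hsplit A2 hA2
  have hpA1 : p ∈ A1.support := g5 p v1.end_mem_support
  have hpA2 : p' ∈ A2.support := g5' p' v1'.end_mem_support
  have hpx : p ≠ x := by rintro rfl; exact g1 _ v1.end_mem_support hxU
  have hpx' : p' ≠ x := by rintro rfl; exact g1' _ v1'.end_mem_support hxU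
  -- v2 stays in U
  have hv2 : ∀ (p p' y : V) (v1 : G.Walk a p) (v2 : G.Walk y x) (A B : G.Walk a x), y ∈ U →
      S ⊆ {p, p'} → (∀ t, t ∈ v1.support → t ∈ v2.support → False) →
      (∀ t, t ∈ v2.support → t ∈ A.support) → p' ∈ B.support → p' ≠ x →
      (∀ t, t ∈ A.support → t ∈ B.support → t = a ∨ t = x) →
      ∀ t ∈ v2.support, t ∈ U := by
    intro p p' y v1 v2 A B hy hSs hdis hsub hpB hpx hAB t ht
    by_contra htU
    obtain ⟨q1, q2, hq⟩ := Walk.mem_support_iff_exists_append.1 ht
    obtain ⟨y1, z1, h1, w1, w2, hw1, hw2, hw3⟩ := exit {t | t ∈ U} q1 hy htU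
    have hzS : z1 ∈ S := by
      rcases hcl y1 (hw2 _ w1.end_mem_support) z1 h1 with h' | h'
      · exact absurd h' hw3
      · exact h'
    have hz2 : z1 ∈ v2.support := by
      rw [hq, Walk.mem_support_append_iff, hw1, Walk.mem_support_append_iff, Walk.support_cons]
      exact Or.inl (Or.inr (List.mem_cons_of_mem _ w2.start_mem_support))
    have := hSs hzS
    simp only [Finset.mem_insert, Finset.mem_singleton] at this
    rcases this with rfl | rfl
    · exact hdis _ v1.end_mem_support hz2
    · rcases hAB _ (hsub _ hz2) hpB with h' | h'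
      · rw [h'] at hz2
        exact hdis _ v1.start_mem_support hz2
      · exact hpx h'
  have hedge : ∀ (p y : V) (h : G.Adj p y) (v1 : G.Walk a p) (v2 : G.Walk y x) (A : G.Walk a x),
      A = v1.append (Walk.cons h v2) → (∀ t ∈ v2.support, t ∈ U) → ∀ k l : V, k ∉ U → l ∉ U →
      s(k, l) ∈ A.edges → s(k, l) ∈ v1.edges := by
    intro p y h v1 v2 A hv hv2U k l hk hl hkl
    rw [hv, Walk.edges_append, List.mem_append, Walk.edges_cons, List.mem_cons] at hkl
    rcases hkl with h1 | h1 | h1
    · exact h1
    · exfalso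
      have hyU := hv2U y v2.start_mem_support
      rw [Sym2.eq_iff] at h1
      rcases h1 with ⟨_, rfl⟩ | ⟨rfl, _⟩
      · exact hl hyU
      · exact hk hyU
    · exact absurd (hv2U k (v2.fst_mem_support_of_mem_edges h1)) hk
  -- p ≠ p'
  have hpp : p ≠ p' := by
    intro hpp
    have hpa : p = a := by
      rcases hint p hpA1 (hpp ▸ hpA2) with h1 | h1
      · exact h1
      · exact absurd h1 hpx
    have hpa' : p' = a := hpp ▸ hpa
    have hne : ∀ (p y : V) (h : G.Adj p y) (v1 : G.Walk a p) (v2 : G.Walk y x) (A : G.Walk a x),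
        A = v1.append (Walk.cons h v2) → A.IsPath → y ∈ U → p = a →
        s(a, b) ∉ A.edges := by
      intro p y h v1 v2 A hv hA hyU hpa hmem
      subst hpa
      rw [hv] at hA hmem
      have hnil := hA.of_append_left
      rw [Walk.isPath_iff_eq_nil] at hnil
      rw [hnil] at hA hmem
      rw [Walk.nil_append] at hA hmem
      rw [Walk.edges_cons, List.mem_cons] at hmem
      rw [Walk.cons_isPath_iff] at hA
      rcases hmem with h1 | h1
      · rw [Sym2.eq_iff] at h1
        rcases h1 with ⟨_, h1⟩ | ⟨h1, _⟩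
        · exact hbU (h1 ▸ hyU)
        · exact h.ne h1
      · exact hA.2 (v2.fst_mem_support_of_mem_edges h1)
    rcases hed _ he with h1 | h1
    · exact hne p y h v1 v2 A1 hv hA1 g2 hpa h1
    · exact hne p' y' h' v1' v2' A2 hv' hA2 g2' hpa' h1
  have hSeq : S = {p, p'} := by
    symm
    apply Finset.eq_of_subset_of_card_le
    · intro t ht
      simp only [Finset.mem_insert, Finset.mem_singleton] at ht
      rcases ht with rfl | rfl
      · exact g3
      · exact g3'
    · rw [Finset.card_pair hpp]; exact hS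
  have hv2U := hv2 p p' y v1 v2 A1 A2 g2 hSeq.le g7 g6 hpA2 hpx' hint
  have hv2U' := hv2 p' p y' v1' v2' A2 A1 g2' (by rw [hSeq, Finset.pair_comm]) g7' g6' hpA1 hpx
    (fun t ht ht' => hint t ht' ht)
  refine ⟨p, p', v1.reverse.append v1', hpp, hSeq, ?_, ?_, ?_, ?_⟩
  · apply isPath_append g4.reverse g4'
    intro t ht ht'
    rw [Walk.support_reverse, List.mem_reverse] at ht
    rcases hint t (g5 t ht) (g5' t ht') with h1 | h1
    · exact h1
    · exact absurd (h1 ▸ hxU) (g1 t ht)
  · intro t ht
    rw [Walk.mem_support_append_iff, Walk.support_reverse, List.mem_reverse] at ht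
    rcases ht with h1 | h1
    · exact g1 t h1
    · exact g1' t h1
  · rw [Walk.edges_append, Walk.edges_reverse, List.mem_append, List.mem_reverse]
    rcases hed _ he with h1 | h1
    · exact Or.inl (hedge p y h v1 v2 A1 hv hv2U a b haU hbU h1)
    · exact Or.inr (hedge p' y' h' v1' v2' A2 hv' hv2U' a b haU hbU h1)
  · rw [Walk.edges_append, Walk.edges_reverse, List.mem_append, List.mem_reverse]
    rcases hed _ hf with h1 | h1
    · exact Or.inl (hedge p y h v1 v2 A1 hv hv2U c d hcU hdU h1)
    · exact Or.inr (hedge p' y' h' v1' v2' A2 hv' hv2U' c d hcU hdU h1)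

end Pool.Agent.H99.SG
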