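import Pool.Agent.H99.SG.RelMain

/-!
# The certificate theorem for all finite signed graphs
-/

set_option autoImplicit false

namespace Pool.Agent.H99.SG

open SimpleGraph Pool.Agent.Results.MP_790549_co.CommonNegativeCircles

variable {V : Type} {G : SimpleGraph V}

/-- the union of all circles through `e` and `f` -/
def Rel (G : SimpleGraph V) (e f : Sym2 V) : SimpleGraph V :=
  SimpleGraph.fromEdgeSet {g | ∃ (u : V) (w : G.Walk u u), w.IsCycle ∧ e ∈ w.edges ∧ f ∈ w.edges ∧
    g ∈ w.edges}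

theorem mem_rel (e f g : Sym2 V) : g ∈ (Rel G e f).edgeSet ↔
    ∃ (u : V) (w : G.Walk u u), w.IsCycle ∧ e ∈ w.edges ∧ f ∈ w.edges ∧ g ∈ w.edges := by
  rw [Rel, SimpleGraph.edgeSet_fromEdgeSet]
  constructor
  · rintro ⟨h, _⟩
    exact h
  · intro h
    refine ⟨h, ?_⟩
    obtain ⟨u, w, _, _, _, hg⟩ := h
    exact G.not_isDiag_of_mem_edgeSet (w.edges_subset_edgeSet hg)

theorem to_rel {e f : Sym2 V} {u : V} (w : G.Walk u u) (hw : w.IsCycle) (he : e ∈ w.edges)
    (hf : f ∈ w.edges) : ∃ w' : (Rel G e f).Walk u u, w'.IsCycle ∧ w'.edges = w.edges := by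
  have h : ∀ g ∈ w.edges, g ∈ (Rel G e f).edgeSet := by
    intro g hg
    rw [mem_rel]
    exact ⟨u, w, hw, he, hf, hg⟩
  exact ⟨w.transfer _ h, hw.transfer h, w.edges_transfer h⟩

theorem of_rel {e f : Sym2 V} {u : V} (w : (Rel G e f).Walk u u) (hw : w.IsCycle) :
    ∃ w' : G.Walk u u, w'.IsCycle ∧ w'.edges = w.edges := by
  have h : ∀ g ∈ w.edges, g ∈ G.edgeSet := by
    intro g hg
    have := w.edges_subset_edgeSet hg
    rw [mem_rel] at this
    obtain ⟨_, w', _, _, _, hg'⟩ := this
    exact w'.edges_subset_edgeSet hg'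
  exact ⟨w.transfer _ h, hw.transfer h, w.edges_transfer h⟩

theorem rel_rel (e f : Sym2 V) : ∀ g ∈ (Rel G e f).edgeSet, ∃ (u : V) (w : (Rel G e f).Walk u u),
    w.IsCycle ∧ e ∈ w.edges ∧ f ∈ w.edges ∧ g ∈ w.edges := by
  intro g hg
  rw [mem_rel] at hg
  obtain ⟨u, w, hw, he, hf, hg⟩ := hg
  obtain ⟨w', hw', hE⟩ := to_rel w hw he hf
  refine ⟨u, w', hw', ?_, ?_, ?_⟩ <;> rw [hE] <;> assumption

theorem sgn_eq_of_edges (σ : Sym2 V → ZMod 2) {G G' : SimpleGraph V} {u v u' v' : V}
    (w : G.Walk u v) (w' : G'.Walk u' v') (h : w'.edges = w.edges) : sgn σ w' = sgn σ w := by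
  unfold sgn
  rw [h]

/-- all circles through `e` and `f` have the sign `ε` -/
def Mono' (G : SimpleGraph V) (σ : Sym2 V → ZMod 2) (e f : Sym2 V) (ε : ZMod 2) : Prop :=
  ∀ (u : V) (w : G.Walk u u), w.IsCycle → e ∈ w.edges → f ∈ w.edges → sgn σ w = ε

/-- the common sign -/
noncomputable def tot [Fintype V] (σ : Sym2 V → ZMod 2) (e f : Sym2 V) (π ρ : V → ZMod 2) :
    ZMod 2 :=
  open Classical in
  σ e + σ f + ∑ x ∈ Finset.univ.filter (fun x => x ∉ f), π x +
    ∑ x ∈ Finset.univ.filter (fun x => x ∉ e), ρ x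

theorem cert_exists [Fintype V] (σ : Sym2 V → ZMod 2) {a b c d : V}
    (hef : s(a, b) ≠ s(c, d)) (hbd : b ≠ d) (ε : ZMod 2)
    (hm : Mono' G σ s(a, b) s(c, d) ε)
    {u : V} (w : G.Walk u u) (hw : w.IsCycle) (he : s(a, b) ∈ w.edges) (hf : s(c, d) ∈ w.edges) :
    ∃ π ρ : V → ZMod 2, Cert (Rel G s(a, b) s(c, d)) σ s(a, b) s(c, d) π ρ := by
  classical
  obtain ⟨w', hw', hE⟩ := to_rel w hw he hf
  have he' : s(a, b) ∈ w'.edges := by rw [hE]; exact he
  have hf' : s(c, d) ∈ w'.edges := by rw [hE]; exact hf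
  have hab : (Rel G s(a, b) s(c, d)).Adj a b := w'.edges_subset_edgeSet he'
  have hcd : (Rel G s(a, b) s(c, d)).Adj c d := w'.edges_subset_edgeSet hf'
  obtain ⟨c', d', P, Q, hP, hQ, hd, hor, _⟩ := cycle_split σ hab.ne hef w' hw' he' hf'
  obtain ⟨M, hM, _⟩ := linkage_perm σ P Q hP hQ hd hor
  refine rel_potential σ hab hcd hef hbd ε (rel_rel _ _) ?_ hM
  intro u w hw he hf
  obtain ⟨w'', hw'', hE'⟩ := of_rel w hw
  rw [← sgn_eq_of_edges σ w w'' hE']
  exact hm u w'' hw'' (by rw [hE']; exact he) (by rw [hE']; exact hf)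

theorem mono_of_cert [Fintype V] (σ : Sym2 V → ZMod 2) {e f : Sym2 V} (hef : e ≠ f)
    (π ρ : V → ZMod 2) (hc : Cert (Rel G e f) σ e f π ρ) : Mono' G σ e f (tot σ e f π ρ) := by
  classical
  intro u w hw he hf
  obtain ⟨w', hw', hE⟩ := to_rel w hw he hf
  have he' : e ∈ w'.edges := by rw [hE]; exact he
  have hf' : f ∈ w'.edges := by rw [hE]; exact hf
  rw [← sgn_eq_of_edges σ w w' hE]
  have heE := w'.edges_subset_edgeSet he'
  clear hE he hf hw w
  induction e using Sym2.ind with
  | _ a b =>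
    induction f using Sym2.ind with
    | _ c d =>
      have hab : a ≠ b := by
        rw [mem_edgeSet] at heE
        exact heE.ne
      obtain ⟨c', d', P, Q, hP, hQ, hd, hor, hs⟩ := cycle_split σ hab hef w' hw' he' hf'
      obtain ⟨M, hM, hW⟩ := linkage_perm σ P Q hP hQ hd hor
      rw [hs, ← hW, W_cert σ hab hM π ρ hc, tot]
      have f1 : (Finset.univ.filter (fun x => x ∉ s(c, d))) =
          Finset.univ.filter (fun x => x ≠ c ∧ x ≠ d) := by
        apply Finset.filter_congr
        intro x _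
        rw [Sym2.mem_iff, not_or]
      have f2 : (Finset.univ.filter (fun x => x ∉ s(a, b))) =
          Finset.univ.filter (fun x => x ≠ a ∧ x ≠ b) := by
        apply Finset.filter_congr
        intro x _
        rw [Sym2.mem_iff, not_or]
      have g1 : ∑ x ∈ Finset.univ.filter (fun x => x ≠ c ∧ x ≠ d), π x =
          ∑ x ∈ Finset.univ.filter (fun x => x ∉ s(c, d)), π x := by rw [f1]
      have g2 : ∑ x ∈ Finset.univ.filter (fun x => x ≠ a ∧ x ≠ b), ρ x =
          ∑ x ∈ Finset.univ.filter (fun x => x ∉ s(a, b)), ρ x := by rw [f2]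
      rw [g1, g2, add_assoc (σ s(a, b) + σ s(c, d))]

/-- **The certificate theorem.** -/
theorem cert_iff [Fintype V] (σ : Sym2 V → ZMod 2) {e f : Sym2 V} (hef : e ≠ f) :
    (∃ ε, Mono' G σ e f ε) ↔ ∃ π ρ, Cert (Rel G e f) σ e f π ρ := by
  constructor
  · rintro ⟨ε, hm⟩
    by_cases hex : ∃ (u : V) (w : G.Walk u u), w.IsCycle ∧ e ∈ w.edges ∧ f ∈ w.edges
    · obtain ⟨u, w, hw, he, hf⟩ := hex
      induction e using Sym2.ind with
      | _ a b =>
        induction f using Sym2.ind with
        | _ c d =>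
          by_cases hbd : b = d
          · have hcd : c ≠ d := by
              have := w.edges_subset_edgeSet hf
              rw [mem_edgeSet] at this
              exact this.ne
            have hbc : b ≠ c := by rw [hbd]; exact hcd.symm
            rw [Sym2.eq_swap (a := c) (b := d)] at hef hm hf ⊢
            exact cert_exists σ hef hbc ε hm w hw he hf
          · exact cert_exists σ hef hbd ε hm w hw he hf
    · refine ⟨fun _ => 0, fun _ => 0, fun _ _ => rfl, ?_⟩
      intro x y hxy _
      exfalso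
      apply hex
      have : s(x, y) ∈ (Rel G e f).edgeSet := hxy
      rw [mem_rel] at this
      obtain ⟨u, w, hw, he, hf, _⟩ := this
      exact ⟨u, w, hw, he, hf⟩
  · rintro ⟨π, ρ, hc⟩
    exact ⟨_, mono_of_cert σ hef π ρ hc⟩

/-- 2-connected -/
def TwoConn (G : SimpleGraph V) : Prop :=
  3 ≤ Nat.card V ∧ ∀ S : Set V, S.ncard ≤ 1 → (G.induce Sᶜ).Connected

theorem common_circle [Finite V] (h2 : TwoConn G) {e f : Sym2 V} (he : e ∈ G.edgeSet)
    (hf : f ∈ G.edgeSet) (hef : e ≠ f) :
    ∃ (u : V) (w : G.Walk u u), w.IsCycle ∧ e ∈ w.edges ∧ f ∈ w.edges := by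
  classical
  have := Fintype.ofFinite V
  induction e using Sym2.ind with
  | _ a b =>
    induction f using Sym2.ind with
    | _ c d =>
      rw [mem_edgeSet] at he hf
      have hconn : Pool.Agent.Helper944_HC.Conn G.Adj (Finset.univ : Finset V)
          {x | x = a ∨ x = b} {x | x = c ∨ x = d} 2 := by
        intro S _ hS U hU hXU hCl
        have hpick : ∀ p q : V, p ≠ q → ∃ x, (x = p ∨ x = q) ∧ x ∉ S := by
          intro p q hpq
          by_contra hcon
          push Not at hcon
          have h1 : ({p, q} : Finset V) ⊆ S := by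
            intro x hx
            simp only [Finset.mem_insert, Finset.mem_singleton] at hx
            exact hcon x hx
          have h2 := Finset.card_le_card h1
          rw [Finset.card_pair hpq] at h2
          omega
        obtain ⟨x, hx, hxS⟩ := hpick a b he.ne
        obtain ⟨y, hy, hyS⟩ := hpick c d hf.ne
        have hc := h2.2 (S : Set V) (by rw [Set.ncard_coe_finset]; omega)
        obtain ⟨w⟩ := hc.preconnected ⟨x, by simpa using hxS⟩ ⟨y, by simpa using hyS⟩
        have hall : ∀ {u v : ((S : Set V)ᶜ : Set V)} (w : (G.induce (S : Set V)ᶜ).Walk u v),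
            u.1 ∈ U → v.1 ∈ U := by
          intro u v w
          induction w with
          | nil => exact id
          | @cons u v w h p ih =>
            intro hu
            refine ih (hCl _ hu _ ?_ h)
            rw [Finset.mem_sdiff]
            exact ⟨Finset.mem_univ _, fun h' => v.2 (Finset.mem_coe.2 h')⟩
        exact ⟨y, hall w (hXU x (by simp [hxS]) hx), hy⟩
      obtain ⟨L, hL, hLd⟩ := Pool.Agent.Helper944_HC.menger hconn
      have hR : ∀ i, ∃ (x y : V) (r : G.Walk x y), r.IsPath ∧ x ∈ {x | x = a ∨ x = b} ∧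
          y ∈ {x | x = c ∨ x = d} ∧ (∀ v ∈ r.support, v ∈ {v | v ∈ L i}) := by
        intro i
        obtain ⟨x, hx1, hx2⟩ := (hL i).head
        obtain ⟨y, hy1, hy2⟩ := (hL i).last
        obtain ⟨p, hp⟩ := walk_of_list (L i) (hL i).chain x y hx1 hy1
        refine ⟨x, y, p, ?_, hx2, hy2, ?_⟩
        · rw [Walk.isPath_def, hp]; exact (hL i).nodup
        · intro v hv
          rw [hp] at hv
          exact hv
      obtain ⟨x0, y0, R0, hR0, hx0, hy0, hs0⟩ := hR 0
      obtain ⟨x1, y1, R1, hR1, hx1, hy1, hs1⟩ := hR 1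
      have hdis : List.Disjoint R0.support R1.support := by
        intro v hv hv'
        exact hLd 0 1 (by decide) v (hs0 v hv) (hs1 v hv')
      have hxn : x1 ≠ x0 := by
        rintro rfl
        exact hdis R0.start_mem_support R1.start_mem_support
      have hyn : y0 ≠ y1 := by
        rintro rfl
        exact hdis R0.end_mem_support R1.end_mem_support
      have e1 : s(x1, x0) = s(a, b) := by
        rw [Sym2.eq_iff]
        rcases hx0 with rfl | rfl <;> rcases hx1 with rfl | rfl <;> simp_all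
      have e2 : s(y0, y1) = s(c, d) := by
        rw [Sym2.eq_iff]
        rcases hy0 with rfl | rfl <;> rcases hy1 with rfl | rfl <;> simp_all
      have a1 : G.Adj x1 x0 := by
        rw [← mem_edgeSet, e1]; exact he
      have a2 : G.Adj y0 y1 := by
        rw [← mem_edgeSet, e2]; exact hf
      obtain ⟨w, hw, hew, hfw, _⟩ := circ (fun _ => (0 : ZMod 2)) a1 a2 (by rw [e1, e2]; exact hef)
        R0 R1.reverse hR0 hR1.reverse (by
          intro v hv hv'
          rw [Walk.support_reverse, List.mem_reverse] at hv'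
          exact hdis hv hv')
      rw [e1] at hew
      rw [e2] at hfw
      exact ⟨_, w, hw, hew, hfw⟩

end Pool.Agent.H99.SG
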