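import Pool.Agent.H99.SG.Rel

/-!
# A circle through two edges gives a linkage
-/

set_option autoImplicit false

namespace Pool.Agent.H99.SG

open SimpleGraph Pool.Agent.Results.MP_790549_co.CommonNegativeCircles

variable {V : Type} {G : SimpleGraph V}

theorem arcs3 (σ : Sym2 V → ZMod 2) {z : V} (D : G.Walk z z) (hD : D.IsCycle) {x1 x2 : V}
    (h1 : x1 ∈ D.support) (h2 : x2 ∈ D.support) (h12 : x1 ≠ x2) :
    ∃ A1 A2 : G.Walk x1 x2, A1.IsPath ∧ A2.IsPath ∧
      (∀ g, g ∈ D.edges → g ∈ A1.edges ∨ g ∈ A2.edges) ∧ sgn σ D = sgn σ A1 + sgn σ A2 := by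
  classical
  have hD' := hD.rotate h1
  have h2' : x2 ∈ (D.rotate x1 h1).support := by rwa [Walk.mem_support_rotate_iff]
  obtain ⟨q, r, hqr⟩ := Walk.mem_support_iff_exists_append.1 h2'
  have hc : (q.append r).IsCycle := hqr ▸ hD'
  have hq : ¬ q.Nil := Walk.not_nil_of_ne h12
  have hr : ¬ r.Nil := Walk.not_nil_of_ne h12.symm
  refine ⟨q, r.reverse, hc.isPath_of_append_left hr, (hc.isPath_of_append_right hq).reverse,
    ?_, ?_⟩
  · intro g hg
    have : g ∈ (D.rotate x1 h1).edges := (D.rotate_edges x1 h1).perm.mem_iff.2 hg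
    rw [hqr, Walk.edges_append, List.mem_append] at this
    rw [Walk.edges_reverse, List.mem_reverse]
    exact this
  · have h3 : sgn σ D = sgn σ (D.rotate x1 h1) := by
      unfold sgn
      exact ((D.rotate_edges x1 h1).perm.map σ).sum_eq.symm
    rw [h3, hqr, sgn_append, sgn_reverse]

theorem edge_split {u v : V} (p : G.Walk u v) {g : Sym2 V} (hg : g ∈ p.edges) :
    ∃ (x y : V) (h : G.Adj x y) (p1 : G.Walk u x) (p2 : G.Walk y v),
      s(x, y) = g ∧ p = p1.append (Walk.cons h p2) := by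
  induction p with
  | nil => simp at hg
  | @cons a b c h p ih =>
    rw [Walk.edges_cons, List.mem_cons] at hg
    rcases hg with rfl | hg
    · exact ⟨a, b, h, Walk.nil, p, rfl, rfl⟩
    · obtain ⟨x, y, h', p1, p2, h1, h2⟩ := ih hg
      exact ⟨x, y, h', Walk.cons h p1, p2, h1, by rw [Walk.cons_append, ← h2]⟩

theorem cycle_split (σ : Sym2 V → ZMod 2) {a b c d : V} (hab : a ≠ b) (hef : s(a, b) ≠ s(c, d))
    {u : V} (w : G.Walk u u) (hw : w.IsCycle) (he : s(a, b) ∈ w.edges) (hf : s(c, d) ∈ w.edges) :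
    ∃ (c' d' : V) (P : G.Walk a c') (Q : G.Walk b d'), P.IsPath ∧ Q.IsPath ∧
      List.Disjoint P.support Q.support ∧ ((c' = c ∧ d' = d) ∨ (c' = d ∧ d' = c)) ∧
      sgn σ w = σ s(a, b) + σ s(c, d) + (sgn σ P + sgn σ Q) := by
  obtain ⟨A1, A2, hA1, hA2, hed, hsg⟩ := arcs3 σ w hw (w.fst_mem_support_of_mem_edges he)
    (w.snd_mem_support_of_mem_edges he) hab
  have key : ∀ A B : G.Walk a b, A.IsPath → B.IsPath → s(a, b) ∈ B.edges →
      s(c, d) ∈ A.edges ∨ s(c, d) ∈ B.edges → sgn σ w = sgn σ A + sgn σ B →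
      ∃ (c' d' : V) (P : G.Walk a c') (Q : G.Walk b d'), P.IsPath ∧ Q.IsPath ∧
      List.Disjoint P.support Q.support ∧ ((c' = c ∧ d' = d) ∨ (c' = d ∧ d' = c)) ∧
      sgn σ w = σ s(a, b) + σ s(c, d) + (sgn σ P + sgn σ Q) := by
    intro A B hA hB hBe hAB hs
    have hB1 := hB.eq_adj_toWalk_of_mem_edges hBe
    have hBs : sgn σ B = σ s(a, b) := by
      rw [hB1]
      simp [Adj.toWalk, sgn]
    have hAf : s(c, d) ∈ A.edges := by
      rcases hAB with h | h
      · exact h
      · exfalso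
        rw [hB1] at h
        simp only [Adj.toWalk, Walk.edges_cons, Walk.edges_nil, List.mem_singleton] at h
        exact hef h.symm
    obtain ⟨x, y, h, p1, p2, h1, h2⟩ := edge_split A hAf
    rw [h2] at hA
    have hc2 := hA.of_append_right
    rw [Walk.cons_isPath_iff] at hc2
    refine ⟨x, y, p1, p2.reverse, hA.of_append_left, hc2.1.reverse, ?_, ?_, ?_⟩
    · intro t ht ht'
      rw [Walk.support_reverse, List.mem_reverse] at ht'
      have := append_inter hA ht (by
        rw [Walk.support_cons]; exact List.mem_cons_of_mem _ ht')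
      rw [this] at ht'
      exact hc2.2 ht'
    · rw [Sym2.eq_iff] at h1
      exact h1
    · rw [hs, hBs, h2, sgn_append, sgn_cons, sgn_reverse, h1]
      ring
  rcases hed _ he with h | h
  · exact key A2 A1 hA2 hA1 h (hed _ hf).symm (by rw [hsg, add_comm])
  · exact key A1 A2 hA1 hA2 h (hed _ hf) hsg

end Pool.Agent.H99.SG
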