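import Pool.Agent.H99.SG.Orb2
import Pool.Agent.H99.SG.Pot2
import Pool.Agent.H99.SG.Perm
import Pool.Agent.H99.SG.Split

/-!
# The certificate theorem, when every edge is in a circle through `e` and `f`
-/

set_option autoImplicit false

namespace Pool.Agent.H99.SG

open SimpleGraph Pool.Agent.Results.MP_790549_co.CommonNegativeCircles

variable {V : Type} {G : SimpleGraph V}

/-- a separation of order at most two with `e` on the side `X` and `f` on the side `Y` -/
def Sep (H : SimpleGraph V) (e f : Sym2 V) (X Y : Set V) : Prop :=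
  (∀ v, v ∈ X ∨ v ∈ Y) ∧ (X ∩ Y).ncard ≤ 2 ∧ (∀ v ∈ e, v ∈ X) ∧ (∀ v ∈ f, v ∈ Y) ∧
    ∀ x y, H.Adj x y → (x ∈ X ∧ y ∈ X) ∨ (x ∈ Y ∧ y ∈ Y)

/-- no separation goes the wrong way -/
def Free (H : SimpleGraph V) (e f : Sym2 V) (x y : V) : Prop :=
  ∀ X Y, Sep H e f X Y → ¬ (x ∈ Y ∧ y ∈ X)

/-- a certificate -/
def Cert (H : SimpleGraph V) (σ : Sym2 V → ZMod 2) (e f : Sym2 V) (π ρ : V → ZMod 2) : Prop :=
  (∀ v, Free H e f v v → π v = ρ v) ∧
    ∀ x y, H.Adj x y → Free H e f x y → σ s(x, y) = π x + ρ y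

theorem free_of_val [Finite V] {a b c d : V} (hab : a ≠ b) {M : Equiv.Perm V}
    (hM : Val G a b c d M) {x : V} (hxc : x ≠ c) (hxd : x ≠ d) :
    Free G s(a, b) s(c, d) x (M x) := by
  rintro X Y ⟨h1, h2, h3, h4, h5⟩ ⟨hxY, hMX⟩
  have haX : a ∈ X := h3 a (by simp)
  have hbX : b ∈ X := h3 b (by simp)
  have hcY : c ∈ Y := h4 c (by simp)
  have hdY : d ∈ Y := h4 d (by simp)
  have hRX : Yᶜ ⊆ X := by
    intro v hv
    exact (h1 v).resolve_right hv
  have himg : M '' Yᶜ ⊆ X \ {a, b} := by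
    rintro _ ⟨r, hr, rfl⟩
    obtain ⟨k1, k2, k3⟩ := hM.step r (fun h => hr (h ▸ hcY)) (fun h => hr (h ▸ hdY))
    refine ⟨?_, ?_⟩
    · rcases k3 with k3 | k3
      · rw [k3]; exact hRX hr
      · rcases h5 r (M r) k3 with h | h
        · exact h.2
        · exact absurd h.1 hr
    · simp only [Set.mem_insert_iff, Set.mem_singleton_iff, not_or]
      exact ⟨k1, k2⟩
  have hXU : X ⊆ Yᶜ ∪ (X ∩ Y) := by
    intro v hv
    by_cases hvY : v ∈ Y
    · exact Or.inr ⟨hv, hvY⟩
    · exact Or.inl hvY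
  have hc1 : X.ncard ≤ Yᶜ.ncard + 2 := by
    have e1 := Set.ncard_le_ncard hXU (Set.toFinite _)
    have e2 := Set.ncard_union_le Yᶜ (X ∩ Y)
    omega
  have hc2 : (X \ {a, b}).ncard = X.ncard - 2 := by
    rw [Set.ncard_sdiff (by
      intro v hv
      simp only [Set.mem_insert_iff, Set.mem_singleton_iff] at hv
      rcases hv with rfl | rfl
      · exact haX
      · exact hbX) (Set.toFinite _), Set.ncard_pair hab]
  have heq : M '' Yᶜ = X \ {a, b} := by
    apply Set.eq_of_subset_of_ncard_le himg _ (Set.toFinite _)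
    rw [Set.ncard_image_of_injective _ M.injective, hc2]
    omega
  obtain ⟨k1, k2, _⟩ := hM.step x hxc hxd
  have hmem : M x ∈ M '' Yᶜ := by
    rw [heq]
    refine ⟨hMX, ?_⟩
    simp only [Set.mem_insert_iff, Set.mem_singleton_iff, not_or]
    exact ⟨k1, k2⟩
  obtain ⟨r, hr, hrx⟩ := hmem
  rw [M.injective hrx] at hr
  exact hr hxY

theorem W_cert [Fintype V] [DecidableEq V] (σ : Sym2 V → ZMod 2) {a b c d : V} (hab : a ≠ b)
    {M : Equiv.Perm V} (hM : Val G a b c d M) (π ρ : V → ZMod 2)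
    (hc : Cert G σ s(a, b) s(c, d) π ρ) :
    W σ c d M = ∑ x ∈ Finset.univ.filter (fun x => x ≠ c ∧ x ≠ d), π x +
      ∑ x ∈ Finset.univ.filter (fun x => x ≠ a ∧ x ≠ b), ρ x := by
  have e1 : W σ c d M = ∑ x ∈ Finset.univ.filter (fun x => x ≠ c ∧ x ≠ d), (π x + ρ (M x)) := by
    rw [W]
    apply Finset.sum_congr rfl
    intro x hx
    rw [Finset.mem_filter] at hx
    have hf := free_of_val hab hM hx.2.1 hx.2.2
    rcases (hM.step x hx.2.1 hx.2.2).2.2 with h | h
    · rw [h] at hf ⊢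
      rw [wt_self, hc.1 x hf]
      exact (CharTwo.add_self_eq_zero _).symm
    · rw [wt_ne σ h.ne]
      exact hc.2 x (M x) h hf
  rw [e1, Finset.sum_add_distrib]
  congr 1
  apply Finset.sum_equiv M
  · intro x
    simp only [Finset.mem_filter, Finset.mem_univ, true_and]
    constructor
    · rintro ⟨h1, h2⟩
      have := hM.step x h1 h2
      exact ⟨this.1, this.2.1⟩
    · intro h
      constructor
      · rintro rfl
        rcases hM.src x (Or.inl rfl) with h' | h'
        · exact h.1 h'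
        · exact h.2 h'
      · rintro rfl
        rcases hM.src x (Or.inr rfl) with h' | h'
        · exact h.1 h'
        · exact h.2 h'
  · intro x _
    rfl

theorem pair_le (a b : V) : ({a, b} : Set V).ncard ≤ 2 := by
  have h1 := Set.ncard_insert_le a ({b} : Set V)
  rw [Set.ncard_singleton] at h1
  exact h1

theorem sep_left (H : SimpleGraph V) (a b : V) (f : Sym2 V) : Sep H s(a, b) f {a, b} Set.univ := by
  refine ⟨fun v => Or.inr trivial, ?_, ?_, fun v _ => trivial, fun x y _ => Or.inr ⟨trivial, trivial⟩⟩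
  · rw [Set.inter_univ]; exact pair_le a b
  · intro v hv
    rw [Sym2.mem_iff] at hv
    exact hv

theorem sep_right (H : SimpleGraph V) (c d : V) (e : Sym2 V) : Sep H e s(c, d) Set.univ {c, d} := by
  refine ⟨fun v => Or.inl trivial, ?_, fun v _ => trivial, ?_, fun x y _ => Or.inl ⟨trivial, trivial⟩⟩
  · rw [Set.univ_inter]; exact pair_le c d
  · intro v hv
    rw [Sym2.mem_iff] at hv
    exact hv

theorem rel_potential [Fintype V] [DecidableEq V] (σ : Sym2 V → ZMod 2) {a b c d : V}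
    (hab : G.Adj a b) (hcd : G.Adj c d) (hef : s(a, b) ≠ s(c, d)) (hbd : b ≠ d) (ε : ZMod 2)
    (hrel : ∀ g ∈ G.edgeSet, ∃ (u : V) (w : G.Walk u u), w.IsCycle ∧ s(a, b) ∈ w.edges ∧
      s(c, d) ∈ w.edges ∧ g ∈ w.edges)
    (hm : ∀ (u : V) (w : G.Walk u u), w.IsCycle → s(a, b) ∈ w.edges → s(c, d) ∈ w.edges →
      sgn σ w = ε) {M : Equiv.Perm V} (hM : Val G a b c d M) :
    ∃ π ρ : V → ZMod 2, Cert G σ s(a, b) s(c, d) π ρ := by
  have hW : ∀ M : Equiv.Perm V, Val G a b c d M → W σ c d M = ε + (σ s(a, b) + σ s(c, d)) := by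
    intro M hM
    refine W_eq2 σ hef ε hrel hm hab.ne hbd _ ?_ ?_ hM
    · intro P Q hP hQ hd
      obtain ⟨w, hw, hew, hfw, hsg⟩ := circ σ hab hcd hef P Q hP hQ hd
      have h1 := hm _ w hw hew hfw
      rw [hsg] at h1
      have : ∀ a b c d : ZMod 2, a + b + c = d → c = d + (a + b) := by decide
      exact this _ _ _ _ h1
    · intro P Q hP hQ hd
      obtain ⟨w, hw, hew, hfw, hsg⟩ := circ σ hab hcd.symm (by rw [Sym2.eq_swap (a := d)]; exact hef)
        P Q hP hQ hd
      rw [Sym2.eq_swap (a := d)] at hfw hsg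
      have h1 := hm _ w hw hew hfw
      rw [hsg] at h1
      have : ∀ a b c d : ZMod 2, a + b + c = d → c = d + (a + b) := by decide
      exact this _ _ _ _ h1
  let α := {x : V // x ≠ c ∧ x ≠ d}
  let E : α → α → Prop := fun x y => M y.1 = x.1 ∨ G.Adj x.1 (M y.1)
  let D : α → α → ZMod 2 := fun x y => wt σ x.1 (M y.1) + wt σ x.1 (M x.1)
  have hE : ∀ x, E x x := fun x => (hM.step x.1 x.2.1 x.2.2).2.2
  have hD : ∀ x, D x x = 0 := fun x => CharTwo.add_self_eq_zero _
  -- the inverse image of a vertex outside `{a, b}`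
  have hpre : ∀ z, z ≠ a ∧ z ≠ b → M.symm z ≠ c ∧ M.symm z ≠ d := by
    rintro z ⟨hza, hzb⟩
    by_contra hcon
    have : M.symm z = c ∨ M.symm z = d := by
      by_contra h; push Not at h; exact hcon h
    have h2 := hM.src _ this
    rw [Equiv.apply_symm_apply] at h2
    rcases h2 with h | h
    · exact hza h
    · exact hzb h
  have hsum : ∀ M' : Equiv.Perm V, W σ c d M' = ∑ x : α, wt σ x.1 (M' x.1) := by
    intro M'
    rw [W]
    exact Finset.sum_subtype _ (by intro x; simp) (fun x => wt σ x (M' x))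
  have H : ∀ τ : Equiv.Perm α, (∀ x, E x (τ x)) → ∑ x, D x (τ x) = 0 := by
    intro τ hτ
    set τ' : Equiv.Perm V := Equiv.Perm.ofSubtype τ with hτ'
    have t1 : ∀ x : α, τ' x.1 = (τ x).1 := fun x => Equiv.Perm.ofSubtype_apply_coe τ x
    have t2 : ∀ x : V, ¬ (x ≠ c ∧ x ≠ d) → τ' x = x := fun x hx =>
      Equiv.Perm.ofSubtype_apply_of_not_mem τ hx
    have hM' : Val G a b c d (M * τ') := by
      constructor
      · intro x hx
        rw [Equiv.Perm.mul_apply, t2 x (by
          rintro ⟨h1, h2⟩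
          rcases hx with h | h
          · exact h1 h
          · exact h2 h)]
        exact hM.src x hx
      · intro x hc hd
        rw [Equiv.Perm.mul_apply, t1 ⟨x, hc, hd⟩]
        have h1 := hM.step (τ ⟨x, hc, hd⟩).1 (τ ⟨x, hc, hd⟩).2.1 (τ ⟨x, hc, hd⟩).2.2
        exact ⟨h1.1, h1.2.1, hτ ⟨x, hc, hd⟩⟩
    have e1 := hW _ hM'
    have e2 := hW _ hM
    rw [hsum] at e1 e2
    show ∑ x : α, (wt σ x.1 (M (τ x).1) + wt σ x.1 (M x.1)) = 0
    rw [Finset.sum_add_distrib, e2]
    have e3 : ∑ x : α, wt σ x.1 (M (τ x).1) = ε + (σ s(a, b) + σ s(c, d)) := by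
      rw [← e1]
      apply Finset.sum_congr rfl
      intro x _
      rw [Equiv.Perm.mul_apply, t1]
    rw [e3]
    exact CharTwo.add_self_eq_zero _
  obtain ⟨p, hp⟩ := potential2 hE hD H
  -- free pairs
  have hfree : ∀ x y, (x = y ∨ G.Adj x y) → Free G s(a, b) s(c, d) x y →
      ∃ (hx : x ≠ c ∧ x ≠ d) (hy : y ≠ a ∧ y ≠ b),
        wt σ x y + wt σ x (M x) = p ⟨x, hx⟩ + p ⟨M.symm y, hpre y hy⟩ := by
    intro x y hxy hF
    have hx : x ≠ c ∧ x ≠ d := by
      have := hF _ _ (sep_right G c d s(a, b))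
      constructor
      · rintro rfl
        exact this ⟨by simp, trivial⟩
      · rintro rfl
        exact this ⟨by simp, trivial⟩
    have hy : y ≠ a ∧ y ≠ b := by
      have := hF _ _ (sep_left G a b s(c, d))
      constructor
      · rintro rfl
        exact this ⟨trivial, by simp⟩
      · rintro rfl
        exact this ⟨trivial, by simp⟩
    refine ⟨hx, hy, ?_⟩
    have hMz : M (M.symm y) = y := Equiv.apply_symm_apply _ _
    have hxz : E ⟨x, hx⟩ ⟨M.symm y, hpre y hy⟩ := by
      show M (M.symm y) = x ∨ G.Adj x (M (M.symm y))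
      rw [hMz]
      rcases hxy with h | h
      · exact Or.inl h.symm
      · exact Or.inr h
    have hback : Relation.ReflTransGen E ⟨M.symm y, hpre y hy⟩ ⟨x, hx⟩ := by
      by_contra hcon
      set R : Set V := {v | ∃ h : v ≠ c ∧ v ≠ d,
        Relation.ReflTransGen E ⟨M.symm y, hpre y hy⟩ ⟨v, h⟩} with hR
      have hzR : M.symm y ∈ R := ⟨hpre y hy, Relation.ReflTransGen.refl⟩
      have hxR : x ∉ R := by
        rintro ⟨_, h⟩
        exact hcon h
      set X : Set V := {v | (v = a ∨ v = b) ∨ ∃ r ∈ R, v = r ∨ G.Adj r v} with hX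
      have hRX : R ⊆ X := fun r hr => Or.inr ⟨r, hr, Or.inl rfl⟩
      have hXs : X ⊆ {a, b} ∪ M '' R := by
        rintro v (hv | ⟨r, ⟨hr1, hr2⟩, hv⟩)
        · exact Or.inl (by simpa using hv)
        · by_cases hvab : v = a ∨ v = b
          · exact Or.inl (by simpa using hvab)
          · rw [not_or] at hvab
            refine Or.inr ⟨M.symm v, ⟨hpre v hvab, hr2.tail ?_⟩, Equiv.apply_symm_apply _ _⟩
            show M (M.symm v) = r ∨ G.Adj r (M (M.symm v))
            rw [Equiv.apply_symm_apply]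
            exact hv
      have hcard : X.ncard ≤ 2 + R.ncard := by
        have e1 := Set.ncard_le_ncard hXs (Set.toFinite _)
        have e2 := Set.ncard_union_le ({a, b} : Set V) (M '' R)
        have e3 := pair_le a b
        have e4 := Set.ncard_image_of_injective R M.injective
        omega
      have hsep : Sep G s(a, b) s(c, d) X Rᶜ := by
        refine ⟨?_, ?_, ?_, ?_, ?_⟩
        · intro v
          by_cases hv : v ∈ R
          · exact Or.inl (hRX hv)
          · exact Or.inr hv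
        · have e1 : X ∩ Rᶜ = X \ R := rfl
          rw [e1, Set.ncard_sdiff hRX (Set.toFinite _)]
          omega
        · intro v hv
          rw [Sym2.mem_iff] at hv
          exact Or.inl hv
        · intro v hv hvR
          obtain ⟨h, _⟩ := hvR
          rw [Sym2.mem_iff] at hv
          rcases hv with h' | h'
          · exact h.1 h'
          · exact h.2 h'
        · intro u v huv
          by_cases hu : u ∈ R
          · exact Or.inl ⟨hRX hu, Or.inr ⟨u, hu, Or.inr huv⟩⟩
          · by_cases hv : v ∈ R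
            · exact Or.inl ⟨Or.inr ⟨v, hv, Or.inr huv.symm⟩, hRX hv⟩
            · exact Or.inr ⟨hu, hv⟩
      refine hF _ _ hsep ⟨hxR, Or.inr ⟨M.symm y, hzR, ?_⟩⟩
      have := (hM.step (M.symm y) (hpre y hy).1 (hpre y hy).2).2.2
      rw [hMz] at this
      exact this
    have := hp _ _ hxz hback
    have h' : wt σ x (M (M.symm y)) + wt σ x (M x) = p ⟨x, hx⟩ + p ⟨M.symm y, hpre y hy⟩ := this
    rw [hMz] at h'
    exact h'
  let π : V → ZMod 2 := fun x => if h : x ≠ c ∧ x ≠ d then p ⟨x, h⟩ + wt σ x (M x) else 0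
  let ρ : V → ZMod 2 := fun y => if h : y ≠ a ∧ y ≠ b then p ⟨M.symm y, hpre y h⟩ else 0
  have hπρ : ∀ x y, (x = y ∨ G.Adj x y) → Free G s(a, b) s(c, d) x y → wt σ x y = π x + ρ y := by
    intro x y hxy hF
    obtain ⟨hx, hy, h⟩ := hfree x y hxy hF
    have hsx : π x = p ⟨x, hx⟩ + wt σ x (M x) := by
      simp only [π]; rw [dif_pos hx]
    have hsy : ρ y = p ⟨M.symm y, hpre y hy⟩ := by
      simp only [ρ]; rw [dif_pos hy]
    rw [hsx, hsy]
    have : ∀ w u p q : ZMod 2, w + u = p + q → w = p + u + q := by decide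
    exact this _ _ _ _ h
  refine ⟨π, ρ, ?_, ?_⟩
  · intro v hF
    have h := hπρ v v (Or.inl rfl) hF
    rw [wt_self] at h
    have : ∀ p q : ZMod 2, 0 = p + q → p = q := by decide
    exact this _ _ h
  · intro x y hxy hF
    rw [← wt_ne σ hxy.ne]
    exact hπρ x y (Or.inr hxy) hF

end Pool.Agent.H99.SG
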