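import Pool.Graph.R_seed8.Results.MP_790549_co.CommonNegativeCircles
import Pool.Graph.R_pool_sql_team_seeded_620a6dc7.Helper944_HC.Menger

/-!
# Rerouting a path through a disjoint circle
-/

set_option autoImplicit false

namespace Pool.Agent.H99.SG

open SimpleGraph Pool.Agent.Results.MP_790549_co.CommonNegativeCircles

variable {V : Type} {G : SimpleGraph V}

theorem isPath_append {u v w : V} {p : G.Walk u v} {q : G.Walk v w}
    (hp : p.IsPath) (hq : q.IsPath) (h : ∀ x, x ∈ p.support → x ∈ q.support → x = v) :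
    (p.append q).IsPath := by
  rw [Walk.isPath_def, Walk.support_append, List.nodup_append]
  refine ⟨hp.support_nodup, hq.support_nodup.tail, ?_⟩
  intro x hx y hy hxy
  subst hxy
  have hxq : x ∈ q.support := List.mem_of_mem_tail hy
  have hxv := h x hx hxq
  subst hxv
  have hn := hq.support_nodup
  rw [← Walk.cons_tail_support, List.nodup_cons] at hn
  exact hn.1 hy

theorem append_inter {u v w : V} {p : G.Walk u v} {q : G.Walk v w}
    (hpq : (p.append q).IsPath) {x : V} (h1 : x ∈ p.support) (h2 : x ∈ q.support) : x = v := by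
  by_contra hx
  exact hpq.ne_of_mem_support_of_append hx h1 h2 rfl

/-- two ways around a circle -/
theorem arcs (σ : Sym2 V → ZMod 2) {z : V} (D : G.Walk z z) (hD : D.IsCycle) {x1 x2 : V}
    (h1 : x1 ∈ D.support) (h2 : x2 ∈ D.support) (h12 : x1 ≠ x2) :
    ∃ A1 A2 : G.Walk x1 x2, A1.IsPath ∧ A2.IsPath ∧ (∀ x ∈ A1.support, x ∈ D.support) ∧
      (∀ x ∈ A2.support, x ∈ D.support) ∧ sgn σ D = sgn σ A1 + sgn σ A2 := by
  classical
  have hD' := hD.rotate h1
  have h2' : x2 ∈ (D.rotate x1 h1).support := by rwa [Walk.mem_support_rotate_iff]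
  obtain ⟨q, r, hqr⟩ := Walk.mem_support_iff_exists_append.1 h2'
  have hc : (q.append r).IsCycle := hqr ▸ hD'
  have hq : ¬ q.Nil := Walk.not_nil_of_ne h12
  have hr : ¬ r.Nil := Walk.not_nil_of_ne h12.symm
  have hs : ∀ x, x ∈ (q.append r).support → x ∈ D.support := by
    intro x hx
    rw [← hqr, Walk.mem_support_rotate_iff] at hx
    exact hx
  refine ⟨q, r.reverse, hc.isPath_of_append_left hr, (hc.isPath_of_append_right hq).reverse,
    ?_, ?_, ?_⟩
  · intro x hx
    exact hs x (by rw [Walk.mem_support_append_iff]; exact Or.inl hx)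
  · intro x hx
    rw [Walk.support_reverse, List.mem_reverse] at hx
    exact hs x (by rw [Walk.mem_support_append_iff]; exact Or.inr hx)
  · have h3 : sgn σ D = sgn σ (D.rotate x1 h1) := by
      unfold sgn
      exact ((D.rotate_edges x1 h1).perm.map σ).sum_eq.symm
    rw [h3, hqr, sgn_append, sgn_reverse]

theorem reroute_core (σ : Sym2 V → ZMod 2) {s t y1 y2 x1 x2 z : V} (S F : Set V)
    (A : G.Walk s y1) (C : G.Walk y2 t) (hA : A.IsPath) (hC : C.IsPath)
    (hAS : ∀ x ∈ A.support, x ∈ S) (hCS : ∀ x ∈ C.support, x ∈ S)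
    (hAC : ∀ x ∈ A.support, x ∉ C.support) (hSF : ∀ x ∈ S, x ∉ F) (κ : ZMod 2)
    (hκ : ∀ P' : G.Walk s t, P'.IsPath → (∀ x ∈ P'.support, x ∉ F) → sgn σ P' = κ)
    (D : G.Walk z z) (hD : D.IsCycle) (hDS : ∀ x ∈ D.support, x ∉ S)
    (hDF : ∀ x ∈ D.support, x ∉ F)
    (R1 : G.Walk x1 y1) (R2 : G.Walk x2 y2) (h1 : R1.IsPath) (h2 : R2.IsPath)
    (h12 : ∀ x ∈ R1.support, x ∉ R2.support) (hx1 : x1 ∈ D.support) (hx2 : x2 ∈ D.support)
    (h1D : ∀ x ∈ R1.support, x ∈ D.support → x = x1) (h1S : ∀ x ∈ R1.support, x ∈ S → x = y1)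
    (h2D : ∀ x ∈ R2.support, x ∈ D.support → x = x2) (h2S : ∀ x ∈ R2.support, x ∈ S → x = y2)
    (h1F : ∀ x ∈ R1.support, x ∉ F) (h2F : ∀ x ∈ R2.support, x ∉ F) : sgn σ D = 0 := by
  have hx12 : x1 ≠ x2 := by
    intro h
    exact h12 x1 R1.start_mem_support (h ▸ R2.start_mem_support)
  obtain ⟨A1, A2, hA1, hA2, hs1, hs2, hsum⟩ := arcs σ D hD hx1 hx2 hx12
  have key : ∀ B : G.Walk x1 x2, B.IsPath → (∀ x ∈ B.support, x ∈ D.support) →
      sgn σ A + sgn σ R1 + sgn σ B + sgn σ R2 + sgn σ C = κ := by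
    intro B hB hBD
    have p1 : (A.append R1.reverse).IsPath := by
      apply isPath_append hA h1.reverse
      intro x hx hx'
      rw [Walk.support_reverse, List.mem_reverse] at hx'
      exact h1S x hx' (hAS x hx)
    have p2 : (R2.append C).IsPath := by
      apply isPath_append h2 hC
      intro x hx hx'
      exact h2S x hx (hCS x hx')
    have p3 : (B.append (R2.append C)).IsPath := by
      apply isPath_append hB p2
      intro x hx hx'
      rw [Walk.mem_support_append_iff] at hx'
      rcases hx' with h | h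
      · exact h2D x h (hBD x hx)
      · exact absurd (hCS x h) (hDS x (hBD x hx))
    have p4 : ((A.append R1.reverse).append (B.append (R2.append C))).IsPath := by
      apply isPath_append p1 p3
      intro x hx hx'
      rw [Walk.mem_support_append_iff, Walk.support_reverse, List.mem_reverse] at hx
      rw [Walk.mem_support_append_iff, Walk.mem_support_append_iff] at hx'
      rcases hx with hx | hx <;> rcases hx' with h | h | h
      · exact absurd (hAS x hx) (hDS x (hBD x h))
      · have := h2S x h (hAS x hx)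
        subst this
        exact absurd C.start_mem_support (hAC _ hx)
      · exact absurd h (hAC x hx)
      · exact h1D x hx (hBD x h)
      · exact absurd h (h12 x hx)
      · have := h1S x hx (hCS x h)
        subst this
        exact absurd h (hAC _ A.end_mem_support)
    have h5 := hκ _ p4 (by
      intro x hx
      rw [Walk.mem_support_append_iff, Walk.mem_support_append_iff, Walk.mem_support_append_iff,
        Walk.mem_support_append_iff, Walk.support_reverse, List.mem_reverse] at hx
      rcases hx with (h | h) | h | h | h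
      · exact hSF x (hAS x h)
      · exact h1F x h
      · exact hDF x (hBD x h)
      · exact h2F x h
      · exact hSF x (hCS x h))
    rw [sgn_append, sgn_append, sgn_append, sgn_append, sgn_reverse] at h5
    rw [← h5]; ring
  have k1 := key A1 hA1 hs1
  have k2 := key A2 hA2 hs2
  rw [hsum]
  have : ∀ a r s c u v κ : ZMod 2, a + r + u + s + c = κ → a + r + v + s + c = κ → u + v = 0 := by
    decide
  exact this _ _ _ _ _ _ _ k1 k2

theorem reroute (σ : Sym2 V → ZMod 2) {s t y1 y2 x1 x2 z : V} (F : Set V)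
    (P : G.Walk s t) (hP : P.IsPath) (hPF : ∀ x ∈ P.support, x ∉ F) (κ : ZMod 2)
    (hκ : ∀ P' : G.Walk s t, P'.IsPath → (∀ x ∈ P'.support, x ∉ F) → sgn σ P' = κ)
    (D : G.Walk z z) (hD : D.IsCycle) (hDP : ∀ x ∈ D.support, x ∉ P.support)
    (hDF : ∀ x ∈ D.support, x ∉ F)
    (R1 : G.Walk x1 y1) (R2 : G.Walk x2 y2) (h1 : R1.IsPath) (h2 : R2.IsPath)
    (h12 : ∀ x ∈ R1.support, x ∉ R2.support) (hx1 : x1 ∈ D.support) (hx2 : x2 ∈ D.support)
    (hy1 : y1 ∈ P.support) (hy2 : y2 ∈ P.support)
    (h1D : ∀ x ∈ R1.support, x ∈ D.support → x = x1)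
    (h1P : ∀ x ∈ R1.support, x ∈ P.support → x = y1)
    (h2D : ∀ x ∈ R2.support, x ∈ D.support → x = x2)
    (h2P : ∀ x ∈ R2.support, x ∈ P.support → x = y2)
    (h1F : ∀ x ∈ R1.support, x ∉ F) (h2F : ∀ x ∈ R2.support, x ∉ F) : sgn σ D = 0 := by
  have hy12 : y1 ≠ y2 := by
    intro h
    exact h12 y1 R1.end_mem_support (h ▸ R2.end_mem_support)
  obtain ⟨q, r, hq, hr, hqr⟩ := hP.mem_support_iff_exists_append.1 hy2
  have hPath : (q.append r).IsPath := hqr ▸ hP
  have hqP : ∀ x ∈ q.support, x ∈ P.support := by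
    intro x hx; rw [hqr, Walk.mem_support_append_iff]; exact Or.inl hx
  have hrP : ∀ x ∈ r.support, x ∈ P.support := by
    intro x hx; rw [hqr, Walk.mem_support_append_iff]; exact Or.inr hx
  have hy1' : y1 ∈ q.support ∨ y1 ∈ r.support := by
    rw [hqr, Walk.mem_support_append_iff] at hy1; exact hy1
  rcases hy1' with h | h
  · obtain ⟨q1, q2, hq1, hq2, hq12⟩ := hq.mem_support_iff_exists_append.1 h
    have hPath2 : (q1.append q2).IsPath := hq12 ▸ hq
    have hq1q : ∀ x ∈ q1.support, x ∈ q.support := by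
      intro x hx; rw [hq12, Walk.mem_support_append_iff]; exact Or.inl hx
    refine reroute_core σ {x | x ∈ P.support} F q1 r hq1 hr (fun x hx => hqP x (hq1q x hx)) hrP ?_
      hPF κ hκ D hD hDP hDF R1 R2 h1 h2 h12 hx1 hx2 h1D h1P h2D h2P h1F h2F
    intro x hx hx'
    have e1 := append_inter hPath (hq1q x hx) hx'
    subst e1
    exact hy12 (append_inter hPath2 hx q2.end_mem_support).symm
  · obtain ⟨r1, r2, hr1, hr2, hr12⟩ := hr.mem_support_iff_exists_append.1 h
    have hPath2 : (r1.append r2).IsPath := hr12 ▸ hr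
    have hr2r : ∀ x ∈ r2.support, x ∈ r.support := by
      intro x hx; rw [hr12, Walk.mem_support_append_iff]; exact Or.inr hx
    refine reroute_core σ {x | x ∈ P.support} F q r2 hq hr2 hqP (fun x hx => hrP x (hr2r x hx)) ?_
      hPF κ hκ D hD hDP hDF R2 R1 h2 h1 (fun x hx hx' => h12 x hx' hx) hx2 hx1 h2D h2P h1D h1P
      h2F h1F
    intro x hx hx'
    have e1 := append_inter hPath hx (hr2r x hx')
    subst e1
    exact hy12 (append_inter hPath2 r1.start_mem_support hx').symm

/-- a walk from `X` to `Y` contains a path which meets `X` and `Y` only in its ends -/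
theorem trim (X Y T : Set V) : ∀ (n : ℕ) {x y : V} (p : G.Walk x y), p.length = n →
    p.IsPath → x ∈ X → y ∈ Y → (∀ v ∈ p.support, v ∈ T) →
    ∃ (x' y' : V) (r : G.Walk x' y'), r.IsPath ∧ x' ∈ X ∧ y' ∈ Y ∧ (∀ v ∈ r.support, v ∈ T) ∧
      (∀ v ∈ r.support, v ∈ X → v = x') ∧ ∀ v ∈ r.support, v ∈ Y → v = y' := by
  classical
  intro n
  induction n using Nat.strong_induction_on with
  | _ n ih =>
    intro x y p hpn hp hx hy hT
    by_cases h1 : ∀ v ∈ p.support, v ∈ X → v = x
    · by_cases h2 : ∀ v ∈ p.support, v ∈ Y → v = y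
      · exact ⟨x, y, p, hp, hx, hy, hT, h1, h2⟩
      · push Not at h2
        obtain ⟨v, hv, hvY, hvy⟩ := h2
        exact ih _ (hpn ▸ Walk.length_takeUntil_lt_length hv hvy) (p.takeUntil v hv) rfl
          (hp.takeUntil hv) hx hvY
          (fun w hw => hT w (p.support_takeUntil_subset_support hv hw))
    · push Not at h1
      obtain ⟨v, hv, hvX, hvx⟩ := h1
      exact ih _ (hpn ▸ Walk.length_dropUntil_lt_length hv hvx) (p.dropUntil v hv) rfl
        (hp.dropUntil hv) hvX hy
        (fun w hw => hT w (p.support_dropUntil_subset_support hv hw))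

theorem walk_of_list : ∀ (l : List V), l.IsChain G.Adj → ∀ x y, l.head? = some x →
    l.getLast? = some y → ∃ p : G.Walk x y, p.support = l := by
  intro l
  induction l with
  | nil => intro _ x y hx; simp at hx
  | cons a l ih =>
    intro hc x y hx hy
    simp only [List.head?_cons, Option.some.injEq] at hx
    subst hx
    cases l with
    | nil =>
      simp only [List.getLast?_singleton, Option.some.injEq] at hy
      subst hy
      exact ⟨Walk.nil, rfl⟩
    | cons b l =>
      rw [List.isChain_cons_cons] at hc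
      rw [List.getLast?_cons_cons] at hy
      obtain ⟨p, hp⟩ := ih hc.2 b y rfl hy
      exact ⟨Walk.cons hc.1 p, by rw [Walk.support_cons, hp]⟩

end Pool.Agent.H99.SG
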