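import Pool.Agent.H99.SG.Match

/-!
# 3-connected signed graphs: pairs of edges all of whose common circles have the same sign
-/

set_option autoImplicit false

namespace Pool.Agent.H99.SG

open SimpleGraph Pool.Agent.Results.MP_790549_co.CommonNegativeCircles

variable {V : Type} {G : SimpleGraph V}

/-- all circles through `e` and `f` have the same sign -/
def Mono (G : SimpleGraph V) (σ : Sym2 V → ZMod 2) (e f : Sym2 V) (ε : ZMod 2) : Prop :=
  ∀ (u : V) (w : G.Walk u u), w.IsCycle → e ∈ w.edges → f ∈ w.edges → sgn σ w = ε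

theorem three_neighbours (h3 : ThreeConn G) (v : V) :
    ∃ a b c, G.Adj v a ∧ G.Adj v b ∧ G.Adj v c ∧ a ≠ b ∧ a ≠ c ∧ b ≠ c := by
  obtain ⟨hcard, hcon⟩ := h3
  have hfin : Finite V := by
    by_contra h
    rw [not_finite_iff_infinite] at h
    rw [Nat.card_eq_zero_of_infinite] at hcard
    omega
  have hdeg : 3 ≤ (G.neighborSet v).ncard := by
    by_contra hlt
    have hle : (G.neighborSet v).ncard ≤ 2 := by omega
    have hc := hcon _ hle
    have hex : ∃ y, y ∉ insert v (G.neighborSet v) := by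
      by_contra hall
      push Not at hall
      have h1 : (Set.univ : Set V) ⊆ insert v (G.neighborSet v) := fun y _ => hall y
      have h2 := Set.ncard_le_ncard h1 (Set.toFinite _)
      have h3 := Set.ncard_insert_le v (G.neighborSet v)
      rw [Set.ncard_univ] at h2
      omega
    obtain ⟨y, hy⟩ := hex
    simp only [Set.mem_insert_iff, not_or] at hy
    have hv : v ∈ (G.neighborSet v)ᶜ := by simp
    obtain ⟨p⟩ := hc.preconnected ⟨v, hv⟩ ⟨y, hy.2⟩
    cases p with
    | nil => exact hy.1 rfl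
    | cons h q =>
      rename_i z
      exact z.2 h
  obtain ⟨T, hTs, hT⟩ := Set.exists_subset_card_eq hdeg
  rw [Set.ncard_eq_three] at hT
  obtain ⟨a, b, c, hab, hac, hbc, rfl⟩ := hT
  exact ⟨a, b, c, hTs (by simp), hTs (by simp), hTs (by simp), hab, hac, hbc⟩

theorem shared [Finite V] (σ : Sym2 V → ZMod 2) (h3 : ThreeConn G) {a u d : V} (hau : G.Adj a u)
    (hud : G.Adj u d) (had : a ≠ d) (ε : ZMod 2) (hm : Mono G σ s(a, u) s(u, d) ε) :
    BalancedOffVertex G σ u := by
  classical
  have := Fintype.ofFinite V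
  have hne : s(a, u) ≠ s(u, d) := by
    intro h
    rw [Sym2.eq_iff] at h
    rcases h with ⟨h1, _⟩ | ⟨h1, _⟩
    · exact hau.ne h1
    · exact had h1
  obtain ⟨s, hs⟩ := main_potential σ h3 (a := a) (b := u) (c := u) (d := d) hau.ne hau.ne had
    hud.ne hud.ne (ε + (σ s(a, u) + σ s(u, d))) (by
      intro P Q hP hQ hd
      obtain ⟨w, hw, hew, hfw, hsg⟩ := circ σ hau hud hne P Q hP hQ hd
      have h1 := hm _ w hw hew hfw
      rw [hsg] at h1
      have : ∀ a b c d : ZMod 2, a + b + c = d → c = d + (a + b) := by decide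
      exact this _ _ _ _ h1) (by
      intro P Q hP hQ hd
      exact (hd P.start_mem_support Q.start_mem_support).elim)
  apply off_vertex_of_off_edges σ u {g | u ∈ g} (fun g hg => hg)
  apply balancedOff_of_potential σ _ s
  intro x y hxy hxu
  rw [cob_mk]
  have hxu' : x ≠ u ∧ y ≠ u := by
    simp only [Set.mem_ofPred_eq, Sym2.mem_iff, not_or] at hxu
    exact ⟨fun h => hxu.1 h.symm, fun h => hxu.2 h.symm⟩
  by_cases h1 : x ≠ d ∧ y ≠ a
  · exact hs x y hxy hxu'.1 h1.1 h1.2 hxu'.2
  · have h2 : y ≠ d ∧ x ≠ a := by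
      by_contra h2
      have e1 : x = d ∨ y = a := by by_contra h; push Not at h; exact h1 h
      have e2 : y = d ∨ x = a := by by_contra h; push Not at h; exact h2 h
      rcases e1 with e1 | e1 <;> rcases e2 with e2 | e2
      · exact hxy.ne (e1.trans e2.symm)
      · exact had (e2.symm.trans e1)
      · exact had (e1.symm.trans e2)
      · exact hxy.ne (e2.trans e1.symm)
    have := hs y x hxy.symm hxu'.2 h2.1 h2.2 hxu'.1
    rw [Sym2.eq_swap, this, add_comm]

theorem disj [Finite V] (σ : Sym2 V → ZMod 2) (h3 : ThreeConn G) {a b c d : V} (hab : G.Adj a b)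
    (hcd : G.Adj c d) (hac : a ≠ c) (had : a ≠ d) (hbc : b ≠ c) (hbd : b ≠ d) (ε : ZMod 2)
    (hm : Mono G σ s(a, b) s(c, d) ε) : BalancedOff G σ {s(a, b), s(c, d)} := by
  classical
  have := Fintype.ofFinite V
  have hne : s(a, b) ≠ s(c, d) := by
    intro h
    rw [Sym2.eq_iff] at h
    rcases h with ⟨h1, _⟩ | ⟨h1, _⟩
    · exact hac h1
    · exact had h1
  obtain ⟨s, hs⟩ := main_potential σ h3 (a := a) (b := b) (c := c) (d := d) hab.ne hac had
    hbd hcd.ne (ε + (σ s(a, b) + σ s(c, d))) (by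
      intro P Q hP hQ hd
      obtain ⟨w, hw, hew, hfw, hsg⟩ := circ σ hab hcd hne P Q hP hQ hd
      have h1 := hm _ w hw hew hfw
      rw [hsg] at h1
      have : ∀ a b c d : ZMod 2, a + b + c = d → c = d + (a + b) := by decide
      exact this _ _ _ _ h1) (by
      intro P Q hP hQ hd
      obtain ⟨w, hw, hew, hfw, hsg⟩ := circ σ hab hcd.symm (by rw [Sym2.eq_swap (a := d)]; exact hne)
        P Q hP hQ hd
      rw [Sym2.eq_swap (a := d)] at hfw hsg
      have h1 := hm _ w hw hew hfw
      rw [hsg] at h1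
      have : ∀ a b c d : ZMod 2, a + b + c = d → c = d + (a + b) := by decide
      exact this _ _ _ _ h1)
  apply balancedOff_of_potential σ _ s
  intro x y hxy hF
  rw [cob_mk]
  simp only [Set.mem_insert_iff, Set.mem_singleton_iff, not_or, Sym2.eq_iff, not_and] at hF
  by_cases h1 : (x ≠ c ∧ x ≠ d) ∧ (y ≠ a ∧ y ≠ b)
  · exact hs x y hxy h1.1.1 h1.1.2 h1.2.1 h1.2.2
  · have h2 : (y ≠ c ∧ y ≠ d) ∧ (x ≠ a ∧ x ≠ b) := by
      have e1 : (x = c ∨ x = d) ∨ (y = a ∨ y = b) := by
        by_contra h; push Not at h; exact h1 h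
      have hne' := hxy.ne
      rcases e1 with (rfl | rfl) | (rfl | rfl)
      · exact ⟨⟨hne'.symm, fun h => (hF.2.1 rfl) h⟩, hac.symm, hbc.symm⟩
      · exact ⟨⟨fun h => (hF.2.2 rfl) h, hne'.symm⟩, had.symm, hbd.symm⟩
      · exact ⟨⟨hac, had⟩, hne', fun h => (hF.1.2 h) rfl⟩
      · exact ⟨⟨hbc, hbd⟩, fun h => (hF.1.1 h) rfl, hne'⟩
    have := hs y x hxy.symm h2.1.1 h2.1.2 h2.2.1 h2.2.2
    rw [Sym2.eq_swap, this, add_comm]

theorem mono_sufficient_pair (σ : Sym2 V → ZMod 2) {e f : Sym2 V} (hef : e ≠ f)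
    (hb : BalancedOff G σ {e, f}) : ∃ ε, Mono G σ e f ε := by
  classical
  obtain ⟨s, hs⟩ := exists_potential σ _ hb
  refine ⟨∑ g ∈ ({e, f} : Finset (Sym2 V)), (σ g + cob s g), ?_⟩
  intro u w hc he hf
  apply sgn_cycle σ s w hc {e, f}
  · intro g hg
    rw [Finset.mem_insert, Finset.mem_singleton] at hg
    rcases hg with rfl | rfl <;> assumption
  · intro g hg hgA
    have hE := w.edges_subset_edgeSet hg
    have hgF : g ∉ ({e, f} : Set (Sym2 V)) := by simpa using hgA
    induction g using Sym2.ind with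
    | _ x y => exact hs x y hE hgF

theorem mono_sufficient_vertex (σ : Sym2 V → ZMod 2) {e f : Sym2 V} (hef : e ≠ f) {v : V}
    (hve : v ∈ e) (hvf : v ∈ f) (hv : BalancedOffVertex G σ v) : ∃ ε, Mono G σ e f ε := by
  classical
  obtain ⟨s, hs⟩ := exists_potential σ _ (off_edges_of_off_vertex σ v hv)
  obtain ⟨x, rfl⟩ := Sym2.mem_iff_exists.mp hve
  obtain ⟨y, rfl⟩ := Sym2.mem_iff_exists.mp hvf
  have hxy : x ≠ y := by
    rintro rfl
    exact hef rfl
  refine ⟨∑ g ∈ ({s(v, x), s(v, y)} : Finset (Sym2 V)), (σ g + cob s g), ?_⟩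
  intro u w hcy hew hfw
  apply sgn_cycle σ s w hcy {s(v, x), s(v, y)}
  · intro g hg
    rw [Finset.mem_insert, Finset.mem_singleton] at hg
    rcases hg with rfl | rfl <;> assumption
  · intro g hg hgA
    by_cases hvg : v ∈ g
    · exfalso
      obtain ⟨z, rfl⟩ := Sym2.mem_iff_exists.mp hvg
      have hvs : v ∈ w.support := Walk.mem_support_of_mem_edges hew (by simp)
      have h2 := hcy.ncard_neighborSet_toSubgraph_eq_two hvs
      have hx' : x ∈ w.toSubgraph.neighborSet v :=
        (Walk.adj_toSubgraph_iff_mem_edges).mpr hew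
      have hy' : y ∈ w.toSubgraph.neighborSet v :=
        (Walk.adj_toSubgraph_iff_mem_edges).mpr hfw
      have hz' : z ∈ w.toSubgraph.neighborSet v :=
        (Walk.adj_toSubgraph_iff_mem_edges).mpr hg
      obtain ⟨p, q, hpq, hset⟩ := Set.ncard_eq_two.mp h2
      rw [hset] at hx' hy' hz'
      simp only [Set.mem_insert_iff, Set.mem_singleton_iff] at hx' hy' hz'
      have : z = x ∨ z = y := by
        rcases hx' with rfl | rfl <;> rcases hy' with rfl | rfl <;>
          rcases hz' with rfl | rfl <;> simp_all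
      rcases this with rfl | rfl
      · simp at hgA
      · simp at hgA
    · have hE := w.edges_subset_edgeSet hg
      induction g using Sym2.ind with
      | _ p q => exact hs p q hE hvg

/-- **The local theorem.** -/
theorem mono_iff [Finite V] (σ : Sym2 V → ZMod 2) (h3 : ThreeConn G) {e f : Sym2 V}
    (he : e ∈ G.edgeSet) (hf : f ∈ G.edgeSet) (hef : e ≠ f) :
    (∃ ε, Mono G σ e f ε) ↔
      (BalancedOff G σ {e, f} ∨ ∃ v, v ∈ e ∧ v ∈ f ∧ BalancedOffVertex G σ v) := by
  constructor
  · rintro ⟨ε, hm⟩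
    by_cases hsh : ∃ v, v ∈ e ∧ v ∈ f
    · right
      obtain ⟨u, hue, huf⟩ := hsh
      refine ⟨u, hue, huf, ?_⟩
      obtain ⟨a, rfl⟩ := Sym2.mem_iff_exists.mp hue
      obtain ⟨d, rfl⟩ := Sym2.mem_iff_exists.mp huf
      have had : a ≠ d := by
        rintro rfl
        exact hef rfl
      rw [mem_edgeSet] at he hf
      rw [Sym2.eq_swap (a := u) (b := a)] at hm
      exact shared σ h3 he.symm hf had ε hm
    · left
      induction e using Sym2.ind with
      | _ a b =>
        induction f using Sym2.ind with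
        | _ c d =>
          push Not at hsh
          rw [mem_edgeSet] at he hf
          have ha := hsh a (by simp)
          have hb := hsh b (by simp)
          simp only [Sym2.mem_iff, not_or] at ha hb
          exact disj σ h3 he hf ha.1 ha.2 hb.1 hb.2 ε hm
  · rintro (h | ⟨v, h1, h2, h⟩)
    · exact mono_sufficient_pair σ hef h
    · exact mono_sufficient_vertex σ hef h1 h2 h

/-- **The negative pair property of 3-connected signed graphs.** -/
theorem negPair_iff [Finite V] (σ : Sym2 V → ZMod 2) (h3 : ThreeConn G) :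
    NegPair G σ ↔ (∀ v, ¬ BalancedOffVertex G σ v) ∧
      ∀ e ∈ G.edgeSet, ∀ f ∈ G.edgeSet, e ≠ f → ¬ BalancedOff G σ {e, f} := by
  constructor
  · intro hN
    have hv : ∀ v, ¬ BalancedOffVertex G σ v := by
      intro v hv
      obtain ⟨a, b, c, ha, hb, hc, hab, hac, hbc⟩ := three_neighbours h3 v
      exact vertex_necessary σ hN v a b c ha hb hc hab hac hbc hv
    refine ⟨hv, ?_⟩
    intro e he f hf hef hb
    have key : ∀ g : Sym2 V, ¬ BalancedOff G σ {g} := by
      intro g hg
      induction g using Sym2.ind with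
      | _ x y =>
        exact hv x (off_vertex_of_off_edges σ x {s(x, y)} (by
          intro g hg
          rw [Set.mem_singleton_iff] at hg
          rw [hg]; simp) hg)
    rcases pair_necessary σ hN e f he hf hef hb with h | h
    · exact key e h
    · exact key f h
  · rintro ⟨hv, hb⟩ e he f hf hef
    by_contra hcon
    push Not at hcon
    have hm : Mono G σ e f 0 := by
      intro u w hw hew hfw
      exact zmod2_ne (hcon u w hw hew hfw)
    rcases (mono_iff σ h3 he hf hef).1 ⟨0, hm⟩ with h | ⟨v, _, _, h⟩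
    · exact hb e he f hf hef h
    · exact hv v h

end Pool.Agent.H99.SG
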