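import Pool.Agent.H99.SG.ChainMain

/-!
# Consecutive separations
-/

set_option autoImplicit false

namespace Pool.Agent.H99.SG

open SimpleGraph Pool.Agent.Results.MP_790549_co.CommonNegativeCircles

variable {V : Type} {G : SimpleGraph V}

/-- two separations with no separation strictly between them -/
def Tight (G : SimpleGraph V) (e f : Sym2 V) (p q : Set V × Set V) : Prop :=
  Cut2 G e f p ∧ Cut2 G e f q ∧ p.1 ⊆ q.1 ∧ q.2 ⊆ p.2 ∧
    ∀ r, Cut2 G e f r → p.1 ⊆ r.1 → r.2 ⊆ p.2 → r.1 ⊆ q.1 → q.2 ⊆ r.2 → r = p ∨ r = q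

theorem chain_of_tight [Finite V] (σ : Sym2 V → ZMod 2) {H : SimpleGraph V} {e f : Sym2 V}
    (hbal : ∀ p q, Tight G e f p q → BalSeg H σ p q) (n : ℕ) :
    ∀ p q : Set V × Set V, (q.1 \ p.1).ncard + (p.2 \ q.2).ncard ≤ n →
      Cut2 G e f p → Cut2 G e f q → p.1 ⊆ q.1 → q.2 ⊆ p.2 →
      Relation.ReflTransGen (Step2 G H σ e f) p q := by
  induction n with
  | zero =>
    intro p q hn hp hq h1 h2
    have e1 : (q.1 \ p.1).ncard = 0 := by omega
    have e2 : (p.2 \ q.2).ncard = 0 := by omega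
    rw [Set.ncard_eq_zero (Set.toFinite _), Set.sdiff_eq_empty] at e1 e2
    have : p = q := Prod.ext (h1.antisymm e1) (e2.antisymm h2)
    rw [this]
  | succ n ih =>
    intro p q hn hp hq h1 h2
    by_cases hex : ∃ r : Set V × Set V, Cut2 G e f r ∧ p.1 ⊆ r.1 ∧ r.2 ⊆ p.2 ∧
        r.1 ⊆ q.1 ∧ q.2 ⊆ r.2 ∧ r ≠ p ∧ r ≠ q
    · obtain ⟨r, hr, r1, r2, r3, r4, r5, r6⟩ := hex
      have lt1 : (r.1 \ p.1).ncard + (p.2 \ r.2).ncard ≤ n := by
        have f1 : (r.1 \ p.1).ncard ≤ (q.1 \ p.1).ncard :=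
          Set.ncard_le_ncard (Set.sdiff_subset_sdiff_left r3) (Set.toFinite _)
        have f2 : (p.2 \ r.2).ncard ≤ (p.2 \ q.2).ncard :=
          Set.ncard_le_ncard (Set.sdiff_subset_sdiff_right r4) (Set.toFinite _)
        by_contra hcon
        have g1 : (r.1 \ p.1).ncard = (q.1 \ p.1).ncard := by omega
        have g2 : (p.2 \ r.2).ncard = (p.2 \ q.2).ncard := by omega
        have k1 := Set.eq_of_subset_of_ncard_le (Set.sdiff_subset_sdiff_left r3) g1.ge
          (Set.toFinite _)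
        have k2 := Set.eq_of_subset_of_ncard_le (Set.sdiff_subset_sdiff_right r4) g2.ge
          (Set.toFinite _)
        apply r6
        apply Prod.ext
        · apply r3.antisymm
          intro v hv
          by_cases hvp : v ∈ p.1
          · exact r1 hvp
          · have : v ∈ r.1 \ p.1 := by rw [k1]; exact ⟨hv, hvp⟩
            exact this.1
        · apply Set.Subset.antisymm _ r4
          intro v hv
          by_contra hvq
          have : v ∈ p.2 \ r.2 := by rw [k2]; exact ⟨r2 hv, hvq⟩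
          exact this.2 hv
      have lt2 : (q.1 \ r.1).ncard + (r.2 \ q.2).ncard ≤ n := by
        have f1 : (q.1 \ r.1).ncard ≤ (q.1 \ p.1).ncard :=
          Set.ncard_le_ncard (Set.sdiff_subset_sdiff_right r1) (Set.toFinite _)
        have f2 : (r.2 \ q.2).ncard ≤ (p.2 \ q.2).ncard :=
          Set.ncard_le_ncard (Set.sdiff_subset_sdiff_left r2) (Set.toFinite _)
        by_contra hcon
        have g1 : (q.1 \ r.1).ncard = (q.1 \ p.1).ncard := by omega
        have g2 : (r.2 \ q.2).ncard = (p.2 \ q.2).ncard := by omega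
        have k1 := Set.eq_of_subset_of_ncard_le (Set.sdiff_subset_sdiff_right r1) g1.ge
          (Set.toFinite _)
        have k2 := Set.eq_of_subset_of_ncard_le (Set.sdiff_subset_sdiff_left r2) g2.ge
          (Set.toFinite _)
        apply r5
        apply Prod.ext
        · apply Set.Subset.antisymm _ r1
          intro v hv
          by_contra hvp
          have : v ∈ q.1 \ r.1 := by rw [k1]; exact ⟨r3 hv, hvp⟩
          exact this.2 hv
        · apply r2.antisymm
          intro v hv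
          by_cases hvq : v ∈ q.2
          · exact r4 hvq
          · have : v ∈ r.2 \ q.2 := by rw [k2]; exact ⟨hv, hvq⟩
            exact this.1
      exact (ih p r lt1 hp hr r1 r2).trans (ih r q lt2 hr hq r3 r4)
    · refine Relation.ReflTransGen.single ⟨hp, hq, h1, h2, hbal p q ⟨hp, hq, h1, h2, ?_⟩⟩
      intro r hr r1 r2 r3 r4
      by_contra hcon
      rw [not_or] at hcon
      exact hex ⟨r, hr, r1, r2, r3, r4, hcon.1, hcon.2⟩

theorem tight_bal [Finite V] (σ : Sym2 V → ZMod 2) {H : SimpleGraph V} (hle : H ≤ G)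
    {a b c d : V} (hab : a ≠ b)
    {M : Equiv.Perm V} (hM : Val H a b c d M)
    (hdir : ∀ x y, H.Adj x y → s(x, y) ≠ s(a, b) → s(x, y) ≠ s(c, d) →
      Free H s(a, b) s(c, d) x y ∨ Free H s(a, b) s(c, d) y x)
    (hin : ∀ v, Free G s(a, b) s(c, d) v v → Free H s(a, b) s(c, d) v v)
    {π ρ : V → ZMod 2} (hc : Cert H σ s(a, b) s(c, d) π ρ) {p q : Set V × Set V}
    (htight : Tight G s(a, b) s(c, d) p q) : BalSeg H σ p q := by
  obtain ⟨hp, hq, h1, h2, hex⟩ := htight
  -- inner vertices are free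
  have inner : ∀ v, v ∈ q.1 → v ∈ p.2 → v ∉ p.1 → v ∉ q.2 →
      Free G s(a, b) s(c, d) v v := by
    intro v hvq hvp hvp' hvq' X Y hXY hv
    have hr0 : Cut G s(a, b) s(c, d) (X, Y) := ⟨hXY.1, hXY.2.2.1, hXY.2.2.2.1, hXY.2.2.2.2⟩
    have hr0c : (X ∩ Y).ncard ≤ 2 := hXY.2.1
    have hj := hr0.sup hp.1
    have hm := hr0.inf hp.1
    have hjc : ((X ∪ p.1) ∩ (Y ∩ p.2)).ncard ≤ 2 := by
      have e1 := submod (X, Y) p
      have e2 := min_order hab hM (hm.mono hle)
      have e3 := hp.2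
      simp only at e1 e2 ⊢
      omega
    have hj2 := hj.inf hq.1
    have hj3 := hj.sup hq.1
    have hrc : (((X ∪ p.1) ∩ q.1) ∩ ((Y ∩ p.2) ∪ q.2)).ncard ≤ 2 := by
      have e1 := submod (X ∪ p.1, Y ∩ p.2) q
      have e2 := min_order hab hM (hj3.mono hle)
      have e3 := hq.2
      simp only at e1 e2 hjc ⊢
      omega
    have hr : Cut2 G s(a, b) s(c, d) ((X ∪ p.1) ∩ q.1, (Y ∩ p.2) ∪ q.2) := ⟨hj2, hrc⟩
    have hv1 : v ∈ (X ∪ p.1) ∩ q.1 := ⟨Or.inl hv.2, hvq⟩
    have hv2 : v ∈ (Y ∩ p.2) ∪ q.2 := Or.inl ⟨hv.1, hvp⟩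
    rcases hex _ hr (fun t ht => ⟨Or.inr ht, h1 ht⟩)
      (by
        rintro t (ht | ht)
        · exact ht.2
        · exact h2 ht) (fun t ht => ht.2) (fun t ht => Or.inr ht) with h | h
    · apply hvp'
      rw [← h]
      exact hv1
    · apply hvq'
      rw [← h]
      exact hv2
  classical
  rw [balSeg_iff]
  refine ⟨fun v => if v ∈ p.1 then π v else ρ v, ?_⟩
  have dircase : ∀ x y, H.Adj x y → Between p q x y → Free H s(a, b) s(c, d) x y →
      σ s(x, y) = (if x ∈ p.1 then π x else ρ x) + (if y ∈ p.1 then π y else ρ y) := by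
    intro x y hxy hb hF
    obtain ⟨b1, b2, b3, b4, b5, b6⟩ := hb
    have hFp := hF _ _ (hp.mono hle).sep
    have hFq := hF _ _ (hq.mono hle).sep
    have hy1 : y ∉ p.1 := fun h => hFp ⟨b1.2, h⟩
    have hx2 : x ∉ q.2 := fun h => hFq ⟨h, b2.1⟩
    rw [hc.2 x y hxy hF, if_neg hy1]
    by_cases hx1 : x ∈ p.1
    · rw [if_pos hx1]
    · rw [if_neg hx1, hc.1 x (hin x (inner x b1.1 b1.2 hx1 hx2))]
  intro x y hxy hb
  have hne : s(x, y) ≠ s(a, b) := by
    intro h
    have hx : x ∈ s(a, b) := by rw [← h]; simp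
    have hy : y ∈ s(a, b) := by rw [← h]; simp
    exact hb.2.2.1 ⟨hp.1.2.1 x hx, hp.1.2.1 y hy⟩
  have hne' : s(x, y) ≠ s(c, d) := by
    intro h
    have hx : x ∈ s(c, d) := by rw [← h]; simp
    have hy : y ∈ s(c, d) := by rw [← h]; simp
    exact hb.2.2.2.1 ⟨hq.1.2.2.1 x hx, hq.1.2.2.1 y hy⟩
  rcases hdir x y hxy hne hne' with h | h
  · exact dircase x y hxy hb h
  · have := dircase y x hxy.symm hb.symm h
    rw [Sym2.eq_swap, this, add_comm]

theorem tight_of_mono [Finite V] (σ : Sym2 V → ZMod 2) {e f : Sym2 V} (he : e ∈ G.edgeSet)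
    (hf : f ∈ G.edgeSet) (hef : e ≠ f) (h : ∃ ε, Mono' G σ e f ε) {p q : Set V × Set V}
    (hpq : Tight G e f p q) : BalSeg (Rel G e f) σ p q := by
  classical
  have := Fintype.ofFinite V
  by_cases hex : ∃ (u : V) (w : G.Walk u u), w.IsCycle ∧ e ∈ w.edges ∧ f ∈ w.edges
  · obtain ⟨π, ρ, hc⟩ := (cert_iff σ hef).1 h
    obtain ⟨u, w, hw, hew, hfw⟩ := hex
    have hin : ∀ v, Free G e f v v → Free (Rel G e f) e f v v := by
      intro v hv
      obtain ⟨u, w, hw, hew, hfw, hvw⟩ := missed_of_free he hf hef hv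
      exact free_of_missed hef w hw hew hfw hvw
    obtain ⟨w', hw', hE⟩ := to_rel w hw hew hfw
    have he' : e ∈ w'.edges := by rw [hE]; exact hew
    have hf' : f ∈ w'.edges := by rw [hE]; exact hfw
    clear hE hew hfw hw w
    induction e using Sym2.ind with
    | _ a b =>
      induction f using Sym2.ind with
      | _ c d =>
        have hab : a ≠ b := by
          rw [mem_edgeSet] at he
          exact he.ne
        obtain ⟨c', d', P, Q, hP, hQ, hd, hor, _⟩ := cycle_split σ hab hef w' hw' he' hf'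
        obtain ⟨M, hM, _⟩ := linkage_perm σ P Q hP hQ hd hor
        refine tight_bal σ (rel_le _ _) hab hM ?_ hin hc hpq
        intro x y hxy h1 h2
        obtain ⟨u'', w'', hw'', he'', hf'', hg''⟩ := rel_rel _ _ s(x, y)
          ((mem_edgeSet (Rel G s(a, b) s(c, d))).2 hxy)
        exact free_dir hab hef w'' hw'' he'' hf'' hg'' h1 h2
  · rw [balSeg_iff]
    refine ⟨fun _ => 0, ?_⟩
    intro x y hxy _
    exfalso
    apply hex
    have : s(x, y) ∈ (Rel G e f).edgeSet := hxy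
    rw [mem_rel] at this
    obtain ⟨u, w, hw, he, hf, _⟩ := this
    exact ⟨u, w, hw, he, hf⟩

theorem cut_first (e f : Sym2 V) : Cut2 G e f ({v | v ∈ e}, Set.univ) := by
  refine ⟨⟨fun v => Or.inr trivial, fun v hv => hv, fun v _ => trivial,
    fun x y _ => Or.inr ⟨trivial, trivial⟩⟩, ?_⟩
  show ({v | v ∈ e} ∩ Set.univ).ncard ≤ 2
  rw [Set.inter_univ]; exact ends_le e

theorem cut_last (e f : Sym2 V) : Cut2 G e f (Set.univ, {v | v ∈ f}) := by
  refine ⟨⟨fun v => Or.inl trivial, fun v _ => trivial, fun v hv => hv,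
    fun x y _ => Or.inl ⟨trivial, trivial⟩⟩, ?_⟩
  show (Set.univ ∩ {v | v ∈ f}).ncard ≤ 2
  rw [Set.univ_inter]; exact ends_le f

/-- **The theorem on consecutive separations.** -/
theorem tight_iff [Finite V] (σ : Sym2 V → ZMod 2) {e f : Sym2 V} (he : e ∈ G.edgeSet)
    (hf : f ∈ G.edgeSet) (hef : e ≠ f) :
    (∃ ε, Mono' G σ e f ε) ↔ ∀ p q, Tight G e f p q → BalSeg (Rel G e f) σ p q := by
  constructor
  · intro h p q hpq
    exact tight_of_mono σ he hf hef h hpq
  · intro h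
    rw [chain_iff σ he hf hef]
    exact chain_of_tight σ h _ _ _ le_rfl (cut_first e f) (cut_last e f) (Set.subset_univ _)
      (Set.subset_univ _)

/-- the negative pair property of 2-connected graphs -/
theorem negPair_iff2 [Finite V] (σ : Sym2 V → ZMod 2) (h2 : TwoConn G) :
    NegPair G σ ↔ ∀ e ∈ G.edgeSet, ∀ f ∈ G.edgeSet, e ≠ f →
      (∀ p q, Tight G e f p q → BalSeg (Rel G e f) σ p q) →
      ∀ (u : V) (w : G.Walk u u), w.IsCycle → e ∈ w.edges → f ∈ w.edges → sgn σ w ≠ 0 := by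
  constructor
  · intro hN e he f hf hef ht u w hw hew hfw h0
    obtain ⟨ε, hm⟩ := (tight_iff σ he hf hef).2 ht
    obtain ⟨u', w', hw', he', hf', h1⟩ := hN e he f hf hef
    have e1 := hm u w hw hew hfw
    have e2 := hm u' w' hw' he' hf'
    rw [h0] at e1
    rw [h1, ← e1] at e2
    exact one_ne_zero e2
  · intro h e he f hf hef
    by_contra hcon
    push Not at hcon
    have hm : Mono' G σ e f 0 := by
      intro u w hw hew hfw
      have := hcon u w hw hew hfw
      have h0 : ∀ x : ZMod 2, x ≠ 1 → x = 0 := by decide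
      exact h0 _ this
    obtain ⟨u, w, hw, hew, hfw⟩ := common_circle h2 he hf hef
    exact h e he f hf hef ((tight_iff σ he hf hef).1 ⟨0, hm⟩) u w hw hew hfw (hm u w hw hew hfw)

end Pool.Agent.H99.SG
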