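import Pool.Agent.H99.SG.Tight

/-!
# The certificate in terms of circles
-/

set_option autoImplicit false

namespace Pool.Agent.H99.SG

open SimpleGraph Pool.Agent.Results.MP_790549_co.CommonNegativeCircles

variable {V : Type} {G : SimpleGraph V}

/-- some circle through `e` and `f` runs from `e` over `x` and then `y` to `f` -/
def Runs (G : SimpleGraph V) (e f : Sym2 V) (x y : V) : Prop :=
  ∃ (a b c d : V) (P : G.Walk a c) (Q : G.Walk b d), e = s(a, b) ∧ f = s(c, d) ∧ P.IsPath ∧
    Q.IsPath ∧ List.Disjoint P.support Q.support ∧ ∃ t ∈ P.darts, t.fst = x ∧ t.snd = y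

/-- some circle through `e` and `f` misses `v` -/
def Missed (G : SimpleGraph V) (e f : Sym2 V) (v : V) : Prop :=
  ∃ (u : V) (w : G.Walk u u), w.IsCycle ∧ e ∈ w.edges ∧ f ∈ w.edges ∧ v ∉ w.support

/-- the certificate -/
def WCert (G : SimpleGraph V) (σ : Sym2 V → ZMod 2) (e f : Sym2 V) (π ρ : V → ZMod 2) : Prop :=
  (∀ v, Missed G e f v → π v = ρ v) ∧ ∀ x y, Runs G e f x y → σ s(x, y) = π x + ρ y

theorem path_darts [DecidableEq V] {u v : V} (P : G.Walk u v) (hP : P.IsPath) :
    ∃ τ : Equiv.Perm V, (∀ x, x ∉ P.support → τ x = x) ∧ τ v = u ∧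
      (∀ x, x ∈ P.support → x ≠ v → G.Adj x (τ x) ∧ τ x ∈ P.support ∧ τ x ≠ u ∧
        ∃ t ∈ P.darts, t.fst = x ∧ t.snd = τ x) ∧
      ∀ t ∈ P.darts, τ t.fst = t.snd ∧ t.fst ≠ v := by
  induction P with
  | nil =>
    refine ⟨1, fun x _ => rfl, rfl, ?_, ?_⟩
    · intro x hx hxv
      rw [Walk.support_nil, List.mem_singleton] at hx
      exact absurd hx hxv
    · intro t h; simp at h
  | @cons u v' v h P' ih =>
    rw [Walk.cons_isPath_iff] at hP
    obtain ⟨τ, h1, h2, h3, h4⟩ := ih hP.1
    have hu : u ∉ P'.support := hP.2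
    have hv : v ∈ P'.support := P'.end_mem_support
    have huv : u ≠ v := by rintro rfl; exact hu hv
    have hoth : ∀ x, x ≠ u → x ≠ v → (τ * Equiv.swap u v) x = τ x := by
      intro x hxu hxv
      rw [Equiv.Perm.mul_apply, Equiv.swap_apply_of_ne_of_ne hxu hxv]
    have hτu : (τ * Equiv.swap u v) u = v' := by
      rw [Equiv.Perm.mul_apply, Equiv.swap_apply_left, h2]
    have hτv : (τ * Equiv.swap u v) v = u := by
      rw [Equiv.Perm.mul_apply, Equiv.swap_apply_right, h1 u hu]
    refine ⟨τ * Equiv.swap u v, ?_, hτv, ?_, ?_⟩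
    · intro x hx
      rw [Walk.support_cons, List.mem_cons, not_or] at hx
      rw [hoth x hx.1 (fun h => hx.2 (h ▸ hv))]
      exact h1 x hx.2
    · intro x hx hxv
      rw [Walk.support_cons, List.mem_cons] at hx
      by_cases hxu : x = u
      · rw [hxu, hτu]
        refine ⟨h, ?_, h.ne.symm, ⟨(u, v'), h⟩, ?_, rfl, rfl⟩
        · rw [Walk.support_cons]
          exact List.mem_cons_of_mem _ P'.start_mem_support
        · rw [Walk.darts_cons]
          exact List.mem_cons_self
      · have hx' := hx.resolve_left hxu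
        obtain ⟨k1, k2, k3, t, k4, k5, k6⟩ := h3 x hx' hxv
        rw [hoth x hxu hxv]
        refine ⟨k1, ?_, ?_, t, ?_, k5, k6⟩
        · rw [Walk.support_cons]
          exact List.mem_cons_of_mem _ k2
        · rintro h'
          rw [h'] at k2
          exact hu k2
        · rw [Walk.darts_cons]
          exact List.mem_cons_of_mem _ k4
    · intro t ht
      rw [Walk.darts_cons, List.mem_cons] at ht
      rcases ht with rfl | ht
      · exact ⟨hτu, huv⟩
      · obtain ⟨k1, k2⟩ := h4 t ht
        have hts : t.fst ∈ P'.support := Walk.dart_fst_mem_support_of_mem_darts _ ht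
        rw [hoth _ (fun h' => hu (h' ▸ hts)) k2]
        exact ⟨k1, k2⟩

theorem linkage_darts [Finite V] {a b c d c' d' : V}
    (P : G.Walk a c') (Q : G.Walk b d') (hP : P.IsPath) (hQ : Q.IsPath)
    (hd : List.Disjoint P.support Q.support) (hcd : (c' = c ∧ d' = d) ∨ (c' = d ∧ d' = c)) :
    ∃ M : Equiv.Perm V, Val G a b c d M ∧ (∀ x, x ≠ c → x ≠ d →
      (M x = x ∧ x ∉ P.support ∧ x ∉ Q.support) ∨ (∃ t ∈ P.darts, t.fst = x ∧ t.snd = M x) ∨
        ∃ t ∈ Q.darts, t.fst = x ∧ t.snd = M x) ∧
      (∀ t ∈ P.darts, M t.fst = t.snd ∧ t.fst ≠ c ∧ t.fst ≠ d) ∧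
      ∀ t ∈ Q.darts, M t.fst = t.snd := by
  classical
  obtain ⟨τ, p1, p2, p3, p4⟩ := path_darts P hP
  obtain ⟨τ', q1, q2, q3, q4⟩ := path_darts Q hQ
  have hor : ∀ x, (x = c ∨ x = d) ↔ (x = c' ∨ x = d') := by
    intro x
    rcases hcd with ⟨rfl, rfl⟩ | ⟨rfl, rfl⟩
    · exact Iff.rfl
    · exact or_comm
  have hMP : ∀ x, x ∈ P.support → (τ * τ') x = τ x := by
    intro x hx
    rw [Equiv.Perm.mul_apply, q1 x (fun h => hd hx h)]
  have hMn : ∀ x, x ∉ P.support → x ∉ Q.support → (τ * τ') x = x := by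
    intro x hx hx'
    rw [Equiv.Perm.mul_apply, q1 x hx', p1 x hx]
  have hMQ : ∀ x, x ∈ Q.support → (τ * τ') x = τ' x := by
    intro x hx
    rw [Equiv.Perm.mul_apply]
    apply p1
    intro h
    by_cases hxd : x = d'
    · rw [hxd, q2] at h
      exact hd h Q.start_mem_support
    · exact hd h (q3 x hx hxd).2.1
  have haQ : a ∉ Q.support := fun h => hd P.start_mem_support h
  have hbP : b ∉ P.support := fun h => hd h Q.start_mem_support
  have hne' : ∀ x, x ≠ c → x ≠ d → x ≠ c' ∧ x ≠ d' := by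
    intro x hc hdd
    have := (hor x).not.1 (by rw [not_or]; exact ⟨hc, hdd⟩)
    rwa [not_or] at this
  refine ⟨τ * τ', ⟨?_, ?_⟩, ?_, ?_, ?_⟩
  · intro x hx
    rw [hor] at hx
    rcases hx with rfl | rfl
    · left; rw [hMP _ P.end_mem_support, p2]
    · right; rw [hMQ _ Q.end_mem_support, q2]
  · intro x hc hdd
    have hx := hne' x hc hdd
    by_cases hxP : x ∈ P.support
    · obtain ⟨k1, k2, k3, _⟩ := p3 x hxP hx.1
      rw [hMP x hxP]
      exact ⟨k3, fun h => hbP (h ▸ k2), Or.inr k1⟩
    · by_cases hxQ : x ∈ Q.support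
      · obtain ⟨k1, k2, k3, _⟩ := q3 x hxQ hx.2
        rw [hMQ x hxQ]
        exact ⟨fun h => haQ (h ▸ k2), k3, Or.inr k1⟩
      · rw [hMn x hxP hxQ]
        exact ⟨fun h => hxP (h ▸ P.start_mem_support), fun h => hxQ (h ▸ Q.start_mem_support),
          Or.inl rfl⟩
  · intro x hc hdd
    have hx := hne' x hc hdd
    by_cases hxP : x ∈ P.support
    · obtain ⟨_, _, _, k4⟩ := p3 x hxP hx.1
      rw [hMP x hxP]
      exact Or.inr (Or.inl k4)
    · by_cases hxQ : x ∈ Q.support
      · obtain ⟨_, _, _, k4⟩ := q3 x hxQ hx.2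
        rw [hMQ x hxQ]
        exact Or.inr (Or.inr k4)
      · exact Or.inl ⟨hMn x hxP hxQ, hxP, hxQ⟩
  · intro t ht
    have hts : t.fst ∈ P.support := Walk.dart_fst_mem_support_of_mem_darts _ ht
    obtain ⟨k1, k2⟩ := p4 t ht
    rw [hMP _ hts]
    have hn : t.fst ≠ c ∧ t.fst ≠ d := by
      have := (hor t.fst).not.2 (by
        rw [not_or]
        exact ⟨k2, fun h' => hd hts (h' ▸ Q.end_mem_support)⟩)
      rwa [not_or] at this
    exact ⟨k1, hn⟩
  · intro t ht
    have hts : t.fst ∈ Q.support := Walk.dart_fst_mem_support_of_mem_darts _ ht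
    rw [hMQ _ hts]
    exact (q4 t ht).1

/-- a circle through two edges and its linkage -/
theorem cycle_split4 (σ : Sym2 V → ZMod 2) {a b c d : V} (hab : a ≠ b) (hef : s(a, b) ≠ s(c, d))
    {u : V} (w : G.Walk u u) (hw : w.IsCycle) (he : s(a, b) ∈ w.edges) (hf : s(c, d) ∈ w.edges) :
    ∃ (c' d' : V) (P : G.Walk a c') (Q : G.Walk b d'), P.IsPath ∧ Q.IsPath ∧
      List.Disjoint P.support Q.support ∧ ((c' = c ∧ d' = d) ∨ (c' = d ∧ d' = c)) ∧
      (sgn σ w = σ s(a, b) + σ s(c, d) + (sgn σ P + sgn σ Q)) ∧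
      ∀ x, x ∉ P.support → x ∉ Q.support → x ∉ w.support := by
  obtain ⟨A1, A2, hA1, hA2, hed, hsg⟩ := arcs3 σ w hw (w.fst_mem_support_of_mem_edges he)
    (w.snd_mem_support_of_mem_edges he) hab
  have key : ∀ A B : G.Walk a b, A.IsPath → B.IsPath → s(a, b) ∈ B.edges →
      (∀ g ∈ w.edges, g ∈ A.edges ∨ g ∈ B.edges) → sgn σ w = sgn σ A + sgn σ B →
      ∃ (c' d' : V) (P : G.Walk a c') (Q : G.Walk b d'), P.IsPath ∧ Q.IsPath ∧
      List.Disjoint P.support Q.support ∧ ((c' = c ∧ d' = d) ∨ (c' = d ∧ d' = c)) ∧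
      (sgn σ w = σ s(a, b) + σ s(c, d) + (sgn σ P + sgn σ Q)) ∧
      ∀ x, x ∉ P.support → x ∉ Q.support → x ∉ w.support := by
    intro A B hA hB hBe hAB hs
    have hB1 := hB.eq_adj_toWalk_of_mem_edges hBe
    have hBs : sgn σ B = σ s(a, b) := by
      rw [hB1]
      simp [Adj.toWalk, sgn]
    have hBg : ∀ g ∈ B.edges, g = s(a, b) := by
      rw [hB1]
      intro g hg
      simpa [Adj.toWalk] using hg
    have hAf : s(c, d) ∈ A.edges := by
      rcases hAB _ hf with h | h
      · exact h
      · exact absurd (hBg _ h).symm hef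
    obtain ⟨x, y, h, p1, p2, h1, h2⟩ := edge_split A hAf
    have hA' := hA
    rw [h2] at hA'
    have hc2 := hA'.of_append_right
    rw [Walk.cons_isPath_iff] at hc2
    refine ⟨x, y, p1, p2.reverse, hA'.of_append_left, hc2.1.reverse, ?_, ?_, ?_, ?_⟩
    · intro t ht ht'
      rw [Walk.support_reverse, List.mem_reverse] at ht'
      have := append_inter hA' ht (by
        rw [Walk.support_cons]; exact List.mem_cons_of_mem _ ht')
      rw [this] at ht'
      exact hc2.2 ht'
    · rw [Sym2.eq_iff] at h1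
      exact h1
    · rw [hs, hBs, h2, sgn_append, sgn_cons, sgn_reverse, h1]
      ring
    · intro t ht ht' htw
      rw [Walk.support_reverse, List.mem_reverse] at ht'
      have hsup : t ∉ A.support := by
        rw [h2, Walk.mem_support_append_iff, Walk.support_cons, List.mem_cons]
        rintro (h' | h' | h')
        · exact ht h'
        · exact ht (h' ▸ p1.end_mem_support)
        · exact ht' h'
      obtain ⟨z, hz⟩ := cycle_edge w hw htw
      rcases hAB _ hz with h' | h'
      · exact hsup (A.fst_mem_support_of_mem_edges h')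
      · have h3 := hBg _ h'
        rw [Sym2.eq_iff] at h3
        rcases h3 with ⟨rfl, _⟩ | ⟨rfl, _⟩
        · exact hsup A.start_mem_support
        · exact hsup A.end_mem_support
  rcases hed _ he with h | h
  · exact key A2 A1 hA2 hA1 h (fun g hg => (hed g hg).symm) (by rw [hsg, add_comm])
  · exact key A1 A2 hA1 hA2 h hed hsg

theorem sum_darts [DecidableEq V] (σ : Sym2 V → ZMod 2) {u v : V} (P : G.Walk u v)
    (hP : P.IsPath) (τ : V → V) (hτ : ∀ t ∈ P.darts, τ t.fst = t.snd) :
    ∑ x ∈ P.support.toFinset.erase v, wt σ x (τ x) = sgn σ P := by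
  induction P with
  | nil => simp [sgn_nil]
  | @cons u v' v h P' ih =>
    rw [Walk.cons_isPath_iff] at hP
    have hu : u ∉ P'.support := hP.2
    have hv : v ∈ P'.support := P'.end_mem_support
    have huv : u ≠ v := by rintro rfl; exact hu hv
    have e1 : (Walk.cons h P').support.toFinset.erase v =
        insert u (P'.support.toFinset.erase v) := by
      rw [Walk.support_cons, List.toFinset_cons, Finset.erase_insert_of_ne huv]
    have hτu : τ u = v' := hτ ⟨(u, v'), h⟩ (by rw [Walk.darts_cons]; exact List.mem_cons_self)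
    rw [e1, Finset.sum_insert, hτu, wt_ne σ h.ne, sgn_cons, ih hP.1 (by
      intro t ht
      exact hτ t (by rw [Walk.darts_cons]; exact List.mem_cons_of_mem _ ht))]
    rw [Finset.mem_erase, List.mem_toFinset]
    exact fun h' => hu h'.2

/-- the common sign -/
theorem mono_of_wcert [Fintype V] (σ : Sym2 V → ZMod 2) {e f : Sym2 V} (hef : e ≠ f)
    (π ρ : V → ZMod 2) (hc : WCert G σ e f π ρ) : Mono' G σ e f (tot σ e f π ρ) := by
  classical
  intro u w hw he hf
  have heE := w.edges_subset_edgeSet he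
  have hfE := w.edges_subset_edgeSet hf
  induction e using Sym2.ind with
  | _ a b =>
    induction f using Sym2.ind with
    | _ c d =>
      have hab : a ≠ b := by
        rw [mem_edgeSet] at heE
        exact heE.ne
      obtain ⟨c', d', P, Q, hP, hQ, hd, hor, hs⟩ := cycle_split4 σ hab hef w hw he hf
      obtain ⟨hs1, hs2⟩ := hs
      obtain ⟨M, hM, hMd, hMP, hMQ⟩ := linkage_darts P Q hP hQ hd hor
      have hfcd : s(c, d) = s(c', d') := by
        rw [Sym2.eq_iff]
        rcases hor with ⟨h1, h2⟩ | ⟨h1, h2⟩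
        · exact Or.inl ⟨h1.symm, h2.symm⟩
        · exact Or.inr ⟨h2.symm, h1.symm⟩
      have hW : W σ c d M = sgn σ P + sgn σ Q := by
        have hor' : ∀ x, (x = c ∨ x = d) ↔ (x = c' ∨ x = d') := by
          intro x
          rcases hor with ⟨rfl, rfl⟩ | ⟨rfl, rfl⟩
          · exact Iff.rfl
          · exact or_comm
        rw [W]
        have e0 : (Finset.univ.filter (fun x => x ≠ c ∧ x ≠ d)) =
            Finset.univ.filter (fun x => x ≠ c' ∧ x ≠ d') := by
          apply Finset.filter_congr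
          intro x _
          have := (hor' x).not
          rwa [not_or, not_or] at this
        rw [e0]
        have hsub : P.support.toFinset.erase c' ∪ Q.support.toFinset.erase d' ⊆
            Finset.univ.filter (fun x => x ≠ c' ∧ x ≠ d') := by
          intro x hx
          rw [Finset.mem_union, Finset.mem_erase, Finset.mem_erase, List.mem_toFinset,
            List.mem_toFinset] at hx
          rw [Finset.mem_filter]
          refine ⟨Finset.mem_univ _, ?_⟩
          rcases hx with h | h
          · exact ⟨h.1, fun h' => hd h.2 (h' ▸ Q.end_mem_support)⟩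
          · exact ⟨fun h' => hd P.end_mem_support (h' ▸ h.2), h.1⟩
        rw [← Finset.sum_subset hsub, Finset.sum_union,
          sum_darts σ P hP M (fun t ht => (hMP t ht).1), sum_darts σ Q hQ M hMQ]
        · rw [Finset.disjoint_left]
          intro x hx hx'
          rw [Finset.mem_erase, List.mem_toFinset] at hx hx'
          exact hd hx.2 hx'.2
        · intro x hx hx'
          rw [Finset.mem_filter] at hx
          rw [Finset.mem_union, Finset.mem_erase, Finset.mem_erase, List.mem_toFinset,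
            List.mem_toFinset, not_or, not_and, not_and] at hx'
          have hxx : x ≠ c ∧ x ≠ d := by
            have := (hor' x).not.2 (by rw [not_or]; exact hx.2)
            rwa [not_or] at this
          rcases hMd x hxx.1 hxx.2 with ⟨k1, _, _⟩ | ⟨t, k1, k2, _⟩ | ⟨t, k1, k2, _⟩
          · rw [k1, wt_self]
          · exact absurd (k2 ▸ Walk.dart_fst_mem_support_of_mem_darts _ k1) (hx'.1 hx.2.1)
          · exact absurd (k2 ▸ Walk.dart_fst_mem_support_of_mem_darts _ k1) (hx'.2 hx.2.2)
      have e1 : W σ c d M = ∑ x ∈ Finset.univ.filter (fun x => x ≠ c ∧ x ≠ d), (π x + ρ (M x)) := by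
        rw [W]
        apply Finset.sum_congr rfl
        intro x hx
        rw [Finset.mem_filter] at hx
        rcases hMd x hx.2.1 hx.2.2 with ⟨k1, k2, k3⟩ | ⟨t, k1, k2, k3⟩ | ⟨t, k1, k2, k3⟩
        · rw [k1, wt_self, hc.1 x ⟨u, w, hw, he, hf, hs2 x k2 k3⟩]
          exact (CharTwo.add_self_eq_zero _).symm
        · have hadj : G.Adj x (M x) := by
            have := t.adj
            rwa [k2, k3] at this
          rw [wt_ne σ hadj.ne]
          exact hc.2 x (M x) ⟨a, b, c', d', P, Q, rfl, hfcd, hP, hQ, hd, t, k1, k2, k3⟩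
        · have hadj : G.Adj x (M x) := by
            have := t.adj
            rwa [k2, k3] at this
          rw [wt_ne σ hadj.ne]
          refine hc.2 x (M x) ⟨b, a, d', c', Q, P, Sym2.eq_swap, ?_, hQ, hP, hd.symm, t, k1, k2, k3⟩
          rw [hfcd, Sym2.eq_swap]
      have e2 : ∑ x ∈ Finset.univ.filter (fun x => x ≠ c ∧ x ≠ d), ρ (M x) =
          ∑ x ∈ Finset.univ.filter (fun x => x ≠ a ∧ x ≠ b), ρ x := by
        apply Finset.sum_equiv M
        · intro x
          simp only [Finset.mem_filter, Finset.mem_univ, true_and]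
          constructor
          · rintro ⟨h1, h2⟩
            have := hM.step x h1 h2
            exact ⟨this.1, this.2.1⟩
          · intro h
            constructor
            · rintro rfl
              rcases hM.src x (Or.inl rfl) with h' | h'
              · exact h.1 h'
              · exact h.2 h'
            · rintro rfl
              rcases hM.src x (Or.inr rfl) with h' | h'
              · exact h.1 h'
              · exact h.2 h'
        · intro x _
          rfl
      rw [Finset.sum_add_distrib, e2] at e1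
      rw [hs1, ← hW, e1, tot]
      have f1 : (Finset.univ.filter (fun x => x ∉ s(c, d))) =
          Finset.univ.filter (fun x => x ≠ c ∧ x ≠ d) := by
        apply Finset.filter_congr
        intro x _
        rw [Sym2.mem_iff, not_or]
      have f2 : (Finset.univ.filter (fun x => x ∉ s(a, b))) =
          Finset.univ.filter (fun x => x ≠ a ∧ x ≠ b) := by
        apply Finset.filter_congr
        intro x _
        rw [Sym2.mem_iff, not_or]
      have g1 : ∑ x ∈ Finset.univ.filter (fun x => x ≠ c ∧ x ≠ d), π x =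
          ∑ x ∈ Finset.univ.filter (fun x => x ∉ s(c, d)), π x := by rw [f1]
      have g2 : ∑ x ∈ Finset.univ.filter (fun x => x ≠ a ∧ x ≠ b), ρ x =
          ∑ x ∈ Finset.univ.filter (fun x => x ∉ s(a, b)), ρ x := by rw [f2]
      rw [g1, g2, add_assoc (σ s(a, b) + σ s(c, d))]

theorem circ_edges {a b c d : V} (hab : G.Adj a b) (hcd : G.Adj c d) (hne : s(a, b) ≠ s(c, d))
    (P : G.Walk b c) (Q : G.Walk d a) (hP : P.IsPath) (hQ : Q.IsPath)
    (hd : List.Disjoint P.support Q.support) :
    ∃ w : G.Walk a a, w.IsCycle ∧ s(a, b) ∈ w.edges ∧ s(c, d) ∈ w.edges ∧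
      ∀ g, g ∈ P.edges ∨ g ∈ Q.edges → g ∈ w.edges := by
  refine ⟨Walk.cons hab (P.append (Walk.cons hcd Q)), ?_, by simp, by simp, ?_⟩
  · rw [Walk.cons_isCycle_iff]
    constructor
    · rw [Walk.isPath_def, Walk.support_append, Walk.support_cons, List.tail_cons,
        List.nodup_append]
      refine ⟨hP.support_nodup, hQ.support_nodup, ?_⟩
      intro x hx y hy hxy
      exact hd hx (hxy ▸ hy)
    · rw [Walk.edges_append, Walk.edges_cons]
      simp only [List.mem_append, List.mem_cons, not_or]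
      refine ⟨fun h => ?_, hne, fun h => ?_⟩
      · exact hd (P.fst_mem_support_of_mem_edges h) Q.end_mem_support
      · exact hd P.start_mem_support (Q.snd_mem_support_of_mem_edges h)
  · intro g hg
    rw [Walk.edges_cons, Walk.edges_append, Walk.edges_cons]
    simp only [List.mem_append, List.mem_cons]
    tauto

theorem dart_transfer {H : SimpleGraph V} {u v : V} (P : G.Walk u v)
    (hP : ∀ g ∈ P.edges, g ∈ H.edgeSet) (t : G.Dart) (ht : t ∈ P.darts) :
    ∃ t' ∈ (P.transfer H hP).darts, t'.fst = t.fst ∧ t'.snd = t.snd := by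
  induction P with
  | nil => simp at ht
  | @cons a b c h p ih =>
    rw [Walk.darts_cons, List.mem_cons] at ht
    rcases ht with rfl | ht
    · exact ⟨⟨(a, b), hP s(a, b) (by simp)⟩, List.mem_cons_self, rfl, rfl⟩
    · obtain ⟨t', h1, h2⟩ := ih (fun g hg => hP g (by
        rw [Walk.edges_cons]; exact List.mem_cons_of_mem _ hg)) ht
      exact ⟨t', List.mem_cons_of_mem _ h1, h2⟩

theorem wcert_of_mono [Fintype V] (σ : Sym2 V → ZMod 2) {e f : Sym2 V} (he : e ∈ G.edgeSet)
    (hf : f ∈ G.edgeSet) (hef : e ≠ f) (h : ∃ ε, Mono' G σ e f ε) :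
    ∃ π ρ : V → ZMod 2, WCert G σ e f π ρ := by
  classical
  obtain ⟨π, ρ, hc⟩ := (cert_iff σ hef).1 h
  refine ⟨π, ρ, ?_, ?_⟩
  · rintro v ⟨u, w, hw, hew, hfw, hv⟩
    exact hc.1 v (free_of_missed hef w hw hew hfw hv)
  · rintro x y ⟨a, b, c, d, P, Q, rfl, rfl, hP, hQ, hd, t, ht, rfl, rfl⟩
    have hab : G.Adj a b := he
    have hcd : G.Adj c d := hf
    -- the circle made of the two paths
    obtain ⟨w, hw, hew, hfw, hE⟩ := circ_edges hab.symm hcd (by
      rw [Sym2.eq_swap]; exact hef) P Q.reverse hP hQ.reverse (by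
        intro v hv hv'
        rw [Walk.support_reverse, List.mem_reverse] at hv'
        exact hd hv hv')
    rw [Sym2.eq_swap] at hew
    have hPH : ∀ g ∈ P.edges, g ∈ (Rel G s(a, b) s(c, d)).edgeSet := by
      intro g hg
      rw [mem_rel]
      exact ⟨_, w, hw, hew, hfw, hE g (Or.inl hg)⟩
    have hQH : ∀ g ∈ Q.edges, g ∈ (Rel G s(a, b) s(c, d)).edgeSet := by
      intro g hg
      rw [mem_rel]
      refine ⟨_, w, hw, hew, hfw, hE g (Or.inr ?_)⟩
      rw [Walk.edges_reverse, List.mem_reverse]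
      exact hg
    obtain ⟨M, hM, _, hMP, _⟩ := linkage_darts (c := c) (d := d) (P.transfer _ hPH)
      (Q.transfer _ hQH) (hP.transfer hPH) (hQ.transfer hQH) (by
        rw [Walk.support_transfer, Walk.support_transfer]
        exact hd) (Or.inl ⟨rfl, rfl⟩)
    obtain ⟨t', ht', e1, e2⟩ := dart_transfer P hPH t ht
    obtain ⟨k1, k2, k3⟩ := hMP _ ht'
    have hadj : (Rel G s(a, b) s(c, d)).Adj t.fst t.snd := by
      have := t'.adj
      rwa [e1, e2] at this
    rw [e1] at k1 k2 k3
    rw [e2] at k1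
    have hF := free_of_val hab.ne hM k2 k3
    rw [k1] at hF
    exact hc.2 _ _ hadj hF

end Pool.Agent.H99.SG
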